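import Mathlib

/-! Mean curvature flow of immersed `n`-spheres in the unit sphere of a Euclidean space `V`. -/

open Set Metric
open scoped ContDiff

namespace Pool.Agent.TH616.MCF

/-- The Euclidean space `ℝ^(n+1)`. -/
abbrev E (n : ℕ) := EuclideanSpace ℝ (Fin (n + 1))

/-- The unit sphere `S^n ⊂ ℝ^(n+1)`. -/
abbrev S (n : ℕ) := sphere (0 : E n) 1

variable {n : ℕ} {V : Type*} [NormedAddCommGroup V] [InnerProductSpace ℝ V]

/-- The point `(1, 0, …, 0)` of `S^n`. -/
noncomputable def pole (n : ℕ) : S n := ⟨EuclideanSpace.single 0 1, by simp⟩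

open Classical in
/-- The radial projection `x ↦ x / ‖x‖` of `ℝ^(n+1) ∖ {0}` onto `S^n` (with an arbitrary value
at `0`, never used). -/
noncomputable def proj (x : E n) : S n :=
  if h : x = 0 then pole n else ⟨‖x‖⁻¹ • x, by simp [norm_smul, h]⟩

/-- A map `S^n → V` is smooth if its degree `0` homogeneous extension `x ↦ F (x / ‖x‖)` is smooth
on `ℝ^(n+1) ∖ {0}`. -/
def IsSmooth (F : S n → V) : Prop := ContDiffOn ℝ ∞ (fun y : E n => F (proj y)) {0}ᶜ

/-- The derivative at `x` in direction `u` of (the degree `0` homogeneous extension of) `F`.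
For `x ∈ S^n` and `u ⟂ x` this is the differential of `F` at `x` applied to the tangent vector `u`
of `S^n`. -/
noncomputable def D (F : S n → V) (x u : E n) : V := fderiv ℝ (fun y : E n => F (proj y)) x u

/-- The second derivative of (the degree `0` homogeneous extension of) `F` at `x` in the
directions `u`, `v`. For `x ∈ S^n` and `u ⟂ x` the vector `D2 F x u u` is the acceleration at `x` of
the image under `F` of the geodesic of `S^n` with initial velocity `u`. -/
noncomputable def D2 (F : S n → V) (x u v : E n) : V := fderiv ℝ (fun y : E n => D F y v) x u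

/-- `F` is an immersion. -/
def IsImmersion (F : S n → V) : Prop :=
  ∀ (x : S n) (u : E n), inner ℝ (x : E n) u = 0 → D F x u = 0 → u = 0

/-- `e` is an orthonormal basis of `T_x S^n` for the metric induced by `F`. -/
def IsFrame (F : S n → V) (x : S n) (e : Fin n → E n) : Prop :=
  (∀ i, inner ℝ (x : E n) (e i) = 0) ∧ Orthonormal ℝ (fun i => D F x (e i))

/-- For a map `F` into the unit sphere of `V` and a frame `e` of `F` at `x`: the component of `y`
which is tangent to the unit sphere of `V` at `F x` and normal to the submanifold. -/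
noncomputable def nor (F : S n → V) (x : S n) (e : Fin n → E n) (y : V) : V :=
  y - inner ℝ y (F x) • F x - ∑ j, inner ℝ y (D F x (e j)) • D F x (e j)

/-- The (vector valued) second fundamental form `h(u, v)` of `F` in the unit sphere of `V`. -/
noncomputable def sff (F : S n → V) (x : S n) (e : Fin n → E n) (u v : E n) : V :=
  nor F x e (D2 F x u v)

/-- The mean curvature vector `H`, the trace of the second fundamental form. -/
noncomputable def meanCurv (F : S n → V) (x : S n) (e : Fin n → E n) : V :=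
  ∑ i, sff F x e (e i) (e i)

/-- The Ricci curvature `Ric(u, u)` of the metric induced by `F`, given by the Gauss equation
`Ric(u, u) = (n - 1) |u|² + ⟨H, h(u, u)⟩ - ∑ᵢ |h(u, eᵢ)|²` in the unit sphere of `V`. -/
noncomputable def ricci (F : S n → V) (x : S n) (e : Fin n → E n) (u : E n) : ℝ :=
  ((n : ℝ) - 1) * ‖D F x u‖ ^ 2 + inner ℝ (meanCurv F x e) (sff F x e u u) -
    ∑ i, ‖sff F x e u (e i)‖ ^ 2

/-- The time interval `[0, T)`, where `T = ∞` is allowed. -/
def Time (T : EReal) : Set ℝ := {t | 0 ≤ t ∧ (t : EReal) < T}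

/-- `F` is a smooth mean curvature flow `S^n × [0, T) → unit sphere of V` with initial value `F₀`: a
smooth family of immersions into the unit sphere with `∂F/∂t = H` and `F(·, 0) = F₀`. -/
structure IsMCF (F₀ : S n → V) (T : EReal) (F : ℝ → S n → V) : Prop where
  pos : 0 < T
  smooth : ContDiffOn ℝ ∞ (fun q : ℝ × E n => F q.1 (proj q.2)) (Time T ×ˢ {0}ᶜ)
  init : F 0 = F₀
  mem : ∀ t ∈ Time T, ∀ x, ‖F t x‖ = 1
  imm : ∀ t ∈ Time T, IsImmersion (F t)
  flow : ∀ t ∈ Time T, ∀ x e, IsFrame (F t) x e →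
    HasDerivWithinAt (fun s => F s x) (meanCurv (F t) x e) (Time T) t

/-- `φ` is a diffeomorphism of `S^n`. -/
structure IsDiffeo (φ : S n ≃ S n) : Prop where
  smooth : IsSmooth fun x => (φ x : E n)
  smooth_symm : IsSmooth fun x => (φ.symm x : E n)

/-- `G t` converges to `G'` in `C¹`, uniformly on `S^n`, as `t → T`. -/
def TendsC1 (T : EReal) (G : ℝ → S n → V) (G' : S n → V) : Prop :=
  ∀ ε > 0, ∃ t₀ ∈ Time T, ∀ t ∈ Time T, t₀ ≤ t → ∀ x : S n, ‖G t x - G' x‖ < ε ∧
    ∀ u : E n, inner ℝ (x : E n) u = 0 → ‖u‖ = 1 → ‖D (G t) x u - D G' x u‖ < ε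

/-- `G'` is a smooth embedding of `S^n` whose image is the round `n`-sphere with centre `a` and
radius `r` in the affine subspace `a + W`, where `W` is a linear subspace of dimension `n + 1`. -/
def IsRoundSphere (G' : S n → V) (a : V) (r : ℝ) (W : Submodule ℝ V) : Prop :=
  IsSmooth G' ∧ IsImmersion G' ∧ Function.Injective G' ∧ 0 < r ∧
    Module.finrank ℝ W = n + 1 ∧ range G' = {y | y - a ∈ W ∧ ‖y - a‖ = r}

/-- Alternative (a): `T < ∞` and `M_t = F(S^n, t)` converges to a round point as `t → T`: it shrinks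
to a single point `o` and suitable rescalings around `o` converge (up to time-dependent
diffeomorphisms of `S^n`) to a round sphere. -/
def ToRoundPoint (T : EReal) (F : ℝ → S n → V) : Prop :=
  T < ⊤ ∧ ∃ o : V,
    (∀ ε > 0, ∃ t₀ ∈ Time T, ∀ t ∈ Time T, t₀ ≤ t → ∀ x, ‖F t x - o‖ < ε) ∧
    ∃ (φ : ℝ → S n ≃ S n) (c : ℝ → ℝ) (G' : S n → V) (a : V) (r : ℝ) (W : Submodule ℝ V),
      (∀ t, IsDiffeo (φ t)) ∧ (∀ t, 0 < c t) ∧
      TendsC1 T (fun t x => c t • (F t (φ t x) - o)) G' ∧ IsRoundSphere G' a r W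

/-- Alternative (b): `T = ∞` and `M_t = F(S^n, t)` converges (up to time-dependent diffeomorphisms
of `S^n`) to a totally geodesic `n`-sphere of the unit sphere of `V`. -/
def ToGreatSphere (T : EReal) (F : ℝ → S n → V) : Prop :=
  T = ⊤ ∧ ∃ (φ : ℝ → S n ≃ S n) (G' : S n → V) (W : Submodule ℝ V),
    (∀ t, IsDiffeo (φ t)) ∧ TendsC1 T (fun t x => F t (φ t x)) G' ∧ IsRoundSphere G' 0 1 W

end Pool.Agent.TH616.MCF
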