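import Mathlib
import Pool.Agent.TH616.MDefs

/-! Calculus of maps of the sphere `S^n` to a Euclidean space. -/

open Set Metric
open scoped ContDiff

namespace Pool.Agent.TH616.MCF

variable {n : ℕ} {V : Type*} [NormedAddCommGroup V] [InnerProductSpace ℝ V]

theorem coe_ne_zero (x : S n) : (x : E n) ≠ 0 := by
  intro h
  have h1 : ‖(x : E n)‖ = 1 := by simp
  rw [h] at h1
  simp at h1

theorem isOpen_ne : IsOpen ({0}ᶜ : Set (E n)) := isOpen_compl_singleton

theorem proj_coe (x : S n) : proj (x : E n) = x := by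
  have hx : ‖(x : E n)‖ = 1 := by simp
  apply Subtype.ext
  simp [proj, coe_ne_zero x, hx]

theorem coe_proj {x : E n} (hx : x ≠ 0) : (proj x : E n) = ‖x‖⁻¹ • x := by
  simp [proj, hx]

theorem proj_smul {x : E n} (hx : x ≠ 0) {c : ℝ} (hc : 0 < c) : proj (c • x) = proj x := by
  apply Subtype.ext
  rw [coe_proj (smul_ne_zero hc.ne' hx), coe_proj hx, norm_smul, Real.norm_of_nonneg hc.le,
    smul_smul, mul_inv, mul_comm c⁻¹, mul_assoc, inv_mul_cancel₀ hc.ne', mul_one]

theorem line_ne_zero (x : S n) {u : E n} (hu : inner ℝ (x : E n) u = 0) (s : ℝ) :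
    (x : E n) + s • u ≠ 0 := by
  intro h
  have h1 := congrArg (fun w => inner ℝ (x : E n) w) h
  simp only [inner_add_right, real_inner_smul_right, hu, mul_zero, add_zero,
    inner_zero_right, real_inner_self_eq_norm_sq] at h1
  simp at h1

theorem hasDerivAt_line {W : Type*} [NormedAddCommGroup W] [NormedSpace ℝ W] (y u : W) (s : ℝ) :
    HasDerivAt (fun s : ℝ => y + s • u) u s := by
  have h := ((hasDerivAt_id s).smul_const u).const_add y
  simpa using h

theorem IsSmooth.hasFDerivAt {F : S n → V} (hF : IsSmooth F) {y : E n} (hy : y ≠ 0) :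
    HasFDerivAt (fun y : E n => F (proj y)) (fderiv ℝ (fun y : E n => F (proj y)) y) y := by
  have h1 : ContDiffAt ℝ ∞ (fun y : E n => F (proj y)) y := hF.contDiffAt (isOpen_ne.mem_nhds hy)
  exact (h1.differentiableAt (by simp)).hasFDerivAt

theorem IsSmooth.hasDerivAt {F : S n → V} (hF : IsSmooth F) {y : E n} (u : E n) (s : ℝ)
    (hy : y + s • u ≠ 0) :
    HasDerivAt (fun s : ℝ => F (proj (y + s • u))) (D F (y + s • u) u) s := by
  have h := (hF.hasFDerivAt hy).comp_hasDerivAt s (hasDerivAt_line y u s)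
  exact h

theorem IsSmooth.contDiffOn_fderiv {F : S n → V} (hF : IsSmooth F) :
    ContDiffOn ℝ ∞ (fderiv ℝ (fun y : E n => F (proj y))) {0}ᶜ :=
  hF.fderiv_of_isOpen isOpen_ne (by simp)

theorem IsSmooth.contDiffOn_D {F : S n → V} (hF : IsSmooth F) (u : E n) :
    ContDiffOn ℝ ∞ (fun y : E n => D F y u) {0}ᶜ :=
  hF.contDiffOn_fderiv.clm_apply contDiffOn_const

theorem IsSmooth.hasDerivAt_D {F : S n → V} (hF : IsSmooth F) {y : E n} (u v : E n) (s : ℝ)
    (hy : y + s • u ≠ 0) :
    HasDerivAt (fun s : ℝ => D F (y + s • u) v) (D2 F (y + s • u) u v) s := by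
  have h1 : ContDiffAt ℝ ∞ (fun y : E n => D F y v) (y + s • u) :=
    (hF.contDiffOn_D v).contDiffAt (isOpen_ne.mem_nhds hy)
  have h2 := (h1.differentiableAt (by simp)).hasFDerivAt
  exact h2.comp_hasDerivAt s (hasDerivAt_line y u s)

theorem D_add (F : S n → V) (x u v : E n) : D F x (u + v) = D F x u + D F x v := by
  simp only [D, map_add]

theorem D_sub (F : S n → V) (x u v : E n) : D F x (u - v) = D F x u - D F x v := by
  simp only [D, map_sub]

theorem D_smul (F : S n → V) (x : E n) (c : ℝ) (u : E n) : D F x (c • u) = c • D F x u := by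
  simp only [D, map_smul]

theorem D_sum {ι : Type*} (s : Finset ι) (F : S n → V) (x : E n) (u : ι → E n) :
    D F x (∑ i ∈ s, u i) = ∑ i ∈ s, D F x (u i) := by
  simp only [D, map_sum]

theorem D_neg (F : S n → V) (x u : E n) : D F x (-u) = -D F x u := by
  simp only [D, map_neg]

theorem D_zero (F : S n → V) (x : E n) : D F x 0 = 0 := by
  simp only [D, map_zero]

/-- `D2` in terms of the second derivative. -/
theorem IsSmooth.D2_eq {F : S n → V} (hF : IsSmooth F) {y : E n} (hy : y ≠ 0) (u v : E n) :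
    D2 F y u v = fderiv ℝ (fderiv ℝ (fun y : E n => F (proj y))) y u v := by
  have h1 : DifferentiableAt ℝ (fderiv ℝ (fun y : E n => F (proj y))) y :=
    (hF.contDiffOn_fderiv.contDiffAt (isOpen_ne.mem_nhds hy)).differentiableAt (by simp)
  have h2 : HasFDerivAt (fun y : E n => D F y v)
      ((ContinuousLinearMap.apply ℝ V v).comp
        (fderiv ℝ (fderiv ℝ (fun y : E n => F (proj y))) y)) y :=
    (ContinuousLinearMap.apply ℝ V v).hasFDerivAt.comp y h1.hasFDerivAt
  rw [D2, h2.fderiv]
  rfl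

theorem IsSmooth.D2_symm {F : S n → V} (hF : IsSmooth F) {y : E n} (hy : y ≠ 0) (u v : E n) :
    D2 F y u v = D2 F y v u := by
  rw [hF.D2_eq hy, hF.D2_eq hy]
  have h1 : ContDiffAt ℝ ∞ (fun y : E n => F (proj y)) y := hF.contDiffAt (isOpen_ne.mem_nhds hy)
  exact (h1.isSymmSndFDerivAt (by
    rw [minSmoothness_of_isRCLikeNormedField]
    exact WithTop.coe_le_coe.2 (le_top (a := (2 : ℕ∞))))) u v

theorem IsSmooth.D2_smul_left {F : S n → V} (c : ℝ) {y : E n} (u v : E n) :
    D2 F y (c • u) v = c • D2 F y u v := by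
  simp only [D2, map_smul]

theorem IsSmooth.D2_smul_right {F : S n → V} (hF : IsSmooth F) (c : ℝ) {y : E n} (hy : y ≠ 0)
    (u v : E n) : D2 F y u (c • v) = c • D2 F y u v := by
  rw [hF.D2_eq hy, hF.D2_eq hy, map_smul]

theorem IsSmooth.D2_add_right {F : S n → V} (hF : IsSmooth F) {y : E n} (hy : y ≠ 0)
    (u v w : E n) : D2 F y u (v + w) = D2 F y u v + D2 F y u w := by
  rw [hF.D2_eq hy, hF.D2_eq hy, hF.D2_eq hy, map_add]

theorem IsSmooth.D2_add_left {F : S n → V} {y : E n}
    (u v w : E n) : D2 F y (u + v) w = D2 F y u w + D2 F y v w := by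
  simp only [D2, map_add]

/-- The first derivative along a curve. -/
theorem IsSmooth.hasDerivAt_curve {F : S n → V} (hF : IsSmooth F) {c : ℝ → E n} {c' : E n} {s : ℝ}
    (hc : HasDerivAt c c' s) (h0 : c s ≠ 0) :
    HasDerivAt (fun s => F (proj (c s))) (D F (c s) c') s :=
  (hF.hasFDerivAt h0).comp_hasDerivAt s hc

/-- The second derivative along a curve. -/
theorem IsSmooth.hasDerivAt_curve2 {F : S n → V} (hF : IsSmooth F) {c c1 : ℝ → E n} {c' c1' : E n}
    {s : ℝ} (hc : HasDerivAt c c' s) (hc1 : HasDerivAt c1 c1' s) (h0 : c s ≠ 0) :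
    HasDerivAt (fun s => D F (c s) (c1 s)) (D2 F (c s) c' (c1 s) + D F (c s) c1') s := by
  have h1 : DifferentiableAt ℝ (fderiv ℝ (fun y : E n => F (proj y))) (c s) :=
    (hF.contDiffOn_fderiv.contDiffAt (isOpen_ne.mem_nhds h0)).differentiableAt (by simp)
  have h2 := h1.hasFDerivAt.comp_hasDerivAt s hc
  have h3 := h2.clm_apply hc1
  refine h3.congr_deriv ?_
  rw [hF.D2_eq h0]
  rfl

/-- The radial derivative vanishes. -/
theorem IsSmooth.D_self {F : S n → V} (hF : IsSmooth F) {y : E n} (hy : y ≠ 0) : D F y y = 0 := by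
  have hc : HasDerivAt (fun s : ℝ => (1 + s) • y) y 0 := by
    have := ((hasDerivAt_id (0 : ℝ)).const_add 1).smul_const y
    simpa using this
  have h1 := hF.hasDerivAt_curve (c := fun s : ℝ => (1 + s) • y) hc (by simpa using hy)
  have h2 : HasDerivAt (fun s : ℝ => F (proj ((1 + s) • y))) 0 0 := by
    have h3 : HasDerivAt (fun _ : ℝ => F (proj y)) 0 0 := hasDerivAt_const _ _
    refine h3.congr_of_eventuallyEq ?_
    filter_upwards [Ioi_mem_nhds (show (-1 : ℝ) < 0 by norm_num)] with s hs
    have hs' : (-1 : ℝ) < s := hs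
    rw [proj_smul hy (by linarith)]
  have h4 := h1.unique h2
  simpa using h4

/-- The induced metric as a bilinear form. -/
noncomputable def gform (F : S n → V) (x : S n) : LinearMap.BilinForm ℝ (E n) :=
  LinearMap.mk₂ ℝ (fun u v => inner ℝ (D F x u) (D F x v))
    (fun u v w => by rw [D_add, inner_add_left])
    (fun c u v => by rw [D_smul, real_inner_smul_left, smul_eq_mul])
    (fun u v w => by rw [D_add, inner_add_right])
    (fun c u v => by rw [D_smul, real_inner_smul_right, smul_eq_mul])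

theorem exists_frame {F : S n → V} (hi : IsImmersion F) (x : S n) : ∃ e, IsFrame F x e := by
  let W := (Submodule.span ℝ {(x : E n)})ᗮ
  have hW : Module.finrank ℝ W = n := by
    have : Fact (Module.finrank ℝ (E n) = n + 1) := ⟨by simp⟩
    exact Submodule.finrank_orthogonal_span_singleton (coe_ne_zero x)
  let B : LinearMap.BilinForm ℝ W := (gform F x).restrict W
  have hB : ∀ u v : W, B u v = inner ℝ (D F x u) (D F x v) := fun u v => rfl
  have hsymm : LinearMap.IsSymm B := ⟨fun u v => by
    rw [hB, hB, real_inner_comm]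
    rfl⟩
  obtain ⟨v, hv⟩ := LinearMap.BilinForm.exists_orthogonal_basis hsymm
  have hperp : ∀ w : W, inner ℝ (x : E n) (w : E n) = 0 := fun w =>
    Submodule.mem_orthogonal_singleton_iff_inner_right.1 w.2
  have hpos : ∀ i, 0 < B (v i) (v i) := by
    intro i
    rw [hB, real_inner_self_eq_norm_sq]
    have : D F x (v i : E n) ≠ 0 := by
      intro h
      have h3 := hi x _ (hperp _) h
      exact v.ne_zero i (Subtype.ext h3)
    positivity
  have hvo : ∀ i j, i ≠ j → B (v i) (v j) = 0 := fun i j hij => hv hij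
  refine ⟨fun i => (√(B (v (Fin.cast hW.symm i)) (v (Fin.cast hW.symm i))))⁻¹ •
    (v (Fin.cast hW.symm i) : E n), fun i => ?_, ?_⟩
  · rw [inner_smul_right, hperp, mul_zero]
  · rw [orthonormal_iff_ite]
    intro i j
    rw [D_smul, D_smul, real_inner_smul_left, real_inner_smul_right, ← hB]
    split_ifs with hij
    · subst hij
      have h1 := hpos (Fin.cast hW.symm i)
      have h2 : √(B (v (Fin.cast hW.symm i)) (v (Fin.cast hW.symm i))) ≠ 0 :=
        (Real.sqrt_pos.2 h1).ne'
      field_simp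
      rw [Real.sq_sqrt h1.le]
    · rw [hvo (Fin.cast hW.symm i) (Fin.cast hW.symm j)
        (fun h => hij (Fin.cast_injective hW.symm h))]
      simp

/-! ### Homogeneity -/

variable {F : S n → V}

theorem D_scale (hF : IsSmooth F) {y : E n} (hy : y ≠ 0) {c : ℝ} (hc : 0 < c) (v : E n) :
    D F y v = c • D F (c • y) v := by
  have hcy : c • y ≠ 0 := smul_ne_zero hc.ne' hy
  have h1 := hF.hasFDerivAt hcy
  have h0 : HasFDerivAt (fun y : E n => c • y) (c • ContinuousLinearMap.id ℝ (E n)) y :=
    (hasFDerivAt_id y).const_smul c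
  have h2 : HasFDerivAt (fun y : E n => F (proj (c • y)))
      ((fderiv ℝ (fun y : E n => F (proj y)) (c • y)).comp
        (c • ContinuousLinearMap.id ℝ (E n))) y :=
    HasFDerivAt.comp (g := fun y : E n => F (proj y)) y h1 h0
  have h4 : (fun y : E n => F (proj y)) =ᶠ[nhds y] fun y : E n => F (proj (c • y)) := by
    filter_upwards [isOpen_ne.mem_nhds hy] with z hz
    rw [proj_smul hz hc]
  rw [D, h4.fderiv_eq, h2.fderiv]
  simp [D]

theorem D2_scale (hF : IsSmooth F) {y : E n} (hy : y ≠ 0) {c : ℝ} (hc : 0 < c) (u v : E n) :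
    D2 F y u v = (c * c) • D2 F (c • y) u v := by
  have hcy : c • y ≠ 0 := smul_ne_zero hc.ne' hy
  have hd : ContDiffAt ℝ ∞ (fun y : E n => D F y v) (c • y) :=
    (hF.contDiffOn_D v).contDiffAt (isOpen_ne.mem_nhds hcy)
  have h1 := (hd.differentiableAt (by simp)).hasFDerivAt
  have h0 : HasFDerivAt (fun y : E n => c • y) (c • ContinuousLinearMap.id ℝ (E n)) y :=
    (hasFDerivAt_id y).const_smul c
  have h2 : HasFDerivAt (fun y : E n => D F (c • y) v)
      ((fderiv ℝ (fun y : E n => D F y v) (c • y)).comp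
        (c • ContinuousLinearMap.id ℝ (E n))) y :=
    HasFDerivAt.comp (g := fun y : E n => D F y v) y h1 h0
  have h3 := h2.const_smul c
  have h4 : (fun y : E n => D F y v) =ᶠ[nhds y] fun y : E n => c • D F (c • y) v := by
    filter_upwards [isOpen_ne.mem_nhds hy] with z hz
    exact D_scale hF hz hc v
  have h5 : HasFDerivAt (fun y : E n => c • D F (c • y) v)
      (c • ((fderiv ℝ (fun y : E n => D F y v) (c • y)).comp
        (c • ContinuousLinearMap.id ℝ (E n)))) y :=
    h3
  rw [D2, h4.fderiv_eq, h5.fderiv]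
  simp [D2, smul_smul]

theorem D_hom (hF : IsSmooth F) {y : E n} (hy : y ≠ 0) (v : E n) :
    D F y v = ‖y‖⁻¹ • D F (proj y : E n) v := by
  rw [coe_proj hy]
  exact D_scale hF hy (inv_pos.2 (norm_pos_iff.2 hy)) v

theorem D2_hom (hF : IsSmooth F) {y : E n} (hy : y ≠ 0) (u v : E n) :
    D2 F y u v = (‖y‖⁻¹ * ‖y‖⁻¹) • D2 F (proj y : E n) u v := by
  rw [coe_proj hy]
  exact D2_scale hF hy (inv_pos.2 (norm_pos_iff.2 hy)) u v

theorem D2_self_right (hF : IsSmooth F) {y : E n} (hy : y ≠ 0) (v : E n) :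
    D2 F y v y = -D F y v := by
  have hc : HasDerivAt (fun s : ℝ => y + s • v) v 0 := hasDerivAt_line y v 0
  have h1 := hF.hasDerivAt_curve2 hc hc (by simpa using hy)
  have h2 : (fun s : ℝ => D F (y + s • v) (y + s • v)) =ᶠ[nhds 0] fun _ => (0 : V) := by
    have hcont : ContinuousAt (fun s : ℝ => y + s • v) 0 := hc.continuousAt
    have hne : ∀ᶠ s in nhds (0 : ℝ), y + s • v ≠ 0 :=
      hcont.eventually_ne (by simpa using hy)
    filter_upwards [hne] with s hs
    exact hF.D_self hs
  have h3 := (h1.congr_of_eventuallyEq h2.symm).unique (hasDerivAt_const (0 : ℝ) (0 : V))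
  simp only [zero_smul, add_zero] at h3
  exact eq_neg_of_add_eq_zero_left h3

theorem D2_self_left (hF : IsSmooth F) {y : E n} (hy : y ≠ 0) (v : E n) :
    D2 F y y v = -D F y v := by
  rw [hF.D2_symm hy, D2_self_right hF hy]

theorem inner_D_self (hF : IsSmooth F) (hn : ∀ x, ‖F x‖ = 1) {y : E n} (hy : y ≠ 0) (u : E n) :
    inner ℝ (D F y u) (F (proj y)) = 0 := by
  have h1 := (hF.hasDerivAt (y := y) u 0 (by simpa using hy)).norm_sq
  simp only [hn, one_pow, zero_smul, add_zero] at h1
  have h2 := h1.unique (hasDerivAt_const (0 : ℝ) (1 : ℝ))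
  rw [real_inner_comm]
  linarith

theorem inner_D2_self (hF : IsSmooth F) (hn : ∀ x, ‖F x‖ = 1) {x : S n} {u : E n}
    (hu : inner ℝ (x : E n) u = 0) :
    inner ℝ (D2 F x u u) (F x) = -‖D F x u‖ ^ 2 := by
  have h1 := (hF.hasDerivAt_D (y := (x : E n)) u u 0 (line_ne_zero x hu 0)).inner ℝ
    (hF.hasDerivAt (y := (x : E n)) u 0 (line_ne_zero x hu 0))
  have h2 : (fun s : ℝ => inner ℝ (D F ((x : E n) + s • u) u) (F (proj ((x : E n) + s • u)))) =
      fun _ => (0 : ℝ) := by
    funext s
    exact inner_D_self hF hn (line_ne_zero x hu s) u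
  rw [h2] at h1
  have h3 := h1.unique (hasDerivAt_const (0 : ℝ) (0 : ℝ))
  simp only [zero_smul, add_zero, proj_coe, real_inner_self_eq_norm_sq] at h3
  linarith

/-! ### Frames -/

theorem IsFrame.inner_eq {x : S n} {e : Fin n → E n} (he : IsFrame F x e) (i j : Fin n) :
    inner ℝ (D F x (e i)) (D F x (e j)) = if i = j then (1 : ℝ) else 0 := by
  have := he.2
  rw [orthonormal_iff_ite] at this
  exact this i j

/-- Every vector is a combination of the position and the frame. -/
theorem frame_expand (hF : IsSmooth F) {x : S n} {e : Fin n → E n} (he : IsFrame F x e)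
    (v : E n) : ∃ c : ℝ, ∃ p : Fin n → ℝ, v = c • (x : E n) + ∑ i, p i • e i := by
  let b : Fin (n + 1) → E n := Fin.cons (x : E n) e
  have hli : LinearIndependent ℝ b := by
    rw [Fintype.linearIndependent_iff]
    intro g hg
    rw [Fin.sum_univ_succ] at hg
    simp only [b, Fin.cons_zero, Fin.cons_succ] at hg
    have h0 : g 0 = 0 := by
      have := congrArg (fun w => inner ℝ (x : E n) w) hg
      simp only [inner_add_right, real_inner_smul_right, inner_sum, he.1, inner_zero_right,
        real_inner_self_eq_norm_sq] at this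
      simpa using this
    rw [h0, zero_smul, zero_add] at hg
    have h1 : ∑ i : Fin n, g i.succ • D F x (e i) = 0 := by
      have := congrArg (fun w => D F x w) hg
      simp only [D_sum, D_smul, D_zero] at this
      exact this
    intro i
    refine Fin.cases h0 (fun j => ?_) i
    have h2 := congrArg (fun w => inner ℝ (D F x (e j)) w) h1
    simp only [inner_sum, real_inner_smul_right, he.inner_eq, inner_zero_right] at h2
    simpa using h2
  have hcard : Fintype.card (Fin (n + 1)) = Module.finrank ℝ (E n) := by simp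
  let bb := basisOfLinearIndependentOfCardEqFinrank hli hcard
  have hb := bb.sum_repr v
  rw [Fin.sum_univ_succ] at hb
  refine ⟨bb.repr v 0, fun i => bb.repr v i.succ, ?_⟩
  have hbi : ∀ i, bb i = b i := fun i => by
    simp [bb]
  rw [hbi] at hb
  simp only [hbi, b, Fin.cons_zero, Fin.cons_succ] at hb
  exact hb.symm

/-- The differential of a vector in terms of a frame. -/
theorem D_frame (hF : IsSmooth F) {x : S n} {e : Fin n → E n} (he : IsFrame F x e) (v : E n) :
    D F x v = ∑ i, inner ℝ (D F x v) (D F x (e i)) • D F x (e i) := by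
  obtain ⟨c, p, hv⟩ := frame_expand hF he v
  have h1 : D F x v = ∑ i, p i • D F x (e i) := by
    rw [hv, D_add, D_smul, hF.D_self (coe_ne_zero x), smul_zero, zero_add, D_sum]
    simp only [D_smul]
  have h2 : ∀ i, inner ℝ (D F x v) (D F x (e i)) = p i := by
    intro i
    rw [h1, sum_inner]
    simp only [real_inner_smul_left, he.inner_eq]
    simp
  simp only [h2]
  exact h1

theorem inner_meanCurv (hF : IsSmooth F) (hn : ∀ x, ‖F x‖ = 1) {x : S n} {e : Fin n → E n}
    (he : IsFrame F x e) {v : V} (hv : ∀ i, inner ℝ v (D F x (e i)) = 0) :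
    inner ℝ v (meanCurv F x e) =
      ∑ i, inner ℝ v (D2 F x (e i) (e i)) + n * inner ℝ v (F x) := by
  have h0 : ∀ i, inner ℝ (D2 F x (e i) (e i)) (F x) = -(1 : ℝ) := by
    intro i
    rw [inner_D2_self hF hn (he.1 i), he.2.1 i]
    norm_num
  simp only [meanCurv, sff, nor, inner_sum, inner_sub_right, real_inner_smul_right, hv, h0]
  simp [Finset.sum_add_distrib]

end Pool.Agent.TH616.MCF
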