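import Mathlib
import Pool.Agent.TH616.MCalc

/-! Maps which are `C¹`-close to an embedding are injective. -/

set_option linter.unusedSectionVars false

open Set Metric Filter Topology
open scoped ContDiff

namespace Pool.Agent.TH616.MCF

variable {n : ℕ} {V : Type*} [NormedAddCommGroup V] [InnerProductSpace ℝ V]

theorem IsSmooth.continuous {G : S n → V} (hG : IsSmooth G) : Continuous G := by
  have h1 : ContinuousOn (fun y : E n => G (proj y)) {0}ᶜ := hG.continuousOn
  have h2 : Continuous (fun x : S n => G (proj (x : E n))) :=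
    h1.comp_continuous continuous_subtype_val (fun x => coe_ne_zero x)
  simpa only [proj_coe] using h2

theorem ball_ne {x : S n} {z : E n} (hz : z ∈ closedBall (x : E n) (1 / 2)) : 1 / 2 ≤ ‖z‖ := by
  rw [mem_closedBall, dist_eq_norm] at hz
  have h1 : ‖(x : E n)‖ = 1 := by simp
  have h2 : ‖(x : E n)‖ ≤ ‖z‖ + ‖z - (x : E n)‖ := by
    have : (x : E n) = z - (z - (x : E n)) := by abel
    calc ‖(x : E n)‖ = ‖z - (z - (x : E n))‖ := by rw [← this]
      _ ≤ _ := norm_sub_le _ _
  linarith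

/-- The derivative of the difference of two maps at points off the sphere. -/
theorem D_close {G G' : S n → V} (hG : IsSmooth G) (hG' : IsSmooth G') {ε : ℝ} (hε : 0 ≤ ε)
    (h1 : ∀ (z : S n) (u : E n), inner ℝ (z : E n) u = 0 → ‖u‖ = 1 →
      ‖D G z u - D G' z u‖ < ε) {z : E n} (hz : 1 / 2 ≤ ‖z‖) (u : E n) :
    ‖D G z u - D G' z u‖ ≤ 2 * ε * ‖u‖ := by
  have hz0 : z ≠ 0 := by
    intro h
    rw [h, norm_zero] at hz
    norm_num at hz
  set a : S n := proj z with ha
  set u' : E n := u - inner ℝ (a : E n) u • (a : E n) with hu'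
  have ha1 : ‖(a : E n)‖ = 1 := by simp
  have hperp : inner ℝ (a : E n) u' = 0 := by
    rw [hu', inner_sub_right, real_inner_smul_right, real_inner_self_eq_norm_sq, ha1]
    ring
  have hnorm : ‖u'‖ ≤ ‖u‖ := by
    have e1 : ‖u‖ ^ 2 = ‖u'‖ ^ 2 + (inner ℝ (a : E n) u) ^ 2 := by
      have e2 : u = u' + inner ℝ (a : E n) u • (a : E n) := by rw [hu']; abel
      have e3 : inner ℝ u' (inner ℝ (a : E n) u • (a : E n)) = (0 : ℝ) := by
        rw [real_inner_smul_right, real_inner_comm (a : E n) u', hperp, mul_zero]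
      conv_lhs => rw [e2]
      rw [norm_add_sq_real, e3, norm_smul, ha1, mul_one, Real.norm_eq_abs, sq_abs]
      ring
    nlinarith [sq_nonneg (inner ℝ (a : E n) u : ℝ), norm_nonneg u, norm_nonneg u']
  have hDu : ∀ {K : S n → V}, IsSmooth K → D K (a : E n) u = D K (a : E n) u' := by
    intro K hK
    rw [hu', D_sub, D_smul, hK.D_self (coe_ne_zero a), smul_zero, sub_zero]
  have hmain : ‖D G (a : E n) u' - D G' (a : E n) u'‖ ≤ ε * ‖u'‖ := by
    rcases eq_or_ne u' 0 with h0 | h0
    · rw [h0, D_zero, D_zero, sub_zero, norm_zero, norm_zero, mul_zero]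
    · have hn : 0 < ‖u'‖ := norm_pos_iff.2 h0
      have h2 := h1 a (‖u'‖⁻¹ • u') (by rw [real_inner_smul_right, hperp, mul_zero])
        (by rw [norm_smul, norm_inv, norm_norm, inv_mul_cancel₀ hn.ne'])
      rw [D_smul, D_smul, ← smul_sub, norm_smul, norm_inv, norm_norm, inv_mul_eq_div,
        div_lt_iff₀ hn] at h2
      exact h2.le
  rw [D_hom hG hz0, D_hom hG' hz0, ← ha, hDu hG, hDu hG', ← smul_sub, norm_smul, norm_inv,
    norm_norm]
  have hzi : ‖z‖⁻¹ ≤ 2 := by
    rw [inv_le_comm₀ (by linarith) (by norm_num)]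
    linarith
  calc ‖z‖⁻¹ * ‖D G (a : E n) u' - D G' (a : E n) u'‖ ≤ 2 * (ε * ‖u'‖) :=
        mul_le_mul hzi hmain (norm_nonneg _) (by norm_num)
    _ ≤ 2 * (ε * ‖u‖) := by
        have := mul_le_mul_of_nonneg_left hnorm hε
        linarith
    _ = 2 * ε * ‖u‖ := by ring

/-- The difference of two `C¹`-close maps has a small Lipschitz constant. -/
theorem lip_close {G G' : S n → V} (hG : IsSmooth G) (hG' : IsSmooth G') {ε : ℝ} (hε : 0 ≤ ε)
    (h1 : ∀ (z : S n) (u : E n), inner ℝ (z : E n) u = 0 → ‖u‖ = 1 →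
      ‖D G z u - D G' z u‖ < ε) {x y : S n} (hxy : ‖(y : E n) - (x : E n)‖ ≤ 1 / 2) :
    ‖(G y - G' y) - (G x - G' x)‖ ≤ 2 * ε * ‖(y : E n) - (x : E n)‖ := by
  have hd : ∀ z ∈ closedBall (x : E n) (1 / 2),
      HasFDerivWithinAt (fun z : E n => G (proj z) - G' (proj z))
        (fderiv ℝ (fun z : E n => G (proj z)) z - fderiv ℝ (fun z : E n => G' (proj z)) z)
        (closedBall (x : E n) (1 / 2)) z := by
    intro z hz
    have hz2 := ball_ne hz
    have hz0 : z ≠ 0 := by
      intro h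
      rw [h, norm_zero] at hz2
      norm_num at hz2
    exact ((hG.hasFDerivAt hz0).sub (hG'.hasFDerivAt hz0)).hasFDerivWithinAt
  have hb : ∀ z ∈ closedBall (x : E n) (1 / 2),
      ‖fderiv ℝ (fun z : E n => G (proj z)) z - fderiv ℝ (fun z : E n => G' (proj z)) z‖ ≤
        2 * ε := by
    intro z hz
    refine ContinuousLinearMap.opNorm_le_bound _ (by positivity) fun u => ?_
    exact D_close hG hG' hε h1 (ball_ne hz) u
  have h2 := (convex_closedBall (x : E n) (1 / 2)).norm_image_sub_le_of_norm_hasFDerivWithin_le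
    hd hb (mem_closedBall_self (by norm_num)) (y := (y : E n))
    (by rw [mem_closedBall, dist_eq_norm]; exact hxy)
  simpa only [proj_coe] using h2

theorem injective_of_tendsC1 {T : EReal} {G : ℝ → S n → V} {G' : S n → V}
    (hG : ∀ t ∈ Time T, IsSmooth (G t)) (hG' : IsSmooth G') (himm : IsImmersion G')
    (hinj : Function.Injective G') (ht : TendsC1 T G G') :
    ∃ t₀ ∈ Time T, ∀ t ∈ Time T, t₀ ≤ t → Function.Injective (G t) := by
  by_contra hcon
  push Not at hcon
  have key : ∀ k : ℕ, ∃ (t : ℝ) (x y : S n), t ∈ Time T ∧ x ≠ y ∧ G t x = G t y ∧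
      (∀ z, ‖G t z - G' z‖ < 1 / ((k : ℝ) + 1)) ∧
      (∀ (z : S n) (u : E n), inner ℝ (z : E n) u = 0 → ‖u‖ = 1 →
        ‖D (G t) z u - D G' z u‖ < 1 / ((k : ℝ) + 1)) := by
    intro k
    obtain ⟨t₀, ht₀, h1⟩ := ht (1 / ((k : ℝ) + 1)) (by positivity)
    obtain ⟨t, ht1, ht2, ht3⟩ := hcon t₀ ht₀
    simp only [Function.Injective] at ht3
    push Not at ht3
    obtain ⟨x, y, hxy, hne⟩ := ht3
    exact ⟨t, x, y, ht1, hne, hxy, fun z => (h1 t ht1 ht2 z).1, fun z => (h1 t ht1 ht2 z).2⟩
  choose t x y htT hne heq h0 h1 using key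
  have hne' : ∀ k, (y k : E n) - (x k : E n) ≠ 0 := by
    intro k h
    exact hne k (Subtype.ext (sub_eq_zero.1 h).symm)
  have hpos : ∀ k, 0 < ‖(y k : E n) - (x k : E n)‖ := fun k => norm_pos_iff.2 (hne' k)
  let u : ℕ → S n := fun k => ⟨‖(y k : E n) - (x k : E n)‖⁻¹ • ((y k : E n) - (x k : E n)), by
    simp [norm_smul, (hpos k).ne']⟩
  obtain ⟨⟨a, b, w⟩, φ, hφ, hlim⟩ := CompactSpace.tendsto_subseq (fun k => (x k, y k, u k))
  have hx : Tendsto (fun k => x (φ k)) atTop (𝓝 a) := (continuous_fst.tendsto _).comp hlim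
  have hy : Tendsto (fun k => y (φ k)) atTop (𝓝 b) :=
    ((continuous_fst.comp continuous_snd).tendsto _).comp hlim
  have hu : Tendsto (fun k => u (φ k)) atTop (𝓝 w) :=
    ((continuous_snd.comp continuous_snd).tendsto _).comp hlim
  have hε : Tendsto (fun k => 1 / ((φ k : ℝ) + 1)) atTop (𝓝 0) :=
    tendsto_one_div_add_atTop_nhds_zero_nat.comp hφ.tendsto_atTop
  have hc := hG'.continuous
  have hab : a = b := by
    apply hinj
    have e1 : Tendsto (fun k => G' (x (φ k)) - G' (y (φ k))) atTop (𝓝 (G' a - G' b)) :=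
      ((hc.tendsto a).comp hx).sub ((hc.tendsto b).comp hy)
    have e2 : Tendsto (fun k => G' (x (φ k)) - G' (y (φ k))) atTop (𝓝 0) := by
      have e3 : Tendsto (fun k => 2 * (1 / ((φ k : ℝ) + 1))) atTop (𝓝 0) := by
        simpa using hε.const_mul 2
      refine squeeze_zero_norm (fun k => ?_) e3
      have e4 : G' (x (φ k)) - G' (y (φ k)) =
          (G (t (φ k)) (y (φ k)) - G' (y (φ k))) - (G (t (φ k)) (x (φ k)) - G' (x (φ k))) := by
        rw [heq]
        abel
      rw [e4]
      have e5 := h0 (φ k) (y (φ k))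
      have e6 := h0 (φ k) (x (φ k))
      have e7 := norm_sub_le (G (t (φ k)) (y (φ k)) - G' (y (φ k)))
        (G (t (φ k)) (x (φ k)) - G' (x (φ k)))
      linarith
    exact sub_eq_zero.1 (tendsto_nhds_unique e1 e2)
  subst hab
  -- the limit direction is tangent
  have hxE : Tendsto (fun k => (x (φ k) : E n)) atTop (𝓝 (a : E n)) :=
    (continuous_subtype_val.tendsto a).comp hx
  have hyE : Tendsto (fun k => (y (φ k) : E n)) atTop (𝓝 (a : E n)) :=
    (continuous_subtype_val.tendsto a).comp hy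
  have huE : Tendsto (fun k => (u (φ k) : E n)) atTop (𝓝 (w : E n)) :=
    (continuous_subtype_val.tendsto w).comp hu
  have hw : inner ℝ (a : E n) (w : E n) = 0 := by
    have e1 : Tendsto (fun k => inner ℝ ((x (φ k) : E n) + (y (φ k) : E n)) (u (φ k) : E n))
        atTop (𝓝 (inner ℝ ((a : E n) + (a : E n)) (w : E n))) :=
      Tendsto.inner (hxE.add hyE) huE
    have e2 : ∀ k, inner ℝ ((x (φ k) : E n) + (y (φ k) : E n)) (u (φ k) : E n) = (0 : ℝ) := by
      intro k
      show inner ℝ ((x (φ k) : E n) + (y (φ k) : E n))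
        (‖(y (φ k) : E n) - (x (φ k) : E n)‖⁻¹ • ((y (φ k) : E n) - (x (φ k) : E n))) = (0 : ℝ)
      rw [real_inner_smul_right, inner_add_left, inner_sub_right, inner_sub_right,
        real_inner_self_eq_norm_sq, real_inner_self_eq_norm_sq,
        real_inner_comm (y (φ k) : E n) (x (φ k) : E n)]
      simp
    simp only [e2] at e1
    have e3 := tendsto_nhds_unique e1 tendsto_const_nhds
    rw [inner_add_left] at e3
    linarith
  -- the strict derivative at the limit
  have hstrict : HasStrictFDerivAt (fun z : E n => G' (proj z))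
      (fderiv ℝ (fun z : E n => G' (proj z)) (a : E n)) (a : E n) := by
    have h2 : ContDiffAt ℝ ∞ (fun z : E n => G' (proj z)) (a : E n) :=
      ContDiffOn.contDiffAt hG' (isOpen_ne.mem_nhds (coe_ne_zero a))
    exact h2.hasStrictFDerivAt (by simp)
  have hzero : D G' (a : E n) (w : E n) = 0 := by
    have hle : ∀ c : ℝ, 0 < c → ‖D G' (a : E n) (w : E n)‖ ≤ 3 * c := by
      intro c hc0
      have hpair : Tendsto (fun k => ((y (φ k) : E n), (x (φ k) : E n))) atTop
          (𝓝 ((a : E n), (a : E n))) := hyE.prodMk_nhds hxE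
      have e1 := hpair.eventually (hstrict.isLittleO.def hc0)
      have e2 : ∀ᶠ k in atTop, 1 / ((φ k : ℝ) + 1) < c := hε.eventually_lt_const hc0
      have e3 : ∀ᶠ k in atTop, ‖(y (φ k) : E n) - (x (φ k) : E n)‖ < 1 / 2 := by
        have e4 : Tendsto (fun k => ‖(y (φ k) : E n) - (x (φ k) : E n)‖) atTop (𝓝 0) := by
          have := (hyE.sub hxE).norm
          simpa using this
        exact e4.eventually_lt_const (by norm_num)
      have e4 : Tendsto (fun k => ‖D G' (a : E n) (u (φ k) : E n)‖) atTop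
          (𝓝 ‖D G' (a : E n) (w : E n)‖) :=
        (((fderiv ℝ (fun z : E n => G' (proj z)) (a : E n)).continuous.tendsto _).comp huE).norm
      refine le_of_tendsto e4 ?_
      filter_upwards [e1, e2, e3] with k k1 k2 k3
      simp only [proj_coe] at k1
      have k4 := lip_close (hG _ (htT (φ k))) hG' (by positivity) (h1 (φ k)) k3.le
      rw [← heq] at k4
      have k5 : (G (t (φ k)) (x (φ k)) - G' (y (φ k))) - (G (t (φ k)) (x (φ k)) - G' (x (φ k))) =
          -(G' (y (φ k)) - G' (x (φ k))) := by abel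
      rw [k5, norm_neg] at k4
      have k6 : ‖D G' (a : E n) ((y (φ k) : E n) - (x (φ k) : E n))‖ ≤
          3 * c * ‖(y (φ k) : E n) - (x (φ k) : E n)‖ := by
        have k7 : D G' (a : E n) ((y (φ k) : E n) - (x (φ k) : E n)) =
            (G' (y (φ k)) - G' (x (φ k))) - (G' (y (φ k)) - G' (x (φ k)) -
              D G' (a : E n) ((y (φ k) : E n) - (x (φ k) : E n))) := by abel
        rw [k7]
        refine (norm_sub_le _ _).trans ?_
        have k8 : ‖G' (y (φ k)) - G' (x (φ k)) -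
            D G' (a : E n) ((y (φ k) : E n) - (x (φ k) : E n))‖ ≤
            c * ‖(y (φ k) : E n) - (x (φ k) : E n)‖ := k1
        have k9 := mul_le_mul_of_nonneg_right k2.le (norm_nonneg ((y (φ k) : E n) -
          (x (φ k) : E n)))
        nlinarith
      show ‖D G' (a : E n) (‖(y (φ k) : E n) - (x (φ k) : E n)‖⁻¹ •
        ((y (φ k) : E n) - (x (φ k) : E n)))‖ ≤ 3 * c
      rw [D_smul, norm_smul, norm_inv, norm_norm, inv_mul_eq_div, div_le_iff₀ (hpos _)]
      exact k6
    have h2 : ‖D G' (a : E n) (w : E n)‖ = 0 := by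
      by_contra hne2
      have h3 : 0 < ‖D G' (a : E n) (w : E n)‖ := lt_of_le_of_ne (norm_nonneg _) (Ne.symm hne2)
      have := hle (‖D G' (a : E n) (w : E n)‖ / 6) (by positivity)
      linarith
    exact norm_eq_zero.1 h2
  have h5 := himm a (w : E n) hw hzero
  exact coe_ne_zero w h5

end Pool.Agent.TH616.MCF
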