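import Mathlib
import Pool.Agent.TH616.MCalc

/-! The Whitney sphere in `S⁶`. -/

set_option linter.unusedSectionVars false

open Set Metric Filter Topology
open scoped ContDiff

namespace Pool.Agent.TH616.MCF

/-- The Euclidean space `ℝ⁷`. -/
abbrev V7 := EuclideanSpace ℝ (Fin 7)

/-- The first embedding of `ℝ³`, as a linear map of `ℝ⁴`. -/
noncomputable def AL : E 3 →ₗ[ℝ] V7 where
  toFun y := !₂[y 0, y 1, y 2, 0, 0, 0, 0]
  map_add' x y := by
    ext i
    fin_cases i <;> simp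
  map_smul' c x := by
    ext i
    fin_cases i <;> simp

/-- The second embedding of `ℝ³`. -/
noncomputable def BL : E 3 →ₗ[ℝ] V7 where
  toFun y := !₂[0, 0, 0, y 0, y 1, y 2, 0]
  map_add' x y := by
    ext i
    fin_cases i <;> simp
  map_smul' c x := by
    ext i
    fin_cases i <;> simp

noncomputable def A : E 3 →L[ℝ] V7 := LinearMap.toContinuousLinearMap AL
noncomputable def B : E 3 →L[ℝ] V7 := LinearMap.toContinuousLinearMap BL
/-- The last coordinate vector. -/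
noncomputable def k : V7 := !₂[0, 0, 0, 0, 0, 0, 1]

theorem A_apply (y : E 3) : A y = !₂[y 0, y 1, y 2, 0, 0, 0, 0] := rfl
theorem B_apply (y : E 3) : B y = !₂[0, 0, 0, y 0, y 1, y 2, 0] := rfl

theorem inner_seven (x y : V7) : inner ℝ x y = x 0 * y 0 + x 1 * y 1 + x 2 * y 2 + x 3 * y 3 +
    x 4 * y 4 + x 5 * y 5 + x 6 * y 6 := by
  rw [PiLp.inner_apply, Fin.sum_univ_seven]
  simp
  ring

theorem inner_four (x y : E 3) : inner ℝ x y = x 0 * y 0 + x 1 * y 1 + x 2 * y 2 + x 3 * y 3 := by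
  rw [PiLp.inner_apply, Fin.sum_univ_four]
  simp
  ring

theorem AA_in (u v : E 3) : inner ℝ (A u) (A v) = inner ℝ u v - u 3 * v 3 := by
  rw [A_apply, A_apply, inner_seven, inner_four]
  simp

theorem BB_in (u v : E 3) : inner ℝ (B u) (B v) = inner ℝ u v - u 3 * v 3 := by
  rw [B_apply, B_apply, inner_seven, inner_four]
  simp

theorem AB_in (u v : E 3) : inner ℝ (A u) (B v) = (0 : ℝ) := by
  rw [A_apply, B_apply, inner_seven]
  simp

theorem BA_in (u v : E 3) : inner ℝ (B u) (A v) = (0 : ℝ) := by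
  rw [A_apply, B_apply, inner_seven]
  simp

theorem Ak_in (u : E 3) : inner ℝ (A u) k = (0 : ℝ) := by
  rw [A_apply, k, inner_seven]
  simp

theorem kA_in (u : E 3) : inner ℝ k (A u) = (0 : ℝ) := by
  rw [A_apply, k, inner_seven]
  simp

theorem Bk_in (u : E 3) : inner ℝ (B u) k = (0 : ℝ) := by
  rw [B_apply, k, inner_seven]
  simp

theorem kB_in (u : E 3) : inner ℝ k (B u) = (0 : ℝ) := by
  rw [B_apply, k, inner_seven]
  simp

theorem kk_in : inner ℝ k k = (1 : ℝ) := by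
  rw [k, inner_seven]
  simp

/-- The Whitney sphere in `S⁶`. -/
noncomputable def W0 (x : S 3) : V7 := (5 + 4 * (x : E 3) 3 ^ 2)⁻¹ •
  !₂[3 * (x : E 3) 0, 3 * (x : E 3) 1, 3 * (x : E 3) 2,
    3 * (x : E 3) 3 * (x : E 3) 0, 3 * (x : E 3) 3 * (x : E 3) 1, 3 * (x : E 3) 3 * (x : E 3) 2,
    4 + 5 * (x : E 3) 3 ^ 2]

theorem W0_eq (x : S 3) : W0 x = (5 + 4 * (x : E 3) 3 ^ 2)⁻¹ •
    ((3 : ℝ) • A x + (3 * (x : E 3) 3) • B x + (4 + 5 * (x : E 3) 3 ^ 2) • k) := by
  rw [W0, A_apply, B_apply, k]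
  congr 1
  ext i
  fin_cases i <;> simp

/-- The denominator of the homogeneous extension. -/
noncomputable def Qf (y : E 3) : ℝ := 5 * ‖y‖ ^ 2 + 4 * y 3 ^ 2

/-- The numerator of the homogeneous extension. -/
noncomputable def Pf (y : E 3) : V7 :=
  (3 * ‖y‖) • A y + (3 * y 3) • B y + (4 * ‖y‖ ^ 2 + 5 * y 3 ^ 2) • k

theorem Qf_pos {y : E 3} (hy : y ≠ 0) : 0 < Qf y := by
  have : 0 < ‖y‖ := norm_pos_iff.2 hy
  unfold Qf
  positivity

theorem W0_ext {y : E 3} (hy : y ≠ 0) : W0 (proj y) = (Qf y)⁻¹ • Pf y := by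
  have hn : ‖y‖ ≠ 0 := norm_ne_zero_iff.2 hy
  have hQ : Qf y ≠ 0 := (Qf_pos hy).ne'
  rw [W0_eq, coe_proj hy, Pf]
  simp only [map_smul, smul_add, smul_smul, PiLp.smul_apply, smul_eq_mul]
  have e1 : (5 + 4 * (‖y‖⁻¹ * y 3) ^ 2)⁻¹ = ‖y‖ ^ 2 * (Qf y)⁻¹ := by
    have h1 : 5 + 4 * (‖y‖⁻¹ * y 3) ^ 2 = (‖y‖ ^ 2)⁻¹ * Qf y := by
      unfold Qf
      field_simp
    rw [h1, mul_inv, inv_inv]
  rw [e1]
  match_scalars <;> field_simp

theorem Qf_smul_W0 {y : E 3} (hy : y ≠ 0) : Qf y • W0 (proj y) = Pf y := by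
  rw [W0_ext hy, smul_smul, mul_inv_cancel₀ (Qf_pos hy).ne', one_smul]

theorem W0_smooth : IsSmooth W0 := by
  have h1 : ContDiffOn ℝ ∞ (fun y : E 3 => (Qf y)⁻¹ • Pf y) {0}ᶜ := by
    intro y hy
    have hy' : y ≠ 0 := hy
    apply ContDiffAt.contDiffWithinAt
    have hn : ContDiffAt ℝ ∞ (fun y : E 3 => ‖y‖) y := contDiffAt_norm ℝ hy'
    have hc : ContDiffAt ℝ ∞ (fun y : E 3 => y 3) y := by fun_prop
    have hQ : ContDiffAt ℝ ∞ Qf y := by
      unfold Qf
      fun_prop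
    have hP : ContDiffAt ℝ ∞ Pf y := by
      unfold Pf
      exact (((contDiffAt_const.mul hn).smul A.contDiff.contDiffAt).add
        ((contDiffAt_const.mul hc).smul B.contDiff.contDiffAt)).add
        (((contDiffAt_const.mul (hn.pow 2)).add (contDiffAt_const.mul (hc.pow 2))).smul
          contDiffAt_const)
    exact (hQ.inv (Qf_pos hy').ne').smul hP
  exact h1.congr (fun y hy => W0_ext hy)

theorem sphere_sq (x : S 3) : (x : E 3) 0 ^ 2 + (x : E 3) 1 ^ 2 + (x : E 3) 2 ^ 2 +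
    (x : E 3) 3 ^ 2 = 1 := by
  have h : inner ℝ (x : E 3) (x : E 3) = (1 : ℝ) := by
    rw [real_inner_self_eq_norm_sq]
    simp
  rw [inner_four] at h
  linarith

theorem inner_self_x (x : S 3) : inner ℝ (x : E 3) (x : E 3) = (1 : ℝ) := by
  rw [real_inner_self_eq_norm_sq]
  simp

theorem W0_norm (x : S 3) : ‖W0 x‖ = 1 := by
  have h1 : inner ℝ (W0 x) (W0 x) = (1 : ℝ) := by
    have hQ : 5 + 4 * (x : E 3) 3 ^ 2 ≠ 0 := by positivity
    rw [W0_eq]
    simp only [inner_add_left, inner_add_right, real_inner_smul_left, real_inner_smul_right,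
      AA_in, BB_in, AB_in, BA_in, Ak_in, kA_in, Bk_in, kB_in, kk_in, inner_self_x]
    field_simp
    ring
  rw [real_inner_self_eq_norm_sq] at h1
  nlinarith [norm_nonneg (W0 x)]

/-! ### Derivatives -/

theorem hasDerivAt_norm_line {y : E 3} (u : E 3) {s : ℝ} (hy : y + s • u ≠ 0) :
    HasDerivAt (fun s : ℝ => ‖y + s • u‖) (inner ℝ (y + s • u) u / ‖y + s • u‖) s := by
  have h1 := (hasDerivAt_line y u s).norm_sq
  have h2 : ‖y + s • u‖ ^ 2 ≠ 0 := pow_ne_zero 2 (norm_ne_zero_iff.2 hy)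
  have h3 := h1.sqrt h2
  have h4 : (fun s : ℝ => √(‖y + s • u‖ ^ 2)) = fun s : ℝ => ‖y + s • u‖ := by
    funext s
    exact Real.sqrt_sq (norm_nonneg _)
  rw [h4] at h3
  refine h3.congr_deriv ?_
  rw [Real.sqrt_sq (norm_nonneg _)]
  have : ‖y + s • u‖ ≠ 0 := norm_ne_zero_iff.2 hy
  field_simp

theorem hasDerivAt_coord_line (y u : E 3) (i : Fin 4) (s : ℝ) :
    HasDerivAt (fun s : ℝ => (y + s • u) i) (u i) s := by
  exact (EuclideanSpace.proj (𝕜 := ℝ) i).hasFDerivAt.comp_hasDerivAt s (hasDerivAt_line y u s)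

/-- The derivative of `Qf`. -/
noncomputable def Q1 (y v : E 3) : ℝ := 10 * inner ℝ y v + 8 * (y 3 * v 3)

/-- The derivative of `Pf`. -/
noncomputable def P1 (y v : E 3) : V7 :=
  (3 * (inner ℝ y v / ‖y‖)) • A y + (3 * ‖y‖) • A v + ((3 * v 3) • B y + (3 * y 3) • B v) +
    (8 * inner ℝ y v + 10 * (y 3 * v 3)) • k

theorem hasDerivAt_Q (y v : E 3) (s : ℝ) :
    HasDerivAt (fun s : ℝ => Qf (y + s • v)) (Q1 (y + s • v) v) s := by
  have h1 := (hasDerivAt_line y v s).norm_sq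
  have h2 := (hasDerivAt_coord_line y v 3 s).pow 2
  have h3 := (h1.const_mul 5).add (h2.const_mul 4)
  refine h3.congr_deriv ?_
  rw [Q1]
  push_cast
  ring

theorem hasDerivAt_P {y v : E 3} {s : ℝ} (hy : y + s • v ≠ 0) :
    HasDerivAt (fun s : ℝ => Pf (y + s • v)) (P1 (y + s • v) v) s := by
  have h0 := hasDerivAt_norm_line v hy
  have h1 := (hasDerivAt_line y v s).norm_sq
  have h2 := hasDerivAt_coord_line y v 3 s
  have hA : HasDerivAt (fun s : ℝ => A (y + s • v)) (A v) s :=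
    A.hasFDerivAt.comp_hasDerivAt s (hasDerivAt_line y v s)
  have hB : HasDerivAt (fun s : ℝ => B (y + s • v)) (B v) s :=
    B.hasFDerivAt.comp_hasDerivAt s (hasDerivAt_line y v s)
  have h3 := (((h0.const_mul 3).smul hA).add ((h2.const_mul 3).smul hB)).add
    (((h1.const_mul 4).add ((h2.pow 2).const_mul 5)).smul_const k)
  refine h3.congr_deriv ?_
  rw [P1]
  push_cast
  module

theorem D_W0 {y : E 3} (hy : y ≠ 0) (v : E 3) :
    Qf y • D W0 y v + Q1 y v • W0 (proj y) = P1 y v := by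
  have h1 := (hasDerivAt_Q y v 0).smul (W0_smooth.hasDerivAt v 0 (by simpa using hy))
  have h2 := hasDerivAt_P (y := y) (v := v) (s := 0) (by simpa using hy)
  have h3 : (fun s : ℝ => Qf (y + s • v) • W0 (proj (y + s • v))) =ᶠ[𝓝 0]
      fun s : ℝ => Pf (y + s • v) := by
    have hne : ∀ᶠ s in 𝓝 (0 : ℝ), y + s • v ≠ 0 :=
      (hasDerivAt_line y v 0).continuousAt.eventually_ne (by simpa using hy)
    filter_upwards [hne] with s hs
    exact Qf_smul_W0 hs
  have h4 := h1.congr_of_eventuallyEq h3.symm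
  have h5 := h4.unique h2
  simpa using h5

/-- The second derivative of `Pf` in tangential directions. -/
noncomputable def P2 (x u v : E 3) : V7 :=
  (3 * inner ℝ u v) • A x + ((3 * v 3) • B u + (3 * u 3) • B v) +
    (8 * inner ℝ u v + 10 * (u 3 * v 3)) • k

theorem D2_W0 (x : S 3) {u v : E 3} (hu : inner ℝ (x : E 3) u = 0)
    (hv : inner ℝ (x : E 3) v = 0) :
    (Qf x • D2 W0 x u v + Q1 x u • D W0 x v) +
      (Q1 x v • D W0 x u + (10 * inner ℝ u v + 8 * (u 3 * v 3)) • W0 x) = P2 x u v := by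
  have hx := coe_ne_zero x
  have hxn : ‖(x : E 3)‖ = 1 := by simp
  have hx0 : (x : E 3) + (0 : ℝ) • u ≠ 0 := by simpa using hx
  -- the derivative of the inner product
  have hi : HasDerivAt (fun s : ℝ => inner ℝ ((x : E 3) + s • u) v) (inner ℝ u v) 0 := by
    have := (hasDerivAt_line (x : E 3) u 0).inner ℝ (hasDerivAt_const (0 : ℝ) v)
    simpa using this
  have hc := hasDerivAt_coord_line (x : E 3) u 3 0
  have hQ1 : HasDerivAt (fun s : ℝ => Q1 ((x : E 3) + s • u) v)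
      (10 * inner ℝ u v + 8 * (u 3 * v 3)) 0 :=
    (hi.const_mul 10).add ((hc.mul_const (v 3)).const_mul 8)
  have hn := hasDerivAt_norm_line u hx0
  have hn' : HasDerivAt (fun s : ℝ => ‖(x : E 3) + s • u‖) 0 0 := by
    refine hn.congr_deriv ?_
    simp [hu]
  have hA : HasDerivAt (fun s : ℝ => A ((x : E 3) + s • u)) (A u) 0 :=
    A.hasFDerivAt.comp_hasDerivAt 0 (hasDerivAt_line (x : E 3) u 0)
  have hB : HasDerivAt (fun s : ℝ => B ((x : E 3) + s • u)) (B u) 0 :=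
    B.hasFDerivAt.comp_hasDerivAt 0 (hasDerivAt_line (x : E 3) u 0)
  have hdiv : HasDerivAt (fun s : ℝ => inner ℝ ((x : E 3) + s • u) v / ‖(x : E 3) + s • u‖)
      (inner ℝ u v) 0 := by
    have := hi.div hn' (by simp)
    refine this.congr_deriv ?_
    simp
  have hP1 : HasDerivAt (fun s : ℝ => P1 ((x : E 3) + s • u) v) (P2 x u v) 0 := by
    have h3 := ((((hdiv.const_mul 3).smul hA).add ((hn'.const_mul 3).smul_const (A v))).add
      ((hB.const_smul (3 * v 3)).add ((hc.const_mul 3).smul_const (B v)))).add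
      (((hi.const_mul 8).add ((hc.mul_const (v 3)).const_mul 10)).smul_const k)
    refine h3.congr_deriv ?_
    simp only [zero_smul, add_zero, hv, zero_div, mul_zero, zero_smul, P2]
    module
  have h1 := ((hasDerivAt_Q (x : E 3) u 0).smul (W0_smooth.hasDerivAt_D u v 0 hx0)).add
    (hQ1.smul (W0_smooth.hasDerivAt u 0 hx0))
  have h3 : (fun s : ℝ => Qf ((x : E 3) + s • u) • D W0 ((x : E 3) + s • u) v +
      Q1 ((x : E 3) + s • u) v • W0 (proj ((x : E 3) + s • u))) =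
      fun s : ℝ => P1 ((x : E 3) + s • u) v := by
    funext s
    exact D_W0 (line_ne_zero x hu s) v
  have h4 := h1.congr_of_eventuallyEq (Filter.EventuallyEq.of_eq h3.symm)
  have h5 := h4.unique hP1
  simpa [proj_coe] using h5

end Pool.Agent.TH616.MCF
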