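import Mathlib
import Pool.Agent.TH616.MEx

/-! The geometry of the Whitney sphere in `S⁶`. -/

set_option linter.unusedSectionVars false
set_option linter.unusedSimpArgs false

open Set Metric Filter Topology
open scoped ContDiff

namespace Pool.Agent.TH616.MCF

/-- The denominator at a point of the sphere. -/
noncomputable def Qx (x : S 3) : ℝ := 5 + 4 * (x : E 3) 3 ^ 2

theorem Qx_pos (x : S 3) : 0 < Qx x := by
  unfold Qx
  positivity

theorem Qf_coe (x : S 3) : Qf (x : E 3) = Qx x := by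
  simp [Qf, Qx]

/-- The numerator of `W0`. -/
noncomputable def Nx (x : S 3) : V7 :=
  (3 : ℝ) • A x + (3 * (x : E 3) 3) • B x + (4 + 5 * (x : E 3) 3 ^ 2) • k

theorem W0_eq' (x : S 3) : W0 x = (Qx x)⁻¹ • Nx x := W0_eq x

theorem D_W0' (x : S 3) {v : E 3} (hv : inner ℝ (x : E 3) v = 0) :
    D W0 x v = (Qx x)⁻¹ • ((3 : ℝ) • A v + (3 * v 3) • B x + (3 * (x : E 3) 3) • B v +
      (10 * ((x : E 3) 3 * v 3)) • k) - ((Qx x)⁻¹ * (Qx x)⁻¹ * (8 * ((x : E 3) 3 * v 3))) • Nx x := by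
  have h1 := D_W0 (coe_ne_zero x) v
  have hQ : Qx x ≠ 0 := (Qx_pos x).ne'
  rw [Qf_coe, proj_coe, W0_eq', Q1, P1, hv] at h1
  have h2 : D W0 x v = (Qx x)⁻¹ • (Qx x • D W0 x v) := by
    rw [smul_smul, inv_mul_cancel₀ hQ, one_smul]
  rw [h2, eq_sub_of_add_eq h1]
  have hx : ‖(x : E 3)‖ = 1 := by simp
  rw [hx]
  match_scalars <;> field_simp <;> ring

theorem inner_D_W0 (x : S 3) {u v : E 3} (hu : inner ℝ (x : E 3) u = 0)
    (hv : inner ℝ (x : E 3) v = 0) :
    inner ℝ (D W0 x u) (D W0 x v) =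
      9 * (1 + (x : E 3) 3 ^ 2) / Qx x ^ 2 * inner ℝ u v := by
  have hQ : Qx x ≠ 0 := (Qx_pos x).ne'
  have hu' : inner ℝ u (x : E 3) = (0 : ℝ) := by rw [real_inner_comm]; exact hu
  have hv' : inner ℝ v (x : E 3) = (0 : ℝ) := by rw [real_inner_comm]; exact hv
  rw [D_W0' x hu, D_W0' x hv, Nx]
  simp only [inner_add_left, inner_add_right, inner_sub_left, inner_sub_right,
    real_inner_smul_left, real_inner_smul_right,
    AA_in, BB_in, AB_in, BA_in, Ak_in, kA_in, Bk_in, kB_in, kk_in, inner_self_x, hu, hv, hu', hv']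
  field_simp
  unfold Qx
  ring

/-- The normal map. -/
noncomputable def K (x : S 3) : E 3 →ₗ[ℝ] V7 where
  toFun v := (Qx x ^ 2)⁻¹ • ((-3 * (x : E 3) 3 * Qx x) • A v -
    (12 * v 3 * (1 - (x : E 3) 3 ^ 2)) • A x + (3 * Qx x) • B v -
    (27 * (x : E 3) 3 * v 3) • B x + (9 * v 3 * (1 - (x : E 3) 3 ^ 2)) • k)
  map_add' u v := by
    simp only [map_add, PiLp.add_apply]
    module
  map_smul' c u := by
    simp only [map_smul, PiLp.smul_apply, smul_eq_mul, RingHom.id_apply]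
    module

theorem K_apply (x : S 3) (v : E 3) : K x v = (Qx x ^ 2)⁻¹ • ((-3 * (x : E 3) 3 * Qx x) • A v -
    (12 * v 3 * (1 - (x : E 3) 3 ^ 2)) • A x + (3 * Qx x) • B v -
    (27 * (x : E 3) 3 * v 3) • B x + (9 * v 3 * (1 - (x : E 3) 3 ^ 2)) • k) := rfl

theorem K_W0 (x : S 3) {v : E 3} (hv : inner ℝ (x : E 3) v = 0) :
    inner ℝ (K x v) (W0 x) = 0 := by
  have hQ : Qx x ≠ 0 := (Qx_pos x).ne'
  have hv' : inner ℝ v (x : E 3) = (0 : ℝ) := by rw [real_inner_comm]; exact hv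
  rw [K_apply, W0_eq', Nx]
  simp only [inner_add_left, inner_add_right, inner_sub_left, inner_sub_right,
    real_inner_smul_left, real_inner_smul_right,
    AA_in, BB_in, AB_in, BA_in, Ak_in, kA_in, Bk_in, kB_in, kk_in, inner_self_x, hv, hv']
  field_simp
  ring

theorem K_D (x : S 3) {u v : E 3} (hu : inner ℝ (x : E 3) u = 0)
    (hv : inner ℝ (x : E 3) v = 0) :
    inner ℝ (K x v) (D W0 x u) = 0 := by
  have hQ : Qx x ≠ 0 := (Qx_pos x).ne'
  have hu' : inner ℝ u (x : E 3) = (0 : ℝ) := by rw [real_inner_comm]; exact hu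
  have hv' : inner ℝ v (x : E 3) = (0 : ℝ) := by rw [real_inner_comm]; exact hv
  rw [K_apply, D_W0' x hu, Nx]
  simp only [inner_add_left, inner_add_right, inner_sub_left, inner_sub_right,
    real_inner_smul_left, real_inner_smul_right,
    AA_in, BB_in, AB_in, BA_in, Ak_in, kA_in, Bk_in, kB_in, kk_in, inner_self_x, hu, hv, hu', hv']
  field_simp
  unfold Qx
  ring

theorem K_K (x : S 3) {u v : E 3} (hu : inner ℝ (x : E 3) u = 0)
    (hv : inner ℝ (x : E 3) v = 0) :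
    inner ℝ (K x u) (K x v) = 9 * (1 + (x : E 3) 3 ^ 2) / Qx x ^ 2 * inner ℝ u v := by
  have hQ : Qx x ≠ 0 := (Qx_pos x).ne'
  have hu' : inner ℝ u (x : E 3) = (0 : ℝ) := by rw [real_inner_comm]; exact hu
  have hv' : inner ℝ v (x : E 3) = (0 : ℝ) := by rw [real_inner_comm]; exact hv
  rw [K_apply, K_apply]
  simp only [inner_add_left, inner_add_right, inner_sub_left, inner_sub_right,
    real_inner_smul_left, real_inner_smul_right,
    AA_in, BB_in, AB_in, BA_in, Ak_in, kA_in, Bk_in, kB_in, kk_in, inner_self_x, hu, hv, hu', hv']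
  field_simp
  unfold Qx
  ring

/-- The gradient of the height function. -/
noncomputable def gr (x : S 3) : E 3 := EuclideanSpace.single 3 1 - (x : E 3) 3 • (x : E 3)

theorem inner_single (v : E 3) : inner ℝ (EuclideanSpace.single 3 (1 : ℝ)) v = v 3 := by
  simp [EuclideanSpace.inner_single_left]

theorem gr_tan (x : S 3) : inner ℝ (x : E 3) (gr x) = 0 := by
  rw [gr, inner_sub_right, real_inner_comm, inner_single, real_inner_smul_right, inner_self_x]
  ring

theorem gr_inner (x : S 3) {v : E 3} (hv : inner ℝ (x : E 3) v = 0) :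
    inner ℝ (gr x) v = v 3 := by
  rw [gr, inner_sub_left, inner_single, real_inner_smul_left, hv]
  ring

theorem gr_three (x : S 3) : gr x 3 = 1 - (x : E 3) 3 ^ 2 := by
  simp [gr]
  ring

theorem gr_gr (x : S 3) : inner ℝ (gr x) (gr x) = 1 - (x : E 3) 3 ^ 2 := by
  rw [gr_inner x (gr_tan x), gr_three]

theorem A_single : A (EuclideanSpace.single 3 1) = 0 := by
  rw [A_apply]
  ext i
  fin_cases i <;> simp

theorem B_single : B (EuclideanSpace.single 3 1) = 0 := by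
  rw [B_apply]
  ext i
  fin_cases i <;> simp

theorem A_gr (x : S 3) : A (gr x) = -((x : E 3) 3) • A x := by
  rw [gr, map_sub, map_smul, A_single]
  module

theorem B_gr (x : S 3) : B (gr x) = -((x : E 3) 3) • B x := by
  rw [gr, map_sub, map_smul, B_single]
  module

/-- The constant `c`. -/
noncomputable def cx (x : S 3) : ℝ := (4 + 5 * (x : E 3) 3 ^ 2) / Qx x

/-- The second fundamental form of the Whitney sphere. -/
noncomputable def hx (x : S 3) (u v : E 3) : V7 := (1 + (x : E 3) 3 ^ 2)⁻¹ •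
  (u 3 • K x v + v 3 • K x u + (cx x * inner ℝ u v) • K x (gr x))

theorem D2_decomp (x : S 3) {u v : E 3} (hu : inner ℝ (x : E 3) u = 0)
    (hv : inner ℝ (x : E 3) v = 0) :
    ∃ a b1 b2 b3 : ℝ, D2 W0 x u v = hx x u v + a • W0 x + D W0 x (b1 • u + b2 • v + b3 • gr x) := by
  have hQ : Qx x ≠ 0 := (Qx_pos x).ne'
  have hz : 1 + (x : E 3) 3 ^ 2 ≠ 0 := by positivity
  have h1 := D2_W0 x hu hv
  rw [Qf_coe] at h1
  have h2 : D2 W0 x u v = (Qx x)⁻¹ • (Qx x • D2 W0 x u v) := by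
    rw [smul_smul, inv_mul_cancel₀ hQ, one_smul]
  -- the coefficients
  refine ⟨-(9 * (1 + (x : E 3) 3 ^ 2) / Qx x ^ 2 * inner ℝ u v),
    (x : E 3) 3 * v 3 * ((1 + (x : E 3) 3 ^ 2)⁻¹ - 8 * (Qx x)⁻¹),
    (x : E 3) 3 * u 3 * ((1 + (x : E 3) 3 ^ 2)⁻¹ - 8 * (Qx x)⁻¹),
    -(inner ℝ u v * ((x : E 3) 3 * ((1 + (x : E 3) 3 ^ 2)⁻¹ - 8 * (Qx x)⁻¹))), ?_⟩
  have h3 : Qx x • D2 W0 x u v = P2 x u v - Q1 x u • D W0 x v - Q1 x v • D W0 x u -
      (10 * inner ℝ u v + 8 * (u 3 * v 3)) • W0 x := by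
    rw [← h1]
    module
  rw [h2, h3, hx, D_add, D_add, D_smul, D_smul, D_smul, D_W0' x hu, D_W0' x hv,
    D_W0' x (gr_tan x), K_apply, K_apply, K_apply, A_gr, B_gr, gr_three, W0_eq', Nx, P2, Q1, Q1,
    hu, hv, cx]
  match_scalars <;> field_simp <;> unfold Qx <;> ring

end Pool.Agent.TH616.MCF
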