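import Mathlib
import Pool.Agent.TH616.MEx2

/-! The mean curvature and the Ricci curvature of the Whitney sphere in `S⁶`. -/

set_option linter.unusedSectionVars false

open Set Metric Filter Topology
open scoped ContDiff

namespace Pool.Agent.TH616.MCF

theorem W0_imm : IsImmersion W0 := by
  intro x u hu h
  have h1 := inner_D_W0 x hu hu
  rw [h, inner_zero_left] at h1
  have hQ := Qx_pos x
  have h2 : 0 < 9 * (1 + (x : E 3) 3 ^ 2) / Qx x ^ 2 := by positivity
  have h3 : inner ℝ u u = (0 : ℝ) := by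
    rcases mul_eq_zero.1 h1.symm with h | h
    · exact absurd h h2.ne'
    · exact h
  exact inner_self_eq_zero.1 h3

section nor
variable {n : ℕ} {V : Type*} [NormedAddCommGroup V] [InnerProductSpace ℝ V] {F : S n → V}
  {x : S n} {e : Fin n → E n}

theorem nor_add (y z : V) : nor F x e (y + z) = nor F x e y + nor F x e z := by
  simp only [nor, inner_add_left, add_smul, Finset.sum_add_distrib]
  abel

theorem nor_smul (c : ℝ) (y : V) : nor F x e (c • y) = c • nor F x e y := by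
  simp only [nor, real_inner_smul_left, smul_sub, Finset.smul_sum, smul_smul]

theorem nor_self (hF : IsSmooth F) (hn : ∀ x, ‖F x‖ = 1) : nor F x e (F x) = 0 := by
  have h1 : ∀ j, inner ℝ (F x) (D F x (e j)) = (0 : ℝ) := by
    intro j
    rw [real_inner_comm]
    have := inner_D_self hF hn (coe_ne_zero x) (e j)
    rwa [proj_coe] at this
  simp [nor, h1, hn]

theorem nor_D (hF : IsSmooth F) (hn : ∀ x, ‖F x‖ = 1) (he : IsFrame F x e) (v : E n) :
    nor F x e (D F x v) = 0 := by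
  have h1 : inner ℝ (D F x v) (F x) = (0 : ℝ) := by
    have := inner_D_self hF hn (coe_ne_zero x) v
    rwa [proj_coe] at this
  rw [nor, h1, zero_smul, sub_zero, ← D_frame hF he, sub_self]

theorem nor_eq_self {y : V} (h0 : inner ℝ y (F x) = 0) (h : ∀ j, inner ℝ y (D F x (e j)) = 0) :
    nor F x e y = y := by
  simp [nor, h0, h]

end nor

variable {x : S 3} {e : Fin 3 → E 3}

theorem nor_K (he : IsFrame W0 x e) {v : E 3} (hv : inner ℝ (x : E 3) v = 0) :
    nor W0 x e (K x v) = K x v :=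
  nor_eq_self (K_W0 x hv) (fun j => K_D x (he.1 j) hv)

theorem sff_W0 (he : IsFrame W0 x e) {u v : E 3} (hu : inner ℝ (x : E 3) u = 0)
    (hv : inner ℝ (x : E 3) v = 0) : sff W0 x e u v = hx x u v := by
  obtain ⟨a, b1, b2, b3, h⟩ := D2_decomp x hu hv
  rw [sff, h, nor_add, nor_add, nor_smul, nor_self W0_smooth W0_norm,
    nor_D W0_smooth W0_norm he, smul_zero, add_zero, add_zero, hx, nor_smul, nor_add, nor_add,
    nor_smul, nor_smul, nor_smul, nor_K he hu, nor_K he hv, nor_K he (gr_tan x)]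

/-- The inverse square of the conformal factor. -/
noncomputable def tx (x : S 3) : ℝ := Qx x ^ 2 / (9 * (1 + (x : E 3) 3 ^ 2))

theorem tx_pos (x : S 3) : 0 < tx x := by
  have := Qx_pos x
  unfold tx
  positivity

theorem rho_mul (x : S 3) : 9 * (1 + (x : E 3) 3 ^ 2) / Qx x ^ 2 * tx x = 1 := by
  have hQ : Qx x ≠ 0 := (Qx_pos x).ne'
  unfold tx
  field_simp

theorem frame_inner (he : IsFrame W0 x e) (i j : Fin 3) :
    inner ℝ (e i) (e j) = if i = j then tx x else 0 := by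
  have h1 := he.inner_eq i j
  rw [inner_D_W0 x (he.1 i) (he.1 j)] at h1
  have h2 := rho_mul x
  have h3 : inner ℝ (e i) (e j) = tx x * (9 * (1 + (x : E 3) 3 ^ 2) / Qx x ^ 2 *
      inner ℝ (e i) (e j)) := by
    linear_combination -(inner ℝ (e i) (e j)) * h2
  rw [h3, h1]
  split_ifs <;> ring

theorem frame_sum (he : IsFrame W0 x e) {w : E 3} (hw : inner ℝ (x : E 3) w = 0) :
    ∑ i, inner ℝ w (e i) • e i = tx x • w := by
  have h1 := D_frame W0_smooth he w
  have h2 : D W0 x (w - ∑ i, inner ℝ (D W0 x w) (D W0 x (e i)) • e i) = 0 := by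
    rw [D_sub, D_sum, sub_eq_zero]
    simp only [D_smul]
    exact h1
  have h3 := W0_imm x _ (by
    rw [inner_sub_right, hw, inner_sum]
    simp [real_inner_smul_right, he.1]) h2
  have h4 : w = ∑ i, inner ℝ (D W0 x w) (D W0 x (e i)) • e i := sub_eq_zero.1 h3
  have h5 : w = (9 * (1 + (x : E 3) 3 ^ 2) / Qx x ^ 2) • ∑ i, inner ℝ w (e i) • e i := by
    conv_lhs => rw [h4]
    rw [Finset.smul_sum]
    refine Finset.sum_congr rfl fun i _ => ?_
    rw [inner_D_W0 x hw (he.1 i), smul_smul]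
  conv_rhs => rw [h5]
  rw [smul_smul, mul_comm, rho_mul, one_smul]

theorem frame_parseval (he : IsFrame W0 x e) {w v : E 3} (hw : inner ℝ (x : E 3) w = 0) :
    ∑ i, inner ℝ w (e i) * inner ℝ (e i) v = tx x * inner ℝ w v := by
  have h1 := congrArg (fun y => inner ℝ y v) (frame_sum he hw)
  simpa [sum_inner, real_inner_smul_left] using h1

/-- The mean curvature vector of the Whitney sphere. -/
theorem meanCurv_W0 (he : IsFrame W0 x e) :
    meanCurv W0 x e = ((1 + (x : E 3) 3 ^ 2)⁻¹ * tx x * (2 + 3 * cx x)) • K x (gr x) := by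
  have h1 : ∀ i, sff W0 x e (e i) (e i) = (1 + (x : E 3) 3 ^ 2)⁻¹ •
      ((2 : ℝ) • K x (inner ℝ (gr x) (e i) • e i) + (cx x * tx x) • K x (gr x)) := by
    intro i
    rw [sff_W0 he (he.1 i) (he.1 i), hx, gr_inner x (he.1 i), map_smul, frame_inner he]
    simp only [if_true]
    module
  rw [meanCurv, Finset.sum_congr rfl fun i _ => h1 i, ← Finset.smul_sum, Finset.sum_add_distrib,
    ← Finset.smul_sum, ← map_sum, frame_sum he (gr_tan x), map_smul]
  simp only [Finset.sum_const, Finset.card_univ, Fintype.card_fin]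
  module

theorem normSq_meanCurv_W0 (he : IsFrame W0 x e) :
    ‖meanCurv W0 x e‖ ^ 2 = ((1 + (x : E 3) 3 ^ 2)⁻¹) ^ 2 * tx x * (2 + 3 * cx x) ^ 2 *
      (1 - (x : E 3) 3 ^ 2) := by
  rw [meanCurv_W0 he, ← real_inner_self_eq_norm_sq, real_inner_smul_left, real_inner_smul_right,
    K_K x (gr_tan x) (gr_tan x), gr_gr]
  linear_combination ((1 + (x : E 3) 3 ^ 2)⁻¹) ^ 2 * tx x * (2 + 3 * cx x) ^ 2 *
      (1 - (x : E 3) 3 ^ 2) * rho_mul x

theorem normSq_hx (x : S 3) {u v : E 3} (hu : inner ℝ (x : E 3) u = 0)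
    (hv : inner ℝ (x : E 3) v = 0) :
    ‖hx x u v‖ ^ 2 = ((1 + (x : E 3) 3 ^ 2)⁻¹) ^ 2 * (9 * (1 + (x : E 3) 3 ^ 2) / Qx x ^ 2) *
      (u 3 ^ 2 * inner ℝ v v + v 3 ^ 2 * inner ℝ u u +
        (cx x * inner ℝ u v) ^ 2 * (1 - (x : E 3) 3 ^ 2) + 2 * (u 3 * v 3 * inner ℝ u v) +
        4 * (cx x * inner ℝ u v * (u 3 * v 3))) := by
  have h1 : hx x u v = (1 + (x : E 3) 3 ^ 2)⁻¹ •
      K x (u 3 • v + v 3 • u + (cx x * inner ℝ u v) • gr x) := by
    rw [hx, map_add, map_add, map_smul, map_smul, map_smul]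
  have ht : inner ℝ (x : E 3) (u 3 • v + v 3 • u + (cx x * inner ℝ u v) • gr x) = 0 := by
    simp only [inner_add_right, real_inner_smul_right, hu, hv, gr_tan]
    ring
  have hu' : inner ℝ u (gr x) = u 3 := by rw [real_inner_comm]; exact gr_inner x hu
  have hv' : inner ℝ v (gr x) = v 3 := by rw [real_inner_comm]; exact gr_inner x hv
  rw [h1, ← real_inner_self_eq_norm_sq, real_inner_smul_left, real_inner_smul_right, K_K x ht ht]
  simp only [inner_add_left, inner_add_right, real_inner_smul_left, real_inner_smul_right,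
    gr_inner x hu, gr_inner x hv, hu', hv', gr_gr, real_inner_comm u v]
  ring

theorem sum_frame_three (he : IsFrame W0 x e) :
    ∑ i, (e i 3) ^ 2 = tx x * (1 - (x : E 3) 3 ^ 2) := by
  have h1 := frame_parseval he (v := gr x) (gr_tan x)
  rw [gr_gr] at h1
  rw [← h1]
  refine Finset.sum_congr rfl fun i _ => ?_
  rw [real_inner_comm (gr x) (e i), gr_inner x (he.1 i)]
  ring

/-- The Ricci curvature of the Whitney sphere. -/
theorem ricci_W0 (he : IsFrame W0 x e) {u : E 3} (hu : inner ℝ (x : E 3) u = 0)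
    (h1 : ‖D W0 x u‖ = 1) :
    ricci W0 x e u = 2 + ((1 + (x : E 3) 3 ^ 2)⁻¹) ^ 2 * ((2 * cx x - 1) * u 3 ^ 2 +
      (2 * cx x + 2 * cx x ^ 2 - 1) * (1 - (x : E 3) 3 ^ 2) * tx x) := by
  have huu : inner ℝ u u = tx x := by
    have h2 : inner ℝ (D W0 x u) (D W0 x u) = (1 : ℝ) := by
      rw [real_inner_self_eq_norm_sq, h1]
      norm_num
    rw [inner_D_W0 x hu hu] at h2
    have h3 := rho_mul x
    linear_combination tx x * h2 - inner ℝ u u * h3
  have hg : inner ℝ (meanCurv W0 x e) (sff W0 x e u u) = ((1 + (x : E 3) 3 ^ 2)⁻¹) ^ 2 *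
      (2 + 3 * cx x) * (2 * u 3 ^ 2 + cx x * (1 - (x : E 3) 3 ^ 2) * tx x) := by
    rw [meanCurv_W0 he, sff_W0 he hu hu, hx, real_inner_smul_left, real_inner_smul_right,
      inner_add_right, inner_add_right, real_inner_smul_right, real_inner_smul_right,
      K_K x (gr_tan x) hu, K_K x (gr_tan x) (gr_tan x), gr_gr, gr_inner x hu, huu]
    have h3 := rho_mul x
    linear_combination ((1 + (x : E 3) 3 ^ 2)⁻¹) ^ 2 *
      (2 + 3 * cx x) * (2 * u 3 ^ 2 + cx x * (1 - (x : E 3) 3 ^ 2) * tx x) * h3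
  have hs : ∑ i, ‖sff W0 x e u (e i)‖ ^ 2 = ((1 + (x : E 3) 3 ^ 2)⁻¹) ^ 2 *
      ((5 + 4 * cx x) * u 3 ^ 2 + (1 + cx x ^ 2) * (1 - (x : E 3) 3 ^ 2) * tx x) := by
    have h4 : ∀ i, ‖sff W0 x e u (e i)‖ ^ 2 = ((1 + (x : E 3) 3 ^ 2)⁻¹) ^ 2 *
        (9 * (1 + (x : E 3) 3 ^ 2) / Qx x ^ 2) * (u 3 ^ 2 * tx x + tx x * (e i 3) ^ 2 +
        cx x ^ 2 * (1 - (x : E 3) 3 ^ 2) * (inner ℝ u (e i) * inner ℝ (e i) u) +
        (2 * u 3 + 4 * cx x * u 3) * (inner ℝ u (e i) * inner ℝ (e i) (gr x))) := by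
      intro i
      rw [sff_W0 he hu (he.1 i), normSq_hx x hu (he.1 i), frame_inner he, huu,
        real_inner_comm (gr x) (e i), gr_inner x (he.1 i), real_inner_comm u (e i)]
      simp only [if_true]
      ring
    rw [Finset.sum_congr rfl fun i _ => h4 i, ← Finset.mul_sum, Finset.sum_add_distrib,
      Finset.sum_add_distrib, Finset.sum_add_distrib, ← Finset.mul_sum, ← Finset.mul_sum,
      ← Finset.mul_sum, ← Finset.mul_sum, sum_frame_three he, frame_parseval he hu,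
      frame_parseval he hu, huu,
      real_inner_comm (gr x) u, gr_inner x hu]
    simp only [Finset.sum_const, Finset.card_univ, Fintype.card_fin]
    have h3 := rho_mul x
    push_cast
    linear_combination ((1 + (x : E 3) 3 ^ 2)⁻¹) ^ 2 *
      ((5 + 4 * cx x) * u 3 ^ 2 + (1 + cx x ^ 2) * (1 - (x : E 3) 3 ^ 2) * tx x) * h3
  rw [ricci, hg, hs, h1]
  push_cast
  ring

theorem z_sq_le (x : S 3) : (x : E 3) 3 ^ 2 ≤ 1 := by
  have h := sphere_sq x
  nlinarith [sq_nonneg ((x : E 3) 0), sq_nonneg ((x : E 3) 1), sq_nonneg ((x : E 3) 2)]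

/-- The pinching inequality for the Whitney sphere. -/
theorem pinching_W0 (he : IsFrame W0 x e) {u : E 3} (hu : inner ℝ (x : E 3) u = 0)
    (h1 : ‖D W0 x u‖ = 1) :
    1 + 1 / 9 * ‖meanCurv W0 x e‖ ^ 2 < ricci W0 x e u := by
  rw [ricci_W0 he hu h1, normSq_meanCurv_W0 he]
  have hz := z_sq_le x
  have hz0 := sq_nonneg ((x : E 3) 3)
  have hQ := Qx_pos x
  set a := (x : E 3) 3 ^ 2 with ha
  have hQa : Qx x = 5 + 4 * a := rfl
  have hca : cx x = (4 + 5 * a) / (5 + 4 * a) := by rw [cx, hQa]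
  have hta : tx x = (5 + 4 * a) ^ 2 / (9 * (1 + a)) := by rw [tx, hQa]
  have hc1 : 0 ≤ 2 * cx x - 1 := by
    rw [hca, sub_nonneg, mul_div_assoc', le_div_iff₀ (by positivity)]
    linarith
  have h2 : 0 ≤ ((1 + a)⁻¹) ^ 2 * ((2 * cx x - 1) * u 3 ^ 2) := by positivity
  have h3 : 0 < 1 + ((1 + a)⁻¹) ^ 2 * ((2 * cx x + 2 * cx x ^ 2 - 1) * (1 - a) * tx x) -
      1 / 9 * (((1 + a)⁻¹) ^ 2 * tx x * (2 + 3 * cx x) ^ 2 * (1 - a)) := by
    rw [hca, hta]
    have h4 : 1 + ((1 + a)⁻¹) ^ 2 * ((2 * ((4 + 5 * a) / (5 + 4 * a)) +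
        2 * ((4 + 5 * a) / (5 + 4 * a)) ^ 2 - 1) * (1 - a) *
        ((5 + 4 * a) ^ 2 / (9 * (1 + a)))) - 1 / 9 * (((1 + a)⁻¹) ^ 2 *
        ((5 + 4 * a) ^ 2 / (9 * (1 + a))) * (2 + 3 * ((4 + 5 * a) / (5 + 4 * a))) ^ 2 * (1 - a)) =
        (81 * (1 + a) ^ 3 + (1 - a) * (9 * (2 * (4 + 5 * a) * (5 + 4 * a) +
          2 * (4 + 5 * a) ^ 2 - (5 + 4 * a) ^ 2) - (2 * (5 + 4 * a) + 3 * (4 + 5 * a)) ^ 2)) /
          (81 * (1 + a) ^ 3) := by
      field_simp
      ring
    rw [h4]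
    apply div_pos _ (by positivity)
    nlinarith [mul_nonneg hz0 hz0, mul_nonneg (mul_nonneg hz0 hz0) hz0,
      mul_nonneg hz0 (sub_nonneg.2 hz)]
  linarith

end Pool.Agent.TH616.MCF
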