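import Mathlib
import Pool.Agent.TH616.MCalc

/-! Calculus in space-time. -/

open Set Metric Filter Topology
open scoped ContDiff

namespace Pool.Agent.TH616.MCF

variable {n : ℕ}

/-- The space-time domain. -/
def QT (n : ℕ) (T : ℝ) : Set (ℝ × E n) := Ico 0 T ×ˢ {0}ᶜ

/-- The open space-time domain. -/
def QO (n : ℕ) (T : ℝ) : Set (ℝ × E n) := Ioo 0 T ×ˢ {0}ᶜ

theorem QO_sub (T : ℝ) : QO n T ⊆ QT n T := prod_mono Ioo_subset_Ico_self subset_rfl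

theorem isOpen_QO (T : ℝ) : IsOpen (QO n T) := isOpen_Ioo.prod isOpen_ne

theorem uniqueDiffOn_QT (T : ℝ) : UniqueDiffOn ℝ (QT n T) :=
  (uniqueDiffOn_Ico 0 T).prod isOpen_ne.uniqueDiffOn

variable {W : Type*} [NormedAddCommGroup W] [NormedSpace ℝ W] {T : ℝ}

/-- The derivative in the direction `a`. -/
noncomputable def da (a : ℝ × E n) (Φ : ℝ × E n → W) (q : ℝ × E n) : W := fderiv ℝ Φ q a

/-- The spatial derivative in the direction `v`. -/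
noncomputable def dv (v : E n) (Φ : ℝ × E n → W) (q : ℝ × E n) : W :=
  fderiv ℝ (fun y : E n => Φ (q.1, y)) q.2 v

/-- Smooth up to the initial time. -/
def CQ (T : ℝ) (Φ : ℝ × E n → W) : Prop := ContDiffOn ℝ ∞ Φ (QT n T)

/-- Smooth at positive times. -/
def CO (T : ℝ) (Φ : ℝ × E n → W) : Prop := ContDiffOn ℝ ∞ Φ (QO n T)

variable {Φ Ψ : ℝ × E n → W} {q : ℝ × E n}

theorem CQ.co (h : CQ T Φ) : CO T Φ := ContDiffOn.mono h (QO_sub T)

theorem CQ.hasFDerivAt_y (h : CQ T Φ) (hq : q ∈ QT n T) :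
    HasFDerivAt (fun y : E n => Φ (q.1, y))
      ((fderivWithin ℝ Φ (QT n T) q).comp (ContinuousLinearMap.inr ℝ ℝ (E n))) q.2 := by
  have h1 : HasFDerivWithinAt Φ (fderivWithin ℝ Φ (QT n T) q) (QT n T) q :=
    ((ContDiffOn.differentiableOn h (by simp)) q hq).hasFDerivWithinAt
  have h2 : HasFDerivWithinAt (fun y : E n => ((q.1, y) : ℝ × E n))
      (ContinuousLinearMap.inr ℝ ℝ (E n))
      {0}ᶜ q.2 := (hasFDerivAt_prodMk_right q.1 q.2).hasFDerivWithinAt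
  have hm : MapsTo (fun y : E n => ((q.1, y) : ℝ × E n)) {0}ᶜ (QT n T) := fun y hy => ⟨hq.1, hy⟩
  have h3 : HasFDerivWithinAt (fun y : E n => Φ (q.1, y))
      ((fderivWithin ℝ Φ (QT n T) q).comp (ContinuousLinearMap.inr ℝ ℝ (E n))) {0}ᶜ q.2 :=
    HasFDerivWithinAt.comp (g := Φ) (t := QT n T) q.2 h1 h2 hm
  exact h3.hasFDerivAt (isOpen_ne.mem_nhds hq.2)

theorem CQ.dv_eq (h : CQ T Φ) (hq : q ∈ QT n T) (v : E n) :
    dv v Φ q = fderivWithin ℝ Φ (QT n T) q (0, v) := by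
  rw [dv, (h.hasFDerivAt_y hq).fderiv]
  rfl

theorem CQ.dv (h : CQ T Φ) (v : E n) : CQ T (dv v Φ) := by
  have h1 : ContDiffOn ℝ ∞ (fderivWithin ℝ Φ (QT n T)) (QT n T) :=
    ContDiffOn.fderivWithin h (uniqueDiffOn_QT T) (by simp)
  have h2 : ContDiffOn ℝ ∞ (fun q => fderivWithin ℝ Φ (QT n T) q (0, v)) (QT n T) :=
    h1.clm_apply contDiffOn_const
  exact h2.congr (fun q hq => h.dv_eq hq v)

theorem CO.contDiffAt (h : CO T Φ) (hq : q ∈ QO n T) : ContDiffAt ℝ ∞ Φ q :=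
  ContDiffOn.contDiffAt h ((isOpen_QO T).mem_nhds hq)

theorem CO.hasFDerivAt (h : CO T Φ) (hq : q ∈ QO n T) : HasFDerivAt Φ (fderiv ℝ Φ q) q :=
  ((h.contDiffAt hq).differentiableAt (by simp)).hasFDerivAt

theorem CO.fderiv (h : CO T Φ) : ContDiffOn ℝ ∞ (fderiv ℝ Φ) (QO n T) :=
  ContDiffOn.fderiv_of_isOpen h (isOpen_QO T) (by simp)

theorem CO.da (h : CO T Φ) (a : ℝ × E n) : CO T (da a Φ) :=
  h.fderiv.clm_apply contDiffOn_const

theorem CO.dv_eq (h : CO T Φ) (hq : q ∈ QO n T) (v : E n) : dv v Φ q = MCF.da (0, v) Φ q := by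
  have h1 := h.hasFDerivAt hq
  have h2 : HasFDerivAt (fun y : E n => ((q.1, y) : ℝ × E n))
      (ContinuousLinearMap.inr ℝ ℝ (E n)) q.2 :=
    hasFDerivAt_prodMk_right q.1 q.2
  have h3 := HasFDerivAt.comp (g := Φ) q.2 h1 h2
  have h4 : HasFDerivAt (fun y : E n => Φ (q.1, y))
      ((_root_.fderiv ℝ Φ q).comp (ContinuousLinearMap.inr ℝ ℝ (E n))) q.2 := h3
  rw [MCF.dv, h4.fderiv]
  rfl

/-- The derivative along a line in space. -/
theorem CO.hasDerivAt_line (h : CO T Φ) {t : ℝ} {y v : E n} {s : ℝ}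
    (hq : (t, y + s • v) ∈ QO n T) :
    HasDerivAt (fun s : ℝ => Φ (t, y + s • v)) (MCF.da (0, v) Φ (t, y + s • v)) s := by
  have h1 := h.hasFDerivAt hq
  have h2 : HasDerivAt (fun s : ℝ => ((t, y + s • v) : ℝ × E n)) (0, v) s :=
    (hasDerivAt_const s t).prodMk (MCF.hasDerivAt_line y v s)
  exact HasFDerivAt.comp_hasDerivAt (l := Φ) s h1 h2

/-- The derivative in time. -/
theorem CO.hasDerivAt_time (h : CO T Φ) (hq : q ∈ QO n T) :
    HasDerivAt (fun s : ℝ => Φ (s, q.2)) (MCF.da (1, 0) Φ q) q.1 := by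
  have h1 := h.hasFDerivAt hq
  have h2 : HasDerivAt (fun s : ℝ => ((s, q.2) : ℝ × E n)) (1, 0) q.1 :=
    (hasDerivAt_id q.1).prodMk (hasDerivAt_const q.1 q.2)
  exact HasFDerivAt.comp_hasDerivAt (l := Φ) q.1 h1 h2

theorem da_congr (h : ∀ p ∈ QO n T, Φ p = Ψ p) (hq : q ∈ QO n T) (a : ℝ × E n) :
    da a Φ q = da a Ψ q := by
  have : Φ =ᶠ[𝓝 q] Ψ := by
    filter_upwards [(isOpen_QO T).mem_nhds hq] with p hp using h p hp
  rw [da, da, this.fderiv_eq]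

theorem da_const (c : W) (a : ℝ × E n) (q : ℝ × E n) : da a (fun _ => c) q = 0 := by
  rw [da]
  simp

theorem da_add_dir (a b : ℝ × E n) (Φ : ℝ × E n → W) (q : ℝ × E n) :
    da (a + b) Φ q = da a Φ q + da b Φ q := by
  simp only [da, map_add]

theorem da_smul_dir (c : ℝ) (a : ℝ × E n) (Φ : ℝ × E n → W) (q : ℝ × E n) :
    da (c • a) Φ q = c • da a Φ q := by
  simp only [da, map_smul]

/-- Second derivatives. -/
theorem CO.dda_eq (h : CO T Φ) (hq : q ∈ QO n T) (a b : ℝ × E n) :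
    MCF.da a (MCF.da b Φ) q = _root_.fderiv ℝ (_root_.fderiv ℝ Φ) q a b := by
  have h1 : DifferentiableAt ℝ (_root_.fderiv ℝ Φ) q :=
    (h.fderiv.contDiffAt ((isOpen_QO T).mem_nhds hq)).differentiableAt (by simp)
  have h3 : HasFDerivAt (fun q => _root_.fderiv ℝ Φ q b)
      ((ContinuousLinearMap.apply ℝ W b).comp (_root_.fderiv ℝ (_root_.fderiv ℝ Φ) q)) q :=
    (ContinuousLinearMap.apply ℝ W b).hasFDerivAt.comp q h1.hasFDerivAt
  show _root_.fderiv ℝ (fun q => _root_.fderiv ℝ Φ q b) q a = _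
  rw [h3.fderiv]
  rfl

/-- The derivatives commute. -/
theorem CO.comm (h : CO T Φ) (hq : q ∈ QO n T) (a b : ℝ × E n) :
    MCF.da a (MCF.da b Φ) q = MCF.da b (MCF.da a Φ) q := by
  have h1 : DifferentiableAt ℝ (_root_.fderiv ℝ Φ) q :=
    (h.fderiv.contDiffAt ((isOpen_QO T).mem_nhds hq)).differentiableAt (by simp)
  have h2 : ∀ a b : ℝ × E n, MCF.da a (MCF.da b Φ) q =
      _root_.fderiv ℝ (_root_.fderiv ℝ Φ) q a b := by
    intro a b
    have h3 : HasFDerivAt (fun q => _root_.fderiv ℝ Φ q b)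
        ((ContinuousLinearMap.apply ℝ W b).comp (_root_.fderiv ℝ (_root_.fderiv ℝ Φ) q)) q :=
      (ContinuousLinearMap.apply ℝ W b).hasFDerivAt.comp q h1.hasFDerivAt
    show _root_.fderiv ℝ (fun q => _root_.fderiv ℝ Φ q b) q a = _
    rw [h3.fderiv]
    rfl
  rw [h2, h2]
  exact ((h.contDiffAt hq).isSymmSndFDerivAt (by
    rw [minSmoothness_of_isRCLikeNormedField]
    exact WithTop.coe_le_coe.2 (le_top (a := (2 : ℕ∞))))) a b

theorem CO.add (h1 : CO T Φ) (h2 : CO T Ψ) : CO T (fun q => Φ q + Ψ q) :=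
  ContDiffOn.add h1 h2

theorem CO.sub (h1 : CO T Φ) (h2 : CO T Ψ) : CO T (fun q => Φ q - Ψ q) :=
  ContDiffOn.sub h1 h2

theorem CO.da_add (h1 : CO T Φ) (h2 : CO T Ψ) (hq : q ∈ QO n T) (a : ℝ × E n) :
    MCF.da a (fun q => Φ q + Ψ q) q = MCF.da a Φ q + MCF.da a Ψ q := by
  have h4 : HasFDerivAt (fun q => Φ q + Ψ q) (_root_.fderiv ℝ Φ q + _root_.fderiv ℝ Ψ q) q :=
    (h1.hasFDerivAt hq).add (h2.hasFDerivAt hq)
  rw [MCF.da, h4.fderiv]
  rfl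

theorem CO.da_sub (h1 : CO T Φ) (h2 : CO T Ψ) (hq : q ∈ QO n T) (a : ℝ × E n) :
    MCF.da a (fun q => Φ q - Ψ q) q = MCF.da a Φ q - MCF.da a Ψ q := by
  have h4 : HasFDerivAt (fun q => Φ q - Ψ q) (_root_.fderiv ℝ Φ q - _root_.fderiv ℝ Ψ q) q :=
    (h1.hasFDerivAt hq).sub (h2.hasFDerivAt hq)
  rw [MCF.da, h4.fderiv]
  rfl

theorem CO.clm {W' : Type*} [NormedAddCommGroup W'] [NormedSpace ℝ W'] (h : CO T Φ)
    (B : W →L[ℝ] W') : CO T (fun q => B (Φ q)) := B.contDiff.comp_contDiffOn h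

theorem CO.da_clm {W' : Type*} [NormedAddCommGroup W'] [NormedSpace ℝ W'] (h : CO T Φ)
    (B : W →L[ℝ] W') (hq : q ∈ QO n T) (a : ℝ × E n) :
    MCF.da a (fun q => B (Φ q)) q = B (MCF.da a Φ q) := by
  have h4 : HasFDerivAt (fun q => B (Φ q)) (B.comp (_root_.fderiv ℝ Φ q)) q :=
    B.hasFDerivAt.comp q (h.hasFDerivAt hq)
  rw [MCF.da, h4.fderiv]
  rfl

/-- The application of an operator valued function. -/
theorem CO.app {W' : Type*} [NormedAddCommGroup W'] [NormedSpace ℝ W']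
    {L : ℝ × E n → W →L[ℝ] W'} (hL : CO T L) (h : CO T Φ) : CO T (fun q => L q (Φ q)) :=
  ContDiffOn.clm_apply hL h

theorem CO.da_app {W' : Type*} [NormedAddCommGroup W'] [NormedSpace ℝ W']
    {L : ℝ × E n → W →L[ℝ] W'} (hL : CO T L) (h : CO T Φ) (hq : q ∈ QO n T) (a : ℝ × E n) :
    MCF.da a (fun q => L q (Φ q)) q = MCF.da a L q (Φ q) + L q (MCF.da a Φ q) := by
  have h4 := (hL.hasFDerivAt hq).clm_apply (h.hasFDerivAt hq)
  rw [MCF.da, h4.fderiv]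
  simp only [MCF.da]
  simp [add_comm]

section inner

variable {V : Type*} [NormedAddCommGroup V] [InnerProductSpace ℝ V]

theorem CO.inner {Φ Ψ : ℝ × E n → V} (h1 : CO T Φ) (h2 : CO T Ψ) :
    CO T (fun q => inner ℝ (Φ q) (Ψ q)) := ContDiffOn.inner ℝ h1 h2

theorem CO.da_inner {Φ Ψ : ℝ × E n → V} (h1 : CO T Φ) (h2 : CO T Ψ) (hq : q ∈ QO n T)
    (a : ℝ × E n) :
    MCF.da a (fun q => Inner.inner ℝ (Φ q) (Ψ q)) q =
      Inner.inner ℝ (MCF.da a Φ q) (Ψ q) + Inner.inner ℝ (Φ q) (MCF.da a Ψ q) := by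
  have h3 := fderiv_inner_apply ℝ (h1.hasFDerivAt hq).differentiableAt
    (h2.hasFDerivAt hq).differentiableAt a
  rw [MCF.da, h3, add_comm]
  rfl

/-- A constant inner product. -/
theorem CO.da_inner_const {Φ Ψ : ℝ × E n → V} {c : ℝ} (h1 : CO T Φ) (h2 : CO T Ψ)
    (hc : ∀ q ∈ QO n T, Inner.inner ℝ (Φ q) (Ψ q) = c) (hq : q ∈ QO n T) (a : ℝ × E n) :
    Inner.inner ℝ (MCF.da a Φ q) (Ψ q) + Inner.inner ℝ (Φ q) (MCF.da a Ψ q) = 0 := by
  rw [← h1.da_inner h2 hq a, da_congr (Ψ := fun _ => c) hc hq, da_const]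

end inner

end Pool.Agent.TH616.MCF
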