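import Mathlib
import Pool.Agent.TH616.MSpace

/-! The tangential projection along a family of immersions. -/

set_option linter.unusedSectionVars false

open Set Metric Filter Topology
open scoped ContDiff

namespace Pool.Agent.TH616.MCF

variable {n : ℕ} {V : Type*} [NormedAddCommGroup V] [InnerProductSpace ℝ V]
  [FiniteDimensional ℝ V]

theorem Time_coe (T : ℝ) : Time (T : EReal) = Ico 0 T := by
  ext t
  simp [Time, EReal.coe_lt_coe_iff]

theorem IsMCF.isSmooth {F₀ : S n → V} {T : EReal} {F : ℝ → S n → V} (h : IsMCF F₀ T F) {t : ℝ}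
    (ht : t ∈ Time T) : IsSmooth (F t) := by
  have h0 : ContDiffOn ℝ ∞ (fun y : E n => ((t, y) : ℝ × E n)) {0}ᶜ := by fun_prop
  exact h.smooth.comp h0 (fun y hy => ⟨ht, hy⟩)

/-- The flow as a function on space-time. -/
noncomputable def GG (F : ℝ → S n → V) (q : ℝ × E n) : V := F q.1 (proj q.2)

/-- The spatial derivative, as an operator. -/
noncomputable def LL (F : ℝ → S n → V) (q : ℝ × E n) : E n →L[ℝ] V :=
  fderiv ℝ (fun y : E n => GG F (q.1, y)) q.2

/-- The adjoint of the spatial derivative. -/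
noncomputable def LA (F : ℝ → S n → V) (q : ℝ × E n) : V →L[ℝ] E n :=
  (ContinuousLinearMap.adjoint (LL F q) : V →L[ℝ] E n)

/-- The (extended) metric operator. -/
noncomputable def AA (F : ℝ → S n → V) (q : ℝ × E n) : E n →L[ℝ] E n :=
  (LA F q).comp (LL F q) + (innerSL ℝ q.2).smulRight q.2

/-- The inverse of the metric operator. -/
noncomputable def RR (F : ℝ → S n → V) (q : ℝ × E n) : E n →L[ℝ] E n := (AA F q).inverse

/-- The coefficient of the tangential projection of a vector. -/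
noncomputable def cof (F : ℝ → S n → V) (Φ : ℝ × E n → V) (q : ℝ × E n) : E n :=
  RR F q (LA F q (Φ q))

theorem LL_apply (F : ℝ → S n → V) (q : ℝ × E n) (v : E n) : LL F q v = D (F q.1) q.2 v := rfl

theorem LL_dv (F : ℝ → S n → V) (q : ℝ × E n) (v : E n) : LL F q v = dv v (GG F) q := rfl

theorem inner_LA (F : ℝ → S n → V) (q : ℝ × E n) (w : V) (v : E n) :
    inner ℝ (LA F q w) v = inner ℝ w (LL F q v) := by
  rw [LA, ContinuousLinearMap.adjoint_inner_left]

theorem inner_AA (F : ℝ → S n → V) (q : ℝ × E n) (u v : E n) :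
    inner ℝ (AA F q u) v = inner ℝ (LL F q u) (LL F q v) + inner ℝ q.2 u * inner ℝ q.2 v := by
  simp only [AA, add_apply, ContinuousLinearMap.comp_apply, inner_add_left,
    inner_LA, ContinuousLinearMap.smulRight_apply, innerSL_apply_apply, real_inner_smul_left]

section

variable {F₀ : S n → V} {T : ℝ} {F : ℝ → S n → V} (h : IsMCF F₀ (T : EReal) F)
include h

theorem IsMCF.isSmooth' {t : ℝ} (ht : t ∈ Ico 0 T) : IsSmooth (F t) :=
  h.isSmooth (by rw [Time_coe]; exact ht)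

theorem IsMCF.cq : CQ T (GG F) := by
  have h1 := h.smooth
  rw [Time_coe] at h1
  exact h1

theorem IsMCF.sm {q : ℝ × E n} (hq : q ∈ QT n T) : IsSmooth (F q.1) := h.isSmooth' hq.1

theorem IsMCF.nor1 {q : ℝ × E n} (hq : q ∈ QT n T) (x : S n) : ‖F q.1 x‖ = 1 :=
  h.mem q.1 (by rw [Time_coe]; exact hq.1) x

theorem IsMCF.im {q : ℝ × E n} (hq : q ∈ QT n T) : IsImmersion (F q.1) :=
  h.imm q.1 (by rw [Time_coe]; exact hq.1)

theorem IsMCF.LL_self {q : ℝ × E n} (hq : q ∈ QT n T) : LL F q q.2 = 0 := by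
  rw [LL_apply]
  exact (h.sm hq).D_self hq.2

theorem IsMCF.LL_inj {q : ℝ × E n} (hq : q ∈ QT n T) {u : E n} (hu : inner ℝ q.2 u = 0)
    (h0 : LL F q u = 0) : u = 0 := by
  rw [LL_apply, D_hom (h.sm hq) hq.2] at h0
  have hn : 0 < ‖q.2‖ := norm_pos_iff.2 hq.2
  have h1 := (smul_eq_zero.1 h0).resolve_left (inv_pos.2 hn).ne'
  refine h.im hq (proj q.2) u ?_ h1
  rw [coe_proj hq.2, real_inner_smul_left, hu, mul_zero]

theorem IsMCF.AA_self {q : ℝ × E n} (hq : q ∈ QT n T) : AA F q q.2 = ‖q.2‖ ^ 2 • q.2 := by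
  simp only [AA, add_apply, ContinuousLinearMap.comp_apply, h.LL_self hq,
    map_zero, zero_add, ContinuousLinearMap.smulRight_apply, innerSL_apply_apply,
    real_inner_self_eq_norm_sq]

theorem IsMCF.AA_inj {q : ℝ × E n} (hq : q ∈ QT n T) : Function.Injective (AA F q) := by
  rw [injective_iff_map_eq_zero]
  intro u hu
  have h1 := inner_AA F q u u
  rw [hu, inner_zero_left, real_inner_self_eq_norm_sq] at h1
  have h2 : ‖LL F q u‖ ^ 2 = 0 := by nlinarith [sq_nonneg ‖LL F q u‖, sq_nonneg (inner ℝ q.2 u : ℝ)]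
  have h3 : (inner ℝ q.2 u : ℝ) = 0 := by
    have : (inner ℝ q.2 u : ℝ) * inner ℝ q.2 u = 0 := by rw [h2] at h1; linarith
    exact mul_self_eq_zero.1 this
  exact h.LL_inj hq h3 (by simpa using h2)

theorem IsMCF.AA_inv {q : ℝ × E n} (hq : q ∈ QT n T) : (AA F q).IsInvertible := by
  let e : E n ≃ₗ[ℝ] E n := LinearEquiv.ofInjectiveEndo (AA F q : E n →ₗ[ℝ] E n) (h.AA_inj hq)
  refine ⟨e.toContinuousLinearEquiv, ?_⟩
  ext v
  rfl

theorem IsMCF.AA_RR {q : ℝ × E n} (hq : q ∈ QT n T) (v : E n) : AA F q (RR F q v) = v := by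
  obtain ⟨e, he⟩ := h.AA_inv hq
  rw [RR, ← he, ContinuousLinearMap.inverse_equiv]
  simp

theorem IsMCF.RR_AA {q : ℝ × E n} (hq : q ∈ QT n T) (v : E n) : RR F q (AA F q v) = v := by
  obtain ⟨e, he⟩ := h.AA_inv hq
  rw [RR, ← he, ContinuousLinearMap.inverse_equiv]
  simp

/-! ### Smoothness -/

theorem IsMCF.cq_L : CQ T (LL F) := by
  unfold CQ
  rw [contDiffOn_clm_apply]
  intro v
  exact h.cq.dv v

theorem IsMCF.cq_LA {Φ : ℝ × E n → V} (hΦ : CQ T Φ) : CQ T (fun q => LA F q (Φ q)) := by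
  unfold CQ
  rw [contDiffOn_euclidean]
  intro i
  have h1 : ∀ q, (LA F q (Φ q)) i = inner ℝ (Φ q) (LL F q (EuclideanSpace.single i 1)) := by
    intro q
    rw [← inner_LA, real_inner_comm, EuclideanSpace.inner_single_left]
    simp
  simp only [h1]
  exact ContDiffOn.inner ℝ hΦ (h.cq.dv _)

theorem IsMCF.cq_A : CQ T (AA F) := by
  unfold CQ
  rw [contDiffOn_clm_apply]
  intro u
  rw [contDiffOn_euclidean]
  intro i
  have h1 : ∀ q : ℝ × E n, (AA F q u) i =
      inner ℝ (LL F q u) (LL F q (EuclideanSpace.single i 1)) +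
      inner ℝ q.2 u * inner ℝ q.2 (EuclideanSpace.single i (1 : ℝ)) := by
    intro q
    rw [← inner_AA, real_inner_comm, EuclideanSpace.inner_single_left]
    simp
  simp only [h1]
  refine ContDiffOn.add (ContDiffOn.inner ℝ (h.cq.dv _) (h.cq.dv _)) ?_
  exact ContDiffOn.mul (ContDiffOn.inner ℝ contDiffOn_snd contDiffOn_const)
    (ContDiffOn.inner ℝ contDiffOn_snd contDiffOn_const)

theorem IsMCF.cq_R : CQ T (RR F) := by
  intro q hq
  have h1 := (h.AA_inv hq).contDiffAt_map_inverse (n := ∞)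
  exact h1.comp_contDiffWithinAt q (h.cq_A q hq)

theorem IsMCF.cq_cof {Φ : ℝ × E n → V} (hΦ : CQ T Φ) : CQ T (cof F Φ) :=
  ContDiffOn.clm_apply h.cq_R (h.cq_LA hΦ)

/-! ### The normal equations -/

theorem IsMCF.cof_eq (Φ : ℝ × E n → V) {q : ℝ × E n} (hq : q ∈ QT n T) (v : E n) :
    inner ℝ (LL F q (cof F Φ q)) (LL F q v) + inner ℝ q.2 (cof F Φ q) * inner ℝ q.2 v =
      inner ℝ (Φ q) (LL F q v) := by
  rw [← inner_AA, cof, h.AA_RR hq, inner_LA]

theorem IsMCF.cof_perp (Φ : ℝ × E n → V) {q : ℝ × E n} (hq : q ∈ QT n T) :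
    inner ℝ q.2 (cof F Φ q) = 0 := by
  have h1 := h.cof_eq Φ hq q.2
  rw [h.LL_self hq, inner_zero_right, inner_zero_right, zero_add, real_inner_self_eq_norm_sq] at h1
  have hn : 0 < ‖q.2‖ := norm_pos_iff.2 hq.2
  exact (mul_eq_zero.1 h1).resolve_right (by positivity)

theorem IsMCF.cof_inner (Φ : ℝ × E n → V) {q : ℝ × E n} (hq : q ∈ QT n T) (v : E n) :
    inner ℝ (LL F q (cof F Φ q)) (LL F q v) = inner ℝ (Φ q) (LL F q v) := by
  have h1 := h.cof_eq Φ hq v
  rw [h.cof_perp Φ hq, zero_mul, add_zero] at h1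
  exact h1

/-- The operator `R` in terms of a frame. -/
theorem IsMCF.RR_frame {q : ℝ × E n} (hq : q ∈ QT n T) {e : Fin n → E n}
    (he1 : ∀ i, inner ℝ q.2 (e i) = 0)
    (he2 : ∀ i j, inner ℝ (LL F q (e i)) (LL F q (e j)) = if i = j then (1 : ℝ) else 0)
    (hex : ∀ v : E n, ∃ c : ℝ, ∃ p : Fin n → ℝ, v = c • q.2 + ∑ i, p i • e i) (w : E n) :
    RR F q w = ∑ i, inner ℝ (e i) w • e i + (‖q.2‖ ^ 2)⁻¹ ^ 2 • inner ℝ q.2 w • q.2 := by
  have hn : ‖q.2‖ ≠ 0 := norm_ne_zero_iff.2 hq.2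
  apply h.AA_inj hq
  rw [h.AA_RR hq]
  apply ext_inner_right ℝ
  intro v
  obtain ⟨c, p, rfl⟩ := hex v
  rw [inner_AA]
  simp only [map_add, map_sum, map_smul, h.LL_self hq, smul_zero, add_zero, zero_add,
    sum_inner, inner_sum, real_inner_smul_left, real_inner_smul_right, he2, inner_add_right,
    he1, mul_zero, Finset.sum_const_zero, real_inner_self_eq_norm_sq]
  simp only [mul_ite, mul_one, mul_zero, Finset.sum_ite_eq', Finset.mem_univ,
    if_true]
  rw [real_inner_comm w q.2]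
  have h1 : ∑ x, p x * inner ℝ w (e x) = ∑ x, p x * inner ℝ (e x) w := by
    refine Finset.sum_congr rfl fun i _ => ?_
    rw [real_inner_comm]
  rw [h1, add_comm]
  congr 1
  · field_simp

end

end Pool.Agent.TH616.MCF
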