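import Mathlib
import Pool.Agent.TH616.MOp

/-! Frames in space-time, and the velocity of the flow. -/

set_option linter.unusedSectionVars false

open Set Metric Filter Topology
open scoped ContDiff

namespace Pool.Agent.TH616.MCF

variable {n : ℕ} {V : Type*} [NormedAddCommGroup V] [InnerProductSpace ℝ V]
  [FiniteDimensional ℝ V]

/-- The standard basis. -/
noncomputable def ep (i : Fin (n + 1)) : E n := EuclideanSpace.single i 1

theorem inner_ep (w : E n) (i : Fin (n + 1)) : inner ℝ w (ep i) = w i := by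
  rw [real_inner_comm, ep, EuclideanSpace.inner_single_left]
  simp

theorem ep_expand (w : E n) : ∑ i, w i • ep i = w := by
  have h := (EuclideanSpace.basisFun (Fin (n + 1)) ℝ).sum_repr w
  simpa [ep] using h

theorem sum_ep {W : Type*} [NormedAddCommGroup W] [NormedSpace ℝ W] (β : E n →L[ℝ] W) (w : E n) :
    ∑ i, w i • β (ep i) = β w := by
  conv_rhs => rw [← ep_expand w]
  simp only [map_sum, map_smul]

theorem sum_coord {W : Type*} [NormedAddCommGroup W] [NormedSpace ℝ W] (β : E n →L[ℝ] W)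
    (w : E n) : ∑ i, inner ℝ w (ep i) • β (ep i) = β w := by
  simp only [inner_ep]
  exact sum_ep β w

/-- A frame at a point of space-time. -/
structure Fr (F : ℝ → S n → V) (q : ℝ × E n) (e : Fin n → E n) : Prop where
  perp : ∀ i, inner ℝ q.2 (e i) = 0
  orth : ∀ i j, inner ℝ (LL F q (e i)) (LL F q (e j)) = if i = j then (1 : ℝ) else 0
  span : ∀ v : E n, ∃ c : ℝ, ∃ p : Fin n → ℝ, v = c • q.2 + ∑ i, p i • e i

section

variable {F₀ : S n → V} {T : ℝ} {F : ℝ → S n → V} (h : IsMCF F₀ (T : EReal) F)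
include h

theorem IsMCF.fr_of_frame {t : ℝ} {x : S n} (hq : (t, (x : E n)) ∈ QT n T) {e : Fin n → E n}
    (he : IsFrame (F t) x e) : Fr F (t, (x : E n)) e :=
  ⟨he.1, fun i j => he.inner_eq i j, fun v => frame_expand (h.sm hq) he v⟩

theorem IsMCF.fr_scale {q : ℝ × E n} (hq : q ∈ QT n T) {e : Fin n → E n}
    (he : IsFrame (F q.1) (proj q.2) e) : Fr F q (fun i => ‖q.2‖ • e i) := by
  have hn : ‖q.2‖ ≠ 0 := norm_ne_zero_iff.2 hq.2
  have hL : ∀ i, LL F q (‖q.2‖ • e i) = D (F q.1) (proj q.2 : E n) (e i) := by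
    intro i
    rw [LL_apply, D_smul, D_hom (h.sm hq) hq.2, smul_smul, mul_inv_cancel₀ hn, one_smul]
  refine ⟨fun i => ?_, fun i j => ?_, fun v => ?_⟩
  · have h1 := he.1 i
    rw [coe_proj hq.2, real_inner_smul_left] at h1
    rw [real_inner_smul_right, (mul_eq_zero.1 h1).resolve_left (inv_ne_zero hn), mul_zero]
  · rw [hL, hL]
    exact he.inner_eq i j
  · obtain ⟨c, p, hv⟩ := frame_expand (h.sm hq) he v
    refine ⟨c * ‖q.2‖⁻¹, fun i => p i * ‖q.2‖⁻¹, ?_⟩
    rw [hv, coe_proj hq.2, smul_smul]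
    congr 1
    refine Finset.sum_congr rfl fun i _ => ?_
    rw [smul_smul, mul_assoc, inv_mul_cancel₀ hn, mul_one]

theorem IsMCF.exists_fr {q : ℝ × E n} (hq : q ∈ QT n T) : ∃ e, Fr F q e := by
  obtain ⟨e, he⟩ := exists_frame (h.im hq) (proj q.2)
  exact ⟨_, h.fr_scale hq he⟩

theorem IsMCF.R_eq {q : ℝ × E n} (hq : q ∈ QT n T) {e : Fin n → E n} (he : Fr F q e) (w : E n) :
    RR F q w = ∑ i, inner ℝ (e i) w • e i + (‖q.2‖ ^ 2)⁻¹ ^ 2 • inner ℝ q.2 w • q.2 :=
  h.RR_frame hq he.perp he.orth he.span w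

/-- The differential of a vector in terms of a frame. -/
theorem IsMCF.L_frame {q : ℝ × E n} (hq : q ∈ QT n T) {e : Fin n → E n} (he : Fr F q e)
    (v : E n) : LL F q v = ∑ i, inner ℝ (LL F q v) (LL F q (e i)) • LL F q (e i) := by
  obtain ⟨c, p, hv⟩ := he.span v
  have h1 : LL F q v = ∑ i, p i • LL F q (e i) := by
    rw [hv]
    simp only [map_add, map_smul, map_sum, h.LL_self hq, smul_zero, zero_add]
  have h2 : ∀ i, inner ℝ (LL F q v) (LL F q (e i)) = p i := by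
    intro i
    rw [h1, sum_inner]
    simp only [real_inner_smul_left, he.orth]
    simp
  simp only [h2]
  exact h1

/-! ### Derivatives -/

theorem IsMCF.co : CO T (GG F) := h.cq.co

theorem IsMCF.co_L : CO T (LL F) := h.cq_L.co

theorem IsMCF.L_da {q : ℝ × E n} (hq : q ∈ QO n T) (v : E n) : LL F q v = da (0, v) (GG F) q := by
  rw [← h.co.dv_eq hq]
  rfl

theorem IsMCF.dL_app {q : ℝ × E n} (hq : q ∈ QO n T) (a : ℝ × E n) (v : E n) :
    da a (fun q => LL F q v) q = da a (LL F) q v := by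
  have h1 := h.co_L.da_app (contDiffOn_const (c := v)) hq a
  rw [h1, da_const, map_zero, add_zero]

theorem IsMCF.dL_da {q : ℝ × E n} (hq : q ∈ QO n T) (a : ℝ × E n) (v : E n) :
    da a (LL F) q v = da a (da (0, v) (GG F)) q := by
  rw [← h.dL_app hq, da_congr (fun p hp => h.L_da hp v) hq]

theorem IsMCF.dL_symm {q : ℝ × E n} (hq : q ∈ QO n T) (u v : E n) :
    da (0, u) (LL F) q v = da (0, v) (LL F) q u := by
  rw [h.dL_da hq, h.dL_da hq, h.co.comm hq]

theorem IsMCF.dL_D2 {q : ℝ × E n} (hq : q ∈ QO n T) (u v : E n) :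
    da (0, u) (LL F) q v = D2 (F q.1) q.2 u v := by
  rw [h.dL_da hq]
  have h1 : ∀ p ∈ QO n T, da (0, v) (GG F) p = dv v (GG F) p :=
    fun p hp => (h.co.dv_eq hp v).symm
  rw [da_congr h1 hq, ← ((h.cq.dv v).co).dv_eq hq]
  rfl

/-- The derivative of the identity `L q q.2 = 0`. -/
theorem IsMCF.dL_self {q : ℝ × E n} (hq : q ∈ QO n T) (u : E n) :
    da (0, u) (LL F) q q.2 = -LL F q u := by
  have h1 := h.co_L.da_app (Φ := fun q : ℝ × E n => q.2) contDiffOn_snd hq (0, u)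
  have h2 : da (0, u) (fun q : ℝ × E n => q.2) q = u := by
    rw [da, fderiv_snd]
    rfl
  have h3 : ∀ p ∈ QO n T, LL F p p.2 = (0 : V) := fun p hp => h.LL_self (QO_sub T hp)
  rw [da_congr (Ψ := fun _ => (0 : V)) h3 hq, da_const, h2] at h1
  exact eq_neg_of_add_eq_zero_left h1.symm

theorem IsMCF.ddL_app {q : ℝ × E n} (hq : q ∈ QO n T) (a b : ℝ × E n) (v : E n) :
    da a (fun q => da b (LL F) q v) q = da a (da b (LL F)) q v := by
  have h1 := (h.co_L.da b).da_app (contDiffOn_const (c := v)) hq a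
  rw [h1, da_const, map_zero, add_zero]

theorem IsMCF.ddL_comm {q : ℝ × E n} (hq : q ∈ QO n T) (a b : ℝ × E n) (v : E n) :
    da a (da b (LL F)) q v = da b (da a (LL F)) q v := by
  rw [h.co_L.comm hq]

theorem IsMCF.ddL_symm {q : ℝ × E n} (hq : q ∈ QO n T) (a : ℝ × E n) (u v : E n) :
    da a (da (0, u) (LL F)) q v = da a (da (0, v) (LL F)) q u := by
  rw [← h.ddL_app hq, ← h.ddL_app hq]
  exact da_congr (fun p hp => h.dL_symm hp u v) hq a

/-- The third derivative in the radial direction. -/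
theorem IsMCF.ddL_self {q : ℝ × E n} (hq : q ∈ QO n T) (u v : E n) :
    da (0, u) (da (0, v) (LL F)) q q.2 = -(2 : ℝ) • da (0, u) (LL F) q v := by
  have h1 := (h.co_L.da (0, v)).da_app (Φ := fun q : ℝ × E n => q.2) contDiffOn_snd hq (0, u)
  have h2 : da (0, u) (fun q : ℝ × E n => q.2) q = u := by
    rw [da, fderiv_snd]
    rfl
  rw [da_congr (fun p hp => h.dL_self hp v) hq, h2] at h1
  have h3 : da (0, u) (fun p => -LL F p v) q = -da (0, u) (LL F) q v := by
    have h4 := h.co_L.app (Φ := fun _ => v) contDiffOn_const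
    have h5 := (h4.hasFDerivAt hq).neg
    have h6 : HasFDerivAt (fun p => -LL F p v) (-fderiv ℝ (fun p => LL F p v) q) q := h5
    rw [da, h6.fderiv, ← h.dL_app hq]
    rfl
  rw [h3, h.dL_symm hq v u] at h1
  rw [neg_smul, two_smul]
  have h4 : da (0, u) (da (0, v) (LL F)) q q.2 =
      -da (0, u) (LL F) q v - da (0, u) (LL F) q v := by
    rw [h1]
    abel
  rw [h4]
  abel

/-! ### The velocity -/

theorem IsMCF.dt_G {q : ℝ × E n} (hq : q ∈ QO n T) {e : Fin n → E n}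
    (he : IsFrame (F q.1) (proj q.2) e) :
    da (1, 0) (GG F) q = meanCurv (F q.1) (proj q.2) e := by
  have h1 := h.co.hasDerivAt_time hq
  have h2 := h.flow q.1 (by rw [Time_coe]; exact (QO_sub T hq).1) (proj q.2) e he
  rw [Time_coe] at h2
  have h3 := h2.hasDerivAt (Ico_mem_nhds hq.1.1 hq.1.2)
  exact h1.unique h3

theorem IsMCF.G_L {q : ℝ × E n} (hq : q ∈ QT n T) (v : E n) :
    inner ℝ (GG F q) (LL F q v) = 0 := by
  rw [real_inner_comm, LL_apply]
  exact inner_D_self (h.sm hq) (h.nor1 hq) hq.2 v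

theorem IsMCF.G_G {q : ℝ × E n} (hq : q ∈ QT n T) : inner ℝ (GG F q) (GG F q) = 1 := by
  rw [real_inner_self_eq_norm_sq, GG, h.nor1 hq, one_pow]

/-- The trace of the second derivative. -/
noncomputable def ZZ (F : ℝ → S n → V) (q : ℝ × E n) : V :=
  ∑ i, da (0, ep i) (LL F) q (RR F q (ep i))

theorem IsMCF.co_Z : CO T (ZZ F) := by
  have : ∀ i : Fin (n + 1), CO T (fun q => da (0, ep i) (LL F) q (RR F q (ep i))) := by
    intro i
    exact (h.co_L.da _).app ((h.cq_R.co).app contDiffOn_const)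
  exact ContDiffOn.sum fun i _ => this i

/-- The trace of a bilinear map with respect to the induced metric. -/
theorem IsMCF.trace_R {q : ℝ × E n} (hq : q ∈ QT n T) {e : Fin n → E n} (he : Fr F q e)
    {W : Type*} [NormedAddCommGroup W] [NormedSpace ℝ W] (β : E n →L[ℝ] E n →L[ℝ] W) :
    ∑ i, β (ep i) (RR F q (ep i)) =
      ∑ i, β (e i) (e i) + (‖q.2‖ ^ 2)⁻¹ ^ 2 • β q.2 q.2 := by
  have h1 : ∀ i : Fin (n + 1), β (ep i) (RR F q (ep i)) =
      ∑ j, inner ℝ (e j) (ep i) • β (ep i) (e j) +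
        (‖q.2‖ ^ 2)⁻¹ ^ 2 • inner ℝ q.2 (ep i) • β (ep i) q.2 := by
    intro i
    rw [h.R_eq hq he]
    simp only [map_add, map_sum, map_smul]
  simp only [h1]
  rw [Finset.sum_add_distrib, Finset.sum_comm, ← Finset.smul_sum]
  congr 1
  · refine Finset.sum_congr rfl fun j _ => ?_
    exact sum_coord (β.flip (e j)) (e j)
  · congr 1
    exact sum_coord (β.flip q.2) q.2

theorem IsMCF.dL_bil {q : ℝ × E n} (_hq : q ∈ QO n T) :
    ∃ β : E n →L[ℝ] E n →L[ℝ] V, ∀ u v, β u v = da (0, u) (LL F) q v := by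
  refine ⟨(fderiv ℝ (LL F) q).comp (ContinuousLinearMap.inr ℝ ℝ (E n)), fun u v => ?_⟩
  rfl

theorem IsMCF.Z_frame {q : ℝ × E n} (hq : q ∈ QO n T) {e : Fin n → E n} (he : Fr F q e) :
    ZZ F q = ∑ i, da (0, e i) (LL F) q (e i) := by
  obtain ⟨β, hβ⟩ := h.dL_bil hq
  have h1 := h.trace_R (QO_sub T hq) he β
  simp only [hβ] at h1
  rw [ZZ, h1, h.dL_self hq, h.LL_self (QO_sub T hq)]
  simp

theorem IsMCF.L_cof {q : ℝ × E n} (hq : q ∈ QT n T) {e : Fin n → E n} (he : Fr F q e)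
    (Φ : ℝ × E n → V) : LL F q (cof F Φ q) = ∑ i, inner ℝ (Φ q) (LL F q (e i)) • LL F q (e i) := by
  rw [h.L_frame hq he (cof F Φ q)]
  simp only [h.cof_inner Φ hq]

/-- The velocity of the flow. -/
theorem IsMCF.vel {q : ℝ × E n} (hq : q ∈ QO n T) :
    da (1, 0) (GG F) q = ZZ F q - LL F q (cof F (ZZ F) q) + (n : ℝ) • GG F q := by
  have hq' := QO_sub T hq
  have hsm := h.sm hq'
  obtain ⟨e, he⟩ := exists_frame (h.im hq') (proj q.2)
  have hfr := h.fr_scale hq' he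
  have hn : ‖q.2‖ ≠ 0 := norm_ne_zero_iff.2 hq.2
  have hL : ∀ i, LL F q (‖q.2‖ • e i) = D (F q.1) (proj q.2 : E n) (e i) := by
    intro i
    rw [LL_apply, D_smul, D_hom hsm hq.2, smul_smul, mul_inv_cancel₀ hn, one_smul]
  have hZ : ZZ F q = ∑ i, D2 (F q.1) (proj q.2 : E n) (e i) (e i) := by
    rw [h.Z_frame hq hfr]
    refine Finset.sum_congr rfl fun i _ => ?_
    rw [h.dL_D2 hq, IsSmooth.D2_smul_left, hsm.D2_smul_right _ hq.2, D2_hom hsm hq.2, smul_smul,
      smul_smul]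
    have : ‖q.2‖ * ‖q.2‖ * (‖q.2‖⁻¹ * ‖q.2‖⁻¹) = 1 := by field_simp
    rw [this, one_smul]
  rw [h.dt_G hq he, h.L_cof hq' hfr, meanCurv]
  simp only [hL, sff, nor]
  have h2 : ∀ i, inner ℝ (D2 (F q.1) (proj q.2 : E n) (e i) (e i)) (F q.1 (proj q.2)) =
      -(1 : ℝ) := by
    intro i
    rw [inner_D2_self hsm (h.nor1 hq') (he.1 i), he.2.1 i]
    norm_num
  simp only [h2, Finset.sum_sub_distrib]
  rw [← hZ, Finset.sum_comm]
  have h3 : ∀ j, ∑ i, inner ℝ (D2 (F q.1) (proj q.2 : E n) (e i) (e i))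
      (D (F q.1) (proj q.2 : E n) (e j)) • D (F q.1) (proj q.2 : E n) (e j) =
      inner ℝ (ZZ F q) (D (F q.1) (proj q.2 : E n) (e j)) •
        D (F q.1) (proj q.2 : E n) (e j) := by
    intro j
    rw [← Finset.sum_smul, hZ, sum_inner]
  simp only [h3, neg_smul, one_smul, Finset.sum_neg_distrib, Finset.sum_const,
    Finset.card_univ, Fintype.card_fin, GG]
  rw [← Nat.cast_smul_eq_nsmul ℝ n]
  abel

theorem IsMCF.vel_L {q : ℝ × E n} (hq : q ∈ QO n T) (v : E n) :
    inner ℝ (da (1, 0) (GG F) q) (LL F q v) = 0 := by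
  rw [h.vel hq, inner_add_left, inner_sub_left, h.cof_inner _ (QO_sub T hq),
    real_inner_smul_left, h.G_L (QO_sub T hq)]
  ring

end

end Pool.Agent.TH616.MCF
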