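import Mathlib
import Pool.Agent.TH616.MFr

/-! The evolution of the normal component of a rotation field. -/

set_option linter.unusedSectionVars false

open Set Metric Filter Topology
open scoped ContDiff

namespace Pool.Agent.TH616.MCF

variable {n : ℕ} {V : Type*} [NormedAddCommGroup V] [InnerProductSpace ℝ V]
  [FiniteDimensional ℝ V]

/-- The normal component of the field `y ↦ B y` along the flow. -/
noncomputable def WW (B : V →L[ℝ] V) (F : ℝ → S n → V) (q : ℝ × E n) : V :=
  B (GG F q) - LL F q (cof F (fun p => B (GG F p)) q)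

section

variable {F₀ : S n → V} {T : ℝ} {F : ℝ → S n → V} (h : IsMCF F₀ (T : EReal) F)
  (B : V →L[ℝ] V)
include h

theorem IsMCF.cq_B : CQ T (fun q => B (GG F q)) := B.contDiff.comp_contDiffOn h.cq

theorem IsMCF.cq_c : CQ T (cof F (fun p => B (GG F p))) := h.cq_cof (h.cq_B B)

theorem IsMCF.cq_W : CQ T (WW B F) :=
  ContDiffOn.sub (h.cq_B B) (ContDiffOn.clm_apply h.cq_L (h.cq_c B))

theorem IsMCF.W_L {q : ℝ × E n} (hq : q ∈ QT n T) (v : E n) :
    inner ℝ (WW B F q) (LL F q v) = 0 := by
  rw [WW, inner_sub_left, h.cof_inner _ hq, sub_self]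

theorem skew_self {B : V →L[ℝ] V} (hB : ∀ x y, inner ℝ (B x) y = -inner ℝ x (B y)) (x : V) :
    inner ℝ (B x) x = 0 := by
  have h1 := hB x x
  rw [real_inner_comm] at h1
  have h2 := real_inner_comm (B x) x
  linarith

theorem IsMCF.W_G {B : V →L[ℝ] V} (hB : ∀ x y, inner ℝ (B x) y = -inner ℝ x (B y))
    {q : ℝ × E n} (hq : q ∈ QT n T) : inner ℝ (WW B F q) (GG F q) = 0 := by
  have h1 : inner ℝ (B (GG F q)) (GG F q) = 0 := by
    have h1 := hB (GG F q) (GG F q)
    rw [real_inner_comm] at h1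
    have h2 := real_inner_comm (B (GG F q)) (GG F q)
    linarith
  rw [WW, inner_sub_left, h1, real_inner_comm, h.G_L hq, sub_self]

theorem IsMCF.co_c : CO T (cof F (fun p => B (GG F p))) := (h.cq_c B).co

theorem IsMCF.co_W : CO T (WW B F) := (h.cq_W B).co

theorem IsMCF.da_W {q : ℝ × E n} (hq : q ∈ QO n T) (a : ℝ × E n) :
    da a (WW B F) q = B (da a (GG F) q) -
      (da a (LL F) q (cof F (fun p => B (GG F p)) q) +
        LL F q (da a (cof F (fun p => B (GG F p))) q)) := by
  have h1 := (h.co.clm B).da_sub (h.co_L.app (h.co_c B)) hq a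
  rw [h.co.da_clm B hq, h.co_L.da_app (h.co_c B) hq] at h1
  exact h1

theorem IsMCF.dda_W {q : ℝ × E n} (hq : q ∈ QO n T) (a b : ℝ × E n) :
    da b (da a (WW B F)) q = B (da b (da a (GG F)) q) -
      ((da b (da a (LL F)) q (cof F (fun p => B (GG F p)) q) +
        da a (LL F) q (da b (cof F (fun p => B (GG F p))) q)) +
      (da b (LL F) q (da a (cof F (fun p => B (GG F p))) q) +
        LL F q (da b (da a (cof F (fun p => B (GG F p)))) q))) := by
  rw [da_congr (fun p hp => h.da_W B hp a) hq]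
  have c1 := (h.co.da a).clm B
  have c2 := (h.co_L.da a).app (h.co_c B)
  have c3 := h.co_L.app ((h.co_c B).da a)
  have h1 := c1.da_sub (c2.add c3) hq b
  rw [(h.co.da a).da_clm B hq, c2.da_add c3 hq, (h.co_L.da a).da_app (h.co_c B) hq,
    h.co_L.da_app ((h.co_c B).da a) hq] at h1
  exact h1

/-- The inner product with a normal vector of the second derivative. -/
theorem IsMCF.U_dL {q : ℝ × E n} (hq : q ∈ QO n T) {e : Fin n → E n} (he : Fr F q e) {U : V}
    (hU : ∀ v, inner ℝ U (LL F q v) = 0) (u w : E n) :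
    inner ℝ U (da (0, u) (LL F) q w) =
      ∑ j, inner ℝ (LL F q w) (LL F q (e j)) * inner ℝ U (da (0, u) (LL F) q (e j)) := by
  obtain ⟨c, p, hw⟩ := he.span w
  have h2 : ∀ i, inner ℝ (LL F q w) (LL F q (e i)) = p i := by
    intro i
    rw [hw]
    simp only [map_add, map_smul, map_sum, h.LL_self (QO_sub T hq), smul_zero, zero_add,
      sum_inner, real_inner_smul_left, he.orth]
    simp
  simp only [h2]
  rw [hw]
  simp only [map_add, map_smul, map_sum, h.dL_self hq, inner_add_right, real_inner_smul_right,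
    inner_neg_right, hU, inner_sum]
  simp

/-- The differentiated normal equations. -/
theorem IsMCF.L_dc {q : ℝ × E n} (hq : q ∈ QO n T) (a : ℝ × E n) (v : E n) :
    inner ℝ (LL F q (da a (cof F (fun p => B (GG F p))) q)) (LL F q v) =
      inner ℝ (B (da a (GG F) q)) (LL F q v) -
      inner ℝ (da a (LL F) q (cof F (fun p => B (GG F p)) q)) (LL F q v) +
      inner ℝ (WW B F q) (da a (LL F) q v) := by
  have h1 := (h.co_W B).da_inner_const (h.co_L.app (Φ := fun _ => v) contDiffOn_const)
    (fun p hp => h.W_L B (QO_sub T hp) v) hq a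
  rw [h.dL_app hq, h.da_W B hq, inner_sub_left, inner_add_left] at h1
  linarith

/-- The derivative of the inverse metric operator. -/
theorem IsMCF.dR {q : ℝ × E n} (hq : q ∈ QO n T) (a : ℝ × E n) (w : E n) :
    da a (RR F) q w = -RR F q (da a (AA F) q (RR F q w)) := by
  have h1 := (h.cq_A.co).da_app ((h.cq_R.co).app (Φ := fun _ => w) contDiffOn_const) hq a
  have h2 := (h.cq_R.co).da_app (Φ := fun _ => w) contDiffOn_const hq a
  have h3 : ∀ p ∈ QO n T, AA F p (RR F p w) = w := fun p hp => h.AA_RR (QO_sub T hp) w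
  rw [da_congr (Ψ := fun _ => w) h3 hq, da_const, h2, da_const, map_zero, add_zero] at h1
  have h4 : AA F q (da a (RR F) q w) = -da a (AA F) q (RR F q w) :=
    eq_neg_of_add_eq_zero_right h1.symm
  have h5 := congrArg (RR F q) h4
  rw [h.RR_AA (QO_sub T hq), map_neg] at h5
  exact h5

theorem IsMCF.dA {q : ℝ × E n} (hq : q ∈ QO n T) (c u v : E n) (hu : inner ℝ q.2 u = 0)
    (hv : inner ℝ q.2 v = 0) :
    inner ℝ (da (0, c) (AA F) q u) v =
      inner ℝ (da (0, c) (LL F) q u) (LL F q v) + inner ℝ (LL F q u) (da (0, c) (LL F) q v) := by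
  have c1 : CO T (fun q => LL F q u) := h.co_L.app (Φ := fun _ => u) contDiffOn_const
  have c2 : CO T (fun q => LL F q v) := h.co_L.app (Φ := fun _ => v) contDiffOn_const
  have c3 : CO T (fun q : ℝ × E n => q.2) := contDiffOn_snd
  have c4 : CO T (fun q => AA F q u) := (h.cq_A.co).app (Φ := fun _ => u) contDiffOn_const
  have c5 : ∀ w : E n, CO T (fun _ : ℝ × E n => w) := fun w => contDiffOn_const
  have d2 : da (0, c) (fun q : ℝ × E n => q.2) q = c := by
    rw [da, fderiv_snd]
    rfl
  have e1 := c4.da_inner (c5 v) hq (0, c)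
  have e2 : ∀ p ∈ QO n T, inner ℝ (AA F p u) v =
      inner ℝ (LL F p u) (LL F p v) + inner ℝ p.2 u * inner ℝ p.2 v :=
    fun p _ => inner_AA F p u v
  rw [da_congr e2 hq] at e1
  have f1 : CO T (fun p : ℝ × E n => inner ℝ p.2 u) := c3.inner (c5 u)
  have f2 : CO T (fun p : ℝ × E n => inner ℝ p.2 v) := c3.inner (c5 v)
  have e3 := (c1.inner c2).da_add (ContDiffOn.mul f1 f2) hq (0, c)
  have e4 : da (0, c) (fun p : ℝ × E n => inner ℝ p.2 u * inner ℝ p.2 v) q = 0 := by
    have g1 := (f1.hasFDerivAt hq).mul (f2.hasFDerivAt hq)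
    have g2 : HasFDerivAt (fun p : ℝ × E n => inner ℝ p.2 u * inner ℝ p.2 v)
      ((inner ℝ q.2 u : ℝ) • fderiv ℝ (fun p : ℝ × E n => inner ℝ p.2 v) q +
        (inner ℝ q.2 v : ℝ) • fderiv ℝ (fun p : ℝ × E n => inner ℝ p.2 u) q) q := g1
    rw [da, g2.fderiv, hu, hv]
    simp
  rw [e3, e4, add_zero, c1.da_inner c2 hq, h.dL_app hq, h.dL_app hq, da_const, inner_zero_right,
    add_zero, (h.cq_A.co).da_app (c5 u) hq, da_const, map_zero, add_zero] at e1
  exact e1.symm

/-- The derivative of the trace, paired with a normal vector. -/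
theorem IsMCF.U_dZ {q : ℝ × E n} (hq : q ∈ QO n T) {e : Fin n → E n} (he : Fr F q e) {U : V}
    (hU : ∀ v, inner ℝ U (LL F q v) = 0) {c : E n} (hc : inner ℝ q.2 c = 0) :
    inner ℝ U (da (0, c) (ZZ F) q) =
      ∑ i, inner ℝ U (da (0, c) (da (0, e i) (LL F)) q (e i)) -
      2 * ∑ i, ∑ j, inner ℝ (da (0, c) (LL F) q (e i)) (LL F q (e j)) *
        inner ℝ U (da (0, e i) (LL F) q (e j)) := by
  have hq' := QO_sub T hq
  have c0 : ∀ i : Fin (n + 1), CO T (fun q => RR F q (ep i)) :=
    fun i => (h.cq_R.co).app contDiffOn_const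
  have c1 : ∀ i : Fin (n + 1), CO T (fun q => da (0, ep i) (LL F) q (RR F q (ep i))) :=
    fun i => (h.co_L.da _).app (c0 i)
  -- the derivative of the sum
  have h1 : da (0, c) (ZZ F) q = ∑ i, (da (0, c) (da (0, ep i) (LL F)) q (RR F q (ep i)) +
      da (0, ep i) (LL F) q (da (0, c) (RR F) q (ep i))) := by
    have g1 : HasFDerivAt (fun p => ∑ i, da (0, ep i) (LL F) p (RR F p (ep i)))
        (∑ i, fderiv ℝ (fun p => da (0, ep i) (LL F) p (RR F p (ep i))) q) q :=
      HasFDerivAt.fun_sum fun i _ => (c1 i).hasFDerivAt hq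
    have g2 : da (0, c) (ZZ F) q =
        ∑ i, da (0, c) (fun p => da (0, ep i) (LL F) p (RR F p (ep i))) q := by
      show fderiv ℝ (fun p => ∑ i, da (0, ep i) (LL F) p (RR F p (ep i))) q (0, c) = _
      rw [g1.fderiv]
      simp [da]
    rw [g2]
    refine Finset.sum_congr rfl fun i _ => ?_
    rw [(h.co_L.da _).da_app (c0 i) hq,
      (h.cq_R.co).da_app (Φ := fun _ => ep i) contDiffOn_const hq, da_const, map_zero, add_zero]
  -- the trilinear part
  have h2 : ∑ i, da (0, c) (da (0, ep i) (LL F)) q (RR F q (ep i)) =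
      ∑ i, da (0, c) (da (0, e i) (LL F)) q (e i) +
        (‖q.2‖ ^ 2)⁻¹ ^ 2 • da (0, c) (da (0, q.2) (LL F)) q q.2 := by
    have key := h.trace_R hq' he ((fderiv ℝ (fderiv ℝ (LL F)) q (0, c)).comp
      (ContinuousLinearMap.inr ℝ ℝ (E n)))
    have hT : ∀ u v, ((fderiv ℝ (fderiv ℝ (LL F)) q (0, c)).comp
        (ContinuousLinearMap.inr ℝ ℝ (E n))) u v = da (0, c) (da (0, u) (LL F)) q v := by
      intro u v
      rw [h.co_L.dda_eq hq]
      rfl
    simp only [hT] at key
    exact key
  -- the part with the derivative of the inverse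
  have h3 : ∀ z : E n, ∀ u, inner ℝ U (da (0, u) (LL F) q (RR F q z)) =
      ∑ j, inner ℝ (e j) z * inner ℝ U (da (0, u) (LL F) q (e j)) := by
    intro z u
    rw [h.R_eq hq' he]
    simp only [map_add, map_smul, map_sum, h.dL_self hq, inner_add_right, real_inner_smul_right,
      inner_neg_right, hU, inner_sum]
    simp
  have h4 : ∑ i, inner ℝ U (da (0, ep i) (LL F) q (da (0, c) (RR F) q (ep i))) =
      -∑ i, ∑ j, inner ℝ (e j) (da (0, c) (AA F) q (e i)) *
        inner ℝ U (da (0, e i) (LL F) q (e j)) := by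
    have g1 : ∀ i : Fin (n + 1), inner ℝ U (da (0, ep i) (LL F) q (da (0, c) (RR F) q (ep i))) =
        -∑ j, inner ℝ (e j) (da (0, c) (AA F) q (RR F q (ep i))) *
          inner ℝ U (da (0, e j) (LL F) q (ep i)) := by
      intro i
      rw [h.dR hq, map_neg, inner_neg_right, h3]
      congr 1
      refine Finset.sum_congr rfl fun j _ => ?_
      rw [h.dL_symm hq]
    simp only [g1]
    rw [Finset.sum_neg_distrib, Finset.sum_comm]
    congr 1
    rw [Finset.sum_comm (f := fun i j => inner ℝ (e j) (da (0, c) (AA F) q (e i)) *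
      inner ℝ U (da (0, e i) (LL F) q (e j)))]
    refine Finset.sum_congr rfl fun j _ => ?_
    have key := h.trace_R hq' he (((innerSL ℝ U).comp (da (0, e j) (LL F) q)).smulRight
      ((innerSL ℝ (e j)).comp (da (0, c) (AA F) q)))
    simp only [ContinuousLinearMap.smulRight_apply, ContinuousLinearMap.comp_apply,
      innerSL_apply_apply, smul_apply, smul_eq_mul, h.dL_self hq, inner_neg_right, hU, neg_zero,
      zero_mul, mul_zero, add_zero] at key
    simp only [mul_comm (inner ℝ (e j) _)]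
    rw [key]
    refine Finset.sum_congr rfl fun i _ => ?_
    rw [h.dL_symm hq]
  have h5 : ∀ i j, inner ℝ (e j) (da (0, c) (AA F) q (e i)) =
      inner ℝ (da (0, c) (LL F) q (e i)) (LL F q (e j)) +
        inner ℝ (da (0, c) (LL F) q (e j)) (LL F q (e i)) := by
    intro i j
    rw [real_inner_comm, h.dA hq c _ _ (he.perp i) (he.perp j),
      real_inner_comm (LL F q (e i)) (da (0, c) (LL F) q (e j))]
  have h6 : ∑ i, ∑ j, inner ℝ (e j) (da (0, c) (AA F) q (e i)) *
        inner ℝ U (da (0, e i) (LL F) q (e j)) =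
      2 * ∑ i, ∑ j, inner ℝ (da (0, c) (LL F) q (e i)) (LL F q (e j)) *
        inner ℝ U (da (0, e i) (LL F) q (e j)) := by
    simp only [h5, add_mul, Finset.sum_add_distrib]
    rw [two_mul]
    congr 1
    rw [Finset.sum_comm]
    refine Finset.sum_congr rfl fun i _ => Finset.sum_congr rfl fun j _ => ?_
    rw [h.dL_symm hq (e j) (e i)]
  rw [h1, inner_sum]
  simp only [inner_add_right, Finset.sum_add_distrib]
  rw [h4, h6, ← inner_sum, h2, h.ddL_self hq, inner_add_right, inner_sum, inner_smul_right,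
    inner_smul_right, h.dL_self hq, inner_neg_right, hU]
  ring

/-- The evolution of the normal component of the rotation field. -/
theorem IsMCF.evol {B : V →L[ℝ] V} (hB : ∀ x y, inner ℝ (B x) y = -inner ℝ x (B y))
    {q : ℝ × E n} (hq : q ∈ QO n T) {e : Fin n → E n} (he : Fr F q e) {U : V}
    (hU : ∀ v, inner ℝ U (LL F q v) = 0)
    (h1 : ∀ i, inner ℝ U (da (0, e i) (WW B F) q) = 0) :
    inner ℝ U (da (1, 0) (WW B F) q) - ∑ i, inner ℝ U (da (0, e i) (da (0, e i) (WW B F)) q) =
      n * inner ℝ U (B (GG F q)) +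
      2 * ∑ i, ∑ j, inner ℝ (WW B F q) (da (0, e i) (LL F) q (e j)) *
        inner ℝ U (da (0, e i) (LL F) q (e j)) := by
  have hq' := QO_sub T hq
  set Φ : ℝ × E n → V := fun p => B (GG F p) with hΦ
  set c := cof F Φ q with hc
  have hcp : inner ℝ q.2 c = 0 := h.cof_perp Φ hq'
  -- the first order condition
  have k1 : ∀ i, inner ℝ U (B (LL F q (e i))) = inner ℝ U (da (0, e i) (LL F) q c) := by
    intro i
    have := h1 i
    rw [h.da_W B hq, inner_sub_right, inner_add_right, hU, add_zero, ← h.L_da hq] at this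
    linarith
  -- the time derivative
  have k2 : inner ℝ U (da (1, 0) (WW B F) q) =
      inner ℝ U (B (da (1, 0) (GG F) q)) - inner ℝ U (da (0, c) (da (1, 0) (GG F)) q) := by
    rw [h.da_W B hq, inner_sub_right, inner_add_right, hU, add_zero, h.dL_da hq, h.co.comm hq]
  have k3 : inner ℝ U (da (0, c) (da (1, 0) (GG F)) q) =
      inner ℝ U (da (0, c) (ZZ F) q) - inner ℝ U (da (0, c) (LL F) q (cof F (ZZ F) q)) := by
    have c1 := h.co_Z
    have c2 : CO T (cof F (ZZ F)) := by
      have g1 : CO T (fun q => LA F q (ZZ F q)) := by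
        unfold CO
        rw [contDiffOn_euclidean]
        intro i
        have g2 : ∀ q, (LA F q (ZZ F q)) i =
            inner ℝ (ZZ F q) (LL F q (EuclideanSpace.single i 1)) := by
          intro q
          rw [← inner_LA, real_inner_comm, EuclideanSpace.inner_single_left]
          simp
        simp only [g2]
        exact ContDiffOn.inner ℝ c1 (h.co_L.app (Φ := fun _ => EuclideanSpace.single i (1 : ℝ))
          contDiffOn_const)
      exact (h.cq_R.co).app g1
    have c3 := h.co_L.app c2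
    have c4 : CO T (fun q => (n : ℝ) • GG F q) := ContDiffOn.const_smul _ h.co
    rw [da_congr (fun p hp => h.vel hp) hq, (c1.sub c3).da_add c4 hq, c1.da_sub c3 hq,
      h.co_L.da_app c2 hq]
    have g3 : da (0, c) (fun q => (n : ℝ) • GG F q) q = (n : ℝ) • LL F q c := by
      have g4 : HasFDerivAt (fun q => (n : ℝ) • GG F q) ((n : ℝ) • fderiv ℝ (GG F) q) q :=
        (h.co.hasFDerivAt hq).const_smul _
      rw [da, g4.fderiv, h.L_da hq]
      rfl
    rw [g3, inner_add_right, inner_sub_right, inner_add_right, hU, inner_smul_right, hU]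
    ring
  have k4 : inner ℝ U (B (da (1, 0) (GG F) q)) =
      inner ℝ U (B (ZZ F q)) - inner ℝ U (B (LL F q (cof F (ZZ F) q))) +
        n * inner ℝ U (B (GG F q)) := by
    rw [h.vel hq, map_add, map_sub, map_smul, inner_add_right, inner_sub_right, inner_smul_right]
  have k5 : inner ℝ U (B (LL F q (cof F (ZZ F) q))) =
      inner ℝ U (da (0, c) (LL F) q (cof F (ZZ F) q)) := by
    rw [h.U_dL hq he hU, h.L_cof hq' he]
    simp only [map_sum, map_smul, inner_sum, inner_smul_right, k1]
    refine Finset.sum_congr rfl fun j _ => ?_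
    rw [← h.L_cof hq' he, h.cof_inner _ hq', h.dL_symm hq]
  -- the second derivatives
  have k6 : ∀ i, inner ℝ U (da (0, e i) (da (0, e i) (WW B F)) q) =
      inner ℝ U (B (da (0, e i) (LL F) q (e i))) -
      inner ℝ U (da (0, c) (da (0, e i) (LL F)) q (e i)) -
      2 * inner ℝ U (da (0, e i) (LL F) q (da (0, e i) (cof F Φ) q)) := by
    intro i
    rw [h.dda_W B hq, inner_sub_right, inner_add_right, inner_add_right, inner_add_right, hU,
      ← h.dL_da hq]
    have g1 : da (0, e i) (da (0, e i) (LL F)) q c = da (0, c) (da (0, e i) (LL F)) q (e i) := by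
      rw [h.ddL_symm hq, h.ddL_comm hq]
    rw [← hΦ, ← hc, g1]
    ring
  have k7 : ∀ i, inner ℝ U (da (0, e i) (LL F) q (da (0, e i) (cof F Φ) q)) =
      ∑ j, (inner ℝ (B (LL F q (e i))) (LL F q (e j)) -
        inner ℝ (da (0, c) (LL F) q (e i)) (LL F q (e j)) +
        inner ℝ (WW B F q) (da (0, e i) (LL F) q (e j))) *
        inner ℝ U (da (0, e i) (LL F) q (e j)) := by
    intro i
    rw [h.U_dL hq he hU]
    refine Finset.sum_congr rfl fun j _ => ?_
    have := h.L_dc B hq (0, e i) (e j)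
    rw [← hΦ, ← hc, ← h.L_da hq, h.dL_symm hq (e i) c] at this
    rw [this]
  have k8 : ∑ i, ∑ j, inner ℝ (B (LL F q (e i))) (LL F q (e j)) *
      inner ℝ U (da (0, e i) (LL F) q (e j)) = 0 := by
    have g1 : ∑ i, ∑ j, inner ℝ (B (LL F q (e i))) (LL F q (e j)) *
        inner ℝ U (da (0, e i) (LL F) q (e j)) =
        -∑ i, ∑ j, inner ℝ (B (LL F q (e i))) (LL F q (e j)) *
        inner ℝ U (da (0, e i) (LL F) q (e j)) := by
      conv_lhs => rw [Finset.sum_comm]
      rw [← Finset.sum_neg_distrib]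
      refine Finset.sum_congr rfl fun i _ => ?_
      rw [← Finset.sum_neg_distrib]
      refine Finset.sum_congr rfl fun j _ => ?_
      rw [hB, real_inner_comm, h.dL_symm hq]
      ring
    linarith
  have k9 : inner ℝ U (B (ZZ F q)) = ∑ i, inner ℝ U (B (da (0, e i) (LL F) q (e i))) := by
    rw [h.Z_frame hq he, map_sum, inner_sum]
  have k10 := h.U_dZ hq he hU hcp
  rw [k2, k3, k4, k5, k9, k10]
  simp only [k6, k7, Finset.sum_sub_distrib, ← Finset.mul_sum, add_mul, sub_mul,
    Finset.sum_add_distrib, k8]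
  ring

end

end Pool.Agent.TH616.MCF
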