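import Mathlib
import Pool.Agent.TH616.MEvo

/-! Bounds on compact time intervals, and the vanishing of the normal component of a rotation
field. -/

set_option linter.unusedSectionVars false

open Set Metric Filter Topology
open scoped ContDiff

namespace Pool.Agent.TH616.MCF

theorem max_principle {K : Type*} [TopologicalSpace K] [CompactSpace K] {T M : ℝ}
    (ψ ψ' : ℝ → K → ℝ)
    (hc : ContinuousOn (fun q : ℝ × K => ψ q.1 q.2) (Ico 0 T ×ˢ univ))
    (hd : ∀ t ∈ Ico 0 T, ∀ x, HasDerivWithinAt (fun s => ψ s x) (ψ' t x) (Ico 0 T) t)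
    (h0 : ∀ x, ψ 0 x ≤ M)
    (hm : ∀ t ∈ Ico 0 T, ∀ x, (∀ y, ψ t y ≤ ψ t x) → M < ψ t x → ψ' t x ≤ 0) :
    ∀ t ∈ Ico 0 T, ∀ x, ψ t x ≤ M := by
  intro t₁ ht₁ x₁
  by_contra hcon
  push Not at hcon
  obtain ⟨ε, hε, hε2⟩ : ∃ ε > 0, M < ψ t₁ x₁ - ε * t₁ := by
    refine ⟨(ψ t₁ x₁ - M) / (2 * (t₁ + 1)), ?_, ?_⟩
    · have := ht₁.1
      apply div_pos (by linarith) (by linarith)
    · have h1 := ht₁.1
      have h2 : (ψ t₁ x₁ - M) / (2 * (t₁ + 1)) * t₁ < ψ t₁ x₁ - M := by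
        rw [div_mul_eq_mul_div, div_lt_iff₀ (by linarith)]
        nlinarith
      linarith
  have hsub : Icc 0 t₁ ×ˢ (univ : Set K) ⊆ Ico 0 T ×ˢ univ :=
    prod_mono (fun s hs => ⟨hs.1, hs.2.trans_lt ht₁.2⟩) subset_rfl
  have hcomp : IsCompact (Icc 0 t₁ ×ˢ (univ : Set K)) := isCompact_Icc.prod isCompact_univ
  obtain ⟨⟨t₂, x₂⟩, hq, hmax⟩ := hcomp.exists_isMaxOn (f := fun q : ℝ × K => ψ q.1 q.2 - ε * q.1)
    ⟨(t₁, x₁), ⟨⟨ht₁.1, le_rfl⟩, mem_univ _⟩⟩ ((hc.mono hsub).sub (by fun_prop))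
  have ht₂ : t₂ ∈ Icc 0 t₁ := hq.1
  have hval : M < ψ t₂ x₂ - ε * t₂ :=
    hε2.trans_le (hmax (show (t₁, x₁) ∈ _ from ⟨⟨ht₁.1, le_rfl⟩, mem_univ _⟩))
  have ht₂' : 0 < t₂ := by
    rcases ht₂.1.lt_or_eq with h | h
    · exact h
    · exfalso
      rw [← h] at hval
      have := h0 x₂
      linarith
  have ht₂T : t₂ ∈ Ico 0 T := ⟨ht₂.1, ht₂.2.trans_lt ht₁.2⟩
  have hsp : ∀ y, ψ t₂ y ≤ ψ t₂ x₂ := by
    intro y
    have := hmax (show (t₂, y) ∈ _ from ⟨ht₂, mem_univ _⟩)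
    simp only [mem_ofPred_eq] at this
    linarith
  have hder := hm t₂ ht₂T x₂ hsp (by nlinarith)
  have hD : HasDerivAt (fun s => ψ s x₂ - ε * s) (ψ' t₂ x₂ - ε) t₂ := by
    have h1 : HasDerivAt (fun s => ψ s x₂) (ψ' t₂ x₂) t₂ :=
      (hd t₂ ht₂T x₂).hasDerivAt (Ico_mem_nhds ht₂' ht₂T.2)
    have h2 : HasDerivAt (fun s => ψ s x₂ - ε * s) (ψ' t₂ x₂ - ε * 1) t₂ :=
      h1.sub ((hasDerivAt_id t₂).const_mul ε)
    rwa [mul_one] at h2
  -- contradiction with slope
  have hneg : ψ' t₂ x₂ - ε < 0 := by linarith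
  have hlt : ∀ᶠ s in nhdsWithin t₂ (Iio t₂), ψ t₂ x₂ - ε * t₂ < ψ s x₂ - ε * s := by
    have h1 := hD.hasDerivWithinAt (s := Iio t₂)
    rw [hasDerivWithinAt_iff_tendsto_slope' (by simp)] at h1
    have h2 := h1.eventually (gt_mem_nhds hneg)
    filter_upwards [h2, self_mem_nhdsWithin] with s hs hs2
    have hs2' : s < t₂ := hs2
    rw [slope_def_field, div_neg_iff] at hs
    rcases hs with hs | hs
    · linarith [hs.1]
    · linarith [hs.2]
  have hev : ∀ᶠ s in nhdsWithin t₂ (Iio t₂), s ∈ Ioo 0 t₂ := Ioo_mem_nhdsLT ht₂'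
  obtain ⟨s, hs1, hs2⟩ := (hlt.and hev).exists
  have := hmax (show (s, x₂) ∈ _ from ⟨⟨hs2.1.le, hs2.2.le.trans ht₂.2⟩, mem_univ _⟩)
  simp only [mem_ofPred_eq] at this
  linarith

theorem second_test {g g' : ℝ → ℝ} {a : ℝ} (h1 : ∀ s, HasDerivAt g (g' s) s)
    (h2 : HasDerivAt g' a 0) (hmax : ∀ s, g s ≤ g 0) : g' 0 = 0 ∧ a ≤ 0 := by
  have h3 : IsLocalMax g 0 := Filter.Eventually.of_forall hmax
  have h4 : g' 0 = 0 := h3.hasDerivAt_eq_zero (h1 0)
  refine ⟨h4, ?_⟩
  by_contra ha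
  push Not at ha
  have hd : deriv g = g' := funext fun s => (h1 s).deriv
  have h5 : IsLocalMin g 0 := by
    apply isLocalMin_of_deriv_deriv_pos
    · rw [hd, h2.deriv]
      exact ha
    · rw [hd, h4]
    · exact (h1 0).continuousAt
  have h6 : ∀ᶠ s in nhds (0 : ℝ), g s = g 0 := by
    filter_upwards [h5] with s hs
    exact le_antisymm (hmax s) hs
  have h7 : ∀ᶠ s in nhds (0 : ℝ), g' s = 0 := by
    filter_upwards [h6.eventually_nhds] with s hs
    have h8 : HasDerivAt g 0 s := (hasDerivAt_const s (g 0)).congr_of_eventuallyEq hs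
    exact (h1 s).unique h8
  have h9 : HasDerivAt g' 0 0 := (hasDerivAt_const (0 : ℝ) (0 : ℝ)).congr_of_eventuallyEq h7
  have := h2.unique h9
  linarith

variable {n : ℕ} {V : Type*} [NormedAddCommGroup V] [InnerProductSpace ℝ V]
  [FiniteDimensional ℝ V]

section

variable {F₀ : S n → V} {T : ℝ} {F : ℝ → S n → V} (h : IsMCF F₀ (T : EReal) F)
include h

theorem IsMCF.cont_L : ContinuousOn (LL F) (QT n T) := ContDiffOn.continuousOn h.cq_L

/-- The second derivative as a bilinear map. -/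
theorem IsMCF.cont_D2 (u v : E n) :
    ContinuousOn (fun q : ℝ × E n => D2 (F q.1) q.2 u v) (QT n T) :=
  ContDiffOn.continuousOn ((h.cq.dv v).dv u)

theorem IsMCF.lower {T' : ℝ} (hT : T' < T) :
    ∃ c > 0, ∀ t ∈ Icc 0 T', ∀ x : S n, ∀ v : E n, inner ℝ (x : E n) v = 0 →
      c * ‖v‖ ≤ ‖D (F t) x v‖ := by
  let K : Set (ℝ × (E n × E n)) := (Icc 0 T' ×ˢ (sphere (0 : E n) 1 ×ˢ sphere (0 : E n) 1)) ∩
    {p | inner ℝ p.2.1 p.2.2 = 0}
  have hK : IsCompact K := by
    refine (isCompact_Icc.prod ((isCompact_sphere _ _).prod (isCompact_sphere _ _))).inter_right ?_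
    exact isClosed_eq (by fun_prop) continuous_const
  have hmaps : MapsTo (fun p : ℝ × (E n × E n) => ((p.1, p.2.1) : ℝ × E n)) K (QT n T) := by
    intro p hp
    have h1 : p.1 ∈ Icc 0 T' := hp.1.1
    have h2 : p.2.1 ∈ sphere (0 : E n) 1 := hp.1.2.1
    refine ⟨⟨h1.1, h1.2.trans_lt hT⟩, ?_⟩
    intro h0
    have h0' : p.2.1 = 0 := h0
    rw [h0'] at h2
    simp at h2
  have hc : ContinuousOn (fun p : ℝ × (E n × E n) => LL F (p.1, p.2.1)) K :=
    h.cont_L.comp (by fun_prop) hmaps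
  have hcont : ContinuousOn (fun p : ℝ × (E n × E n) => ‖LL F (p.1, p.2.1) p.2.2‖) K :=
    (hc.clm_apply (by fun_prop)).norm
  obtain ⟨c, hc0, hc1⟩ := hK.exists_forall_le' hcont (a := 0) (by
    intro p hp
    have h1 : p.1 ∈ Icc 0 T' := hp.1.1
    have h2 : p.2.1 ∈ sphere (0 : E n) 1 := hp.1.2.1
    have h3 : p.2.2 ∈ sphere (0 : E n) 1 := hp.1.2.2
    rw [norm_pos_iff]
    intro h4
    have h5 := h.imm p.1 (by rw [Time_coe]; exact ⟨h1.1, h1.2.trans_lt hT⟩) ⟨p.2.1, h2⟩ p.2.2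
      hp.2 h4
    rw [h5] at h3
    simp at h3)
  refine ⟨c, hc0, fun t ht x v hv => ?_⟩
  rcases eq_or_ne v 0 with rfl | hv0
  · simp
  · have hn : 0 < ‖v‖ := norm_pos_iff.2 hv0
    have h1 := hc1 (t, ((x : E n), ‖v‖⁻¹ • v)) ⟨⟨ht, x.2, by simp [norm_smul, hv0]⟩, by
      show inner ℝ (x : E n) (‖v‖⁻¹ • v) = 0
      rw [real_inner_smul_right, hv, mul_zero]⟩
    simp only at h1
    rw [LL_apply, D_smul, norm_smul, norm_inv, norm_norm, inv_mul_eq_div, le_div_iff₀ hn] at h1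
    exact h1

theorem IsMCF.D2_expand {q : ℝ × E n} (hq : q ∈ QT n T) (u v : E n) :
    D2 (F q.1) q.2 u v = ∑ i, u i • ∑ j, v j • D2 (F q.1) q.2 (ep i) (ep j) := by
  have hF := h.sm hq
  have hy : q.2 ≠ 0 := hq.2
  have h1 : D2 (F q.1) q.2 u v =
      fderiv ℝ (fderiv ℝ (fun y : E n => F q.1 (proj y))) q.2 u v := hF.D2_eq hy u v
  rw [h1, ← sum_ep (fderiv ℝ (fderiv ℝ (fun y : E n => F q.1 (proj y))) q.2) u, sum_apply]
  refine Finset.sum_congr rfl fun i _ => ?_
  rw [smul_apply, ← sum_ep (fderiv ℝ (fderiv ℝ (fun y : E n => F q.1 (proj y))) q.2 (ep i)) v]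
  congr 1
  refine Finset.sum_congr rfl fun j _ => ?_
  rw [hF.D2_eq hy]

theorem IsMCF.upper {T' : ℝ} (hT : T' < T) (R : ℝ) :
    ∃ C, ∀ t ∈ Icc 0 T', ∀ x : S n, ∀ u v : E n, ‖u‖ ≤ R → ‖v‖ ≤ R → ‖D2 (F t) x u v‖ ≤ C := by
  let K : Set (ℝ × (E n × (E n × E n))) :=
    Icc 0 T' ×ˢ (sphere (0 : E n) 1 ×ˢ (closedBall (0 : E n) R ×ˢ closedBall (0 : E n) R))
  have hK : IsCompact K := isCompact_Icc.prod ((isCompact_sphere _ _).prod
    ((isCompact_closedBall _ _).prod (isCompact_closedBall _ _)))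
  have hmaps : MapsTo (fun p : ℝ × (E n × (E n × E n)) => ((p.1, p.2.1) : ℝ × E n)) K
      (QT n T) := by
    intro p hp
    have h1 : p.1 ∈ Icc 0 T' := hp.1
    have h2 : p.2.1 ∈ sphere (0 : E n) 1 := hp.2.1
    refine ⟨⟨h1.1, h1.2.trans_lt hT⟩, ?_⟩
    intro h0
    have h0' : p.2.1 = 0 := h0
    rw [h0'] at h2
    simp at h2
  have hc : ∀ i j, ContinuousOn
      (fun p : ℝ × (E n × (E n × E n)) => D2 (F p.1) p.2.1 (ep i) (ep j)) K :=
    fun i j => (h.cont_D2 (ep i) (ep j)).comp (by fun_prop) hmaps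
  have h2 : ContinuousOn
      (fun p : ℝ × (E n × (E n × E n)) => D2 (F p.1) p.2.1 p.2.2.1 p.2.2.2) K := by
    have h3 : ContinuousOn (fun p : ℝ × (E n × (E n × E n)) =>
        ∑ i, p.2.2.1 i • ∑ j, p.2.2.2 j • D2 (F p.1) p.2.1 (ep i) (ep j)) K := by
      refine continuousOn_finsetSum _ fun i _ => ?_
      refine ContinuousOn.smul (by fun_prop) (continuousOn_finsetSum _ fun j _ => ?_)
      exact ContinuousOn.smul (by fun_prop) (hc i j)
    refine h3.congr (fun p hp => ?_)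
    exact h.D2_expand (hmaps hp) p.2.2.1 p.2.2.2
  obtain ⟨C, hC⟩ := hK.exists_bound_of_continuousOn h2
  exact ⟨C, fun t ht x u v hu hv => hC (t, ((x : E n), (u, v))) ⟨ht, x.2, by simpa using hu,
    by simpa using hv⟩⟩

/-- A bound for the second derivatives in a frame. -/
theorem IsMCF.frame_bound {T' : ℝ} (hT : T' < T) :
    ∃ C, 0 ≤ C ∧ ∀ t ∈ Icc 0 T', ∀ x : S n, ∀ e, IsFrame (F t) x e → ∀ i j,
      ‖D2 (F t) x (e i) (e j)‖ ≤ C := by
  obtain ⟨c, hc, h1⟩ := h.lower hT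
  obtain ⟨C, hC⟩ := h.upper hT c⁻¹
  refine ⟨max C 0, le_max_right _ _, fun t ht x e he i j => ?_⟩
  have hb : ∀ i, ‖e i‖ ≤ c⁻¹ := by
    intro i
    have h2 := h1 t ht x (e i) (he.1 i)
    have h3 : ‖D (F t) x (e i)‖ = 1 := he.2.1 i
    rw [h3] at h2
    rw [← one_div, le_div_iff₀ hc]
    linarith
  exact (hC t ht x (e i) (e j) (hb i) (hb j)).trans (le_max_left _ _)

end

section

variable {F₀ : S n → V} {T : ℝ} {F : ℝ → S n → V} (h : IsMCF F₀ (T : EReal) F)
  {B : V →L[ℝ] V} (hB : ∀ x y, inner ℝ (B x) y = -inner ℝ x (B y))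
  (b : E n → E n) (hb : ∀ x : S n, B (F₀ x) = D F₀ x (b x))
include h

theorem IsMCF.W_hom {t : ℝ} {y : E n} (hq : (t, y) ∈ QT n T) :
    WW B F (t, y) = WW B F (t, (proj y : E n)) := by
  have hn : ‖y‖ ≠ 0 := norm_ne_zero_iff.2 hq.2
  have hq2 : (t, (proj y : E n)) ∈ QT n T := ⟨hq.1, coe_ne_zero _⟩
  have hG : GG F (t, (proj y : E n)) = GG F (t, y) := by
    simp only [GG, proj_coe]
  have hL : ∀ v, LL F (t, y) v = ‖y‖⁻¹ • LL F (t, (proj y : E n)) v := by
    intro v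
    rw [LL_apply, LL_apply]
    exact D_hom (h.sm hq) hq.2 v
  -- both are the normal part of the same vector with respect to the same subspace
  set c1 := cof F (fun p => B (GG F p)) (t, y) with hc1
  set c2 := cof F (fun p => B (GG F p)) (t, (proj y : E n)) with hc2
  have e1 : WW B F (t, y) - WW B F (t, (proj y : E n)) =
      LL F (t, y) (‖y‖ • c2 - c1) := by
    have hL2 : LL F (t, y) (‖y‖ • c2) = LL F (t, (proj y : E n)) c2 := by
      rw [hL, map_smul, smul_smul, inv_mul_cancel₀ hn, one_smul]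
    rw [map_sub, hL2, WW, WW, hG, ← hc1, ← hc2]
    abel
  have e3 : inner ℝ (WW B F (t, y)) (WW B F (t, y) - WW B F (t, (proj y : E n))) = (0 : ℝ) := by
    rw [e1]
    exact h.W_L B hq _
  have e4 : inner ℝ (WW B F (t, (proj y : E n)))
      (WW B F (t, y) - WW B F (t, (proj y : E n))) = (0 : ℝ) := by
    rw [e1, hL, real_inner_smul_right, h.W_L B hq2, mul_zero]
  have e2 : inner ℝ (WW B F (t, y) - WW B F (t, (proj y : E n)))
      (WW B F (t, y) - WW B F (t, (proj y : E n))) = (0 : ℝ) := by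
    rw [inner_sub_left, e3, e4, sub_zero]
  rw [inner_self_eq_zero, sub_eq_zero] at e2
  exact e2

include hb in
theorem IsMCF.W_init (hT : 0 < T) (x : S n) : WW B F (0, (x : E n)) = 0 := by
  have hq : ((0, (x : E n)) : ℝ × E n) ∈ QT n T := ⟨⟨le_rfl, hT⟩, coe_ne_zero x⟩
  have hG : GG F (0, (x : E n)) = F₀ x := by
    simp only [GG, proj_coe, h.init]
  have hL : LL F (0, (x : E n)) (b x) = B (F₀ x) := by
    rw [LL_apply, hb]
    simp only [h.init]
  have e1 : WW B F (0, (x : E n)) =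
      LL F (0, (x : E n)) (b x - cof F (fun p => B (GG F p)) (0, (x : E n))) := by
    rw [map_sub, hL, WW, hG]
  have e2 : inner ℝ (WW B F (0, (x : E n))) (WW B F (0, (x : E n))) = (0 : ℝ) := by
    have h1 := h.W_L B hq (b x - cof F (fun p => B (GG F p)) (0, (x : E n)))
    rwa [← e1] at h1
  rwa [inner_self_eq_zero] at e2

include hB hb in
/-- The normal component of the rotation field vanishes. -/
theorem IsMCF.W_le {T' : ℝ} (hT : T' < T) : ∀ t ∈ Ico 0 T', ∀ x : S n,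
    inner ℝ (WW B F (t, (x : E n))) (WW B F (t, (x : E n))) ≤ (0 : ℝ) := by
  intro t₀ ht₀ x₀
  have hT'pos : 0 < T' := ht₀.1.trans_lt ht₀.2
  have hTpos : 0 < T := hT'pos.trans hT
  obtain ⟨C, hC0, hC⟩ := h.frame_bound hT
  set f : ℝ × E n → ℝ := fun q => inner ℝ (WW B F q) (WW B F q) with hf
  set L : ℝ := 2 * n + 4 * (n * (n * C ^ 2)) with hL
  have hcq : CQ T f := ContDiffOn.inner ℝ (h.cq_W B) (h.cq_W B)
  have hco : CO T f := hcq.co
  have hsub : ∀ t ∈ Ico 0 T', t ∈ Ico 0 T := fun t ht => ⟨ht.1, ht.2.trans hT⟩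
  have hdiff : ∀ x : S n, DifferentiableOn ℝ (fun s : ℝ => f (s, (x : E n))) (Ico 0 T') := by
    intro x
    have h1 : ContDiffOn ℝ ∞ (fun s : ℝ => ((s, (x : E n)) : ℝ × E n)) (Ico 0 T') := by
      fun_prop
    have h2 : ContDiffOn ℝ ∞ (fun s : ℝ => f (s, (x : E n))) (Ico 0 T') :=
      ContDiffOn.comp (g := f) hcq h1 (fun s hs => ⟨hsub s hs, coe_ne_zero x⟩)
    exact h2.differentiableOn (by simp)
  have key := max_principle (T := T') (M := 0)
    (fun t (x : S n) => Real.exp (-L * t) * f (t, (x : E n)))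
    (fun t (x : S n) => Real.exp (-L * t) * (-L) * f (t, (x : E n)) +
      Real.exp (-L * t) * derivWithin (fun s : ℝ => f (s, (x : E n))) (Ico 0 T') t)
    ?_ ?_ ?_ ?_
  · have h1 := key t₀ ht₀ x₀
    have h2 : 0 < Real.exp (-L * t₀) := Real.exp_pos _
    by_contra hcon
    push Not at hcon
    have := mul_pos h2 hcon
    linarith
  · have h1 : ContinuousOn (fun q : ℝ × S n => ((q.1, (q.2 : E n)) : ℝ × E n))
        (Ico 0 T' ×ˢ univ) := by
      fun_prop
    have h2 : ContinuousOn (fun q : ℝ × S n => f (q.1, (q.2 : E n))) (Ico 0 T' ×ˢ univ) :=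
      ContinuousOn.comp (g := f) (ContDiffOn.continuousOn hcq) h1
        (fun q hq => ⟨hsub q.1 hq.1, coe_ne_zero q.2⟩)
    exact ContinuousOn.mul (by fun_prop) h2
  · intro t ht x
    have h1 := ((hdiff x) t ht).hasDerivWithinAt
    have h6 : HasDerivAt (fun s : ℝ => Real.exp (-L * s)) (Real.exp (-L * t) * (-L)) t := by
      have := ((hasDerivAt_id t).const_mul (-L)).exp
      simpa using this
    exact h6.hasDerivWithinAt.mul h1
  · intro x
    have := h.W_init b hb hTpos x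
    simp [hf, this]
  · intro t ht x hmax hpos
    have he0 : 0 < Real.exp (-L * t) := Real.exp_pos _
    have hUpos : 0 < f (t, (x : E n)) := by
      by_contra hcon
      push Not at hcon
      have := mul_nonpos_of_nonneg_of_nonpos he0.le hcon
      linarith
    have ht0 : 0 < t := by
      rcases ht.1.eq_or_lt with h1 | h1
      · have := h.W_init b hb hTpos x
        rw [← h1] at hUpos
        simp [hf, this] at hUpos
      · exact h1
    have hq : (t, (x : E n)) ∈ QO n T := ⟨⟨ht0, ht.2.trans hT⟩, coe_ne_zero x⟩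
    have hq' := QO_sub T hq
    have hder : derivWithin (fun s : ℝ => f (s, (x : E n))) (Ico 0 T') t =
        da (1, 0) f (t, (x : E n)) := by
      have h1 := hco.hasDerivAt_time hq
      exact (h1.hasDerivWithinAt (s := Ico 0 T')).derivWithin (uniqueDiffOn_Ico 0 T' t ht)
    obtain ⟨e, he⟩ := exists_frame (h.imm t (by rw [Time_coe]; exact hsub t ht)) x
    have hfr := h.fr_of_frame hq' he
    have hdf : ∀ a, ∀ p ∈ QO n T, da a f p = 2 * inner ℝ (WW B F p) (da a (WW B F) p) := by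
      intro a p hp
      rw [hf, (h.co_W B).da_inner (h.co_W B) hp, real_inner_comm]
      ring
    -- the second derivative test
    have htest : ∀ i, da (0, e i) f (t, (x : E n)) = 0 ∧
        da (0, e i) (da (0, e i) f) (t, (x : E n)) ≤ 0 := by
      intro i
      have hline : ∀ s : ℝ, (t, (x : E n) + s • e i) ∈ QO n T := fun s =>
        ⟨hq.1, line_ne_zero x (he.1 i) s⟩
      have h1 : ∀ s : ℝ, HasDerivAt (fun s : ℝ => f (t, (x : E n) + s • e i))
          (da (0, e i) f (t, (x : E n) + s • e i)) s := fun s =>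
        hco.hasDerivAt_line (hline s)
      have h2 : HasDerivAt (fun s : ℝ => da (0, e i) f (t, (x : E n) + s • e i))
          (da (0, e i) (da (0, e i) f) (t, (x : E n))) 0 := by
        have h3 := (hco.da (0, e i)).hasDerivAt_line (hline 0)
        simp only [zero_smul, add_zero] at h3
        exact h3
      have h4 := second_test h1 h2 (fun s => by
        simp only [zero_smul, add_zero, hf]
        rw [h.W_hom (QO_sub T (hline s))]
        exact le_of_mul_le_mul_left (hmax (proj ((x : E n) + s • e i))) he0)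
      simpa using h4
    have hfirst : ∀ i, inner ℝ (WW B F (t, (x : E n))) (da (0, e i) (WW B F) (t, (x : E n))) =
        (0 : ℝ) := by
      intro i
      have h1 := (htest i).1
      rw [hdf _ _ hq] at h1
      linarith
    have hsecond : ∀ i, inner ℝ (WW B F (t, (x : E n)))
        (da (0, e i) (da (0, e i) (WW B F)) (t, (x : E n))) ≤ (0 : ℝ) := by
      intro i
      have h1 := (htest i).2
      rw [da_congr (hdf (0, e i)) hq] at h1
      have h2 : da (0, e i) (fun p => 2 * inner ℝ (WW B F p) (da (0, e i) (WW B F) p))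
          (t, (x : E n)) = 2 * (inner ℝ (da (0, e i) (WW B F) (t, (x : E n)))
            (da (0, e i) (WW B F) (t, (x : E n))) + inner ℝ (WW B F (t, (x : E n)))
            (da (0, e i) (da (0, e i) (WW B F)) (t, (x : E n)))) := by
        have c1 := (h.co_W B).inner ((h.co_W B).da (0, e i))
        have h3 : HasFDerivAt (fun p => 2 * inner ℝ (WW B F p) (da (0, e i) (WW B F) p))
            ((2 : ℝ) • fderiv ℝ (fun p => inner ℝ (WW B F p) (da (0, e i) (WW B F) p))
              (t, (x : E n))) (t, (x : E n)) := (c1.hasFDerivAt hq).const_mul 2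
        rw [← (h.co_W B).da_inner ((h.co_W B).da (0, e i)) hq, da, h3.fderiv]
        rfl
      rw [h2] at h1
      have h3 : 0 ≤ (inner ℝ (da (0, e i) (WW B F) (t, (x : E n)))
            (da (0, e i) (WW B F) (t, (x : E n))) : ℝ) := real_inner_self_nonneg
      linarith
    have hev := h.evol hB hq hfr (U := WW B F (t, (x : E n))) (fun v => h.W_L B hq' v) hfirst
    have hWB : inner ℝ (WW B F (t, (x : E n))) (B (GG F (t, (x : E n)))) = f (t, (x : E n)) := by
      have h1 : B (GG F (t, (x : E n))) = WW B F (t, (x : E n)) +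
          LL F (t, (x : E n)) (cof F (fun p => B (GG F p)) (t, (x : E n))) := by
        rw [WW]
        abel
      rw [h1, inner_add_right, h.W_L B hq', add_zero]
    have hsum : ∑ i, inner ℝ (WW B F (t, (x : E n)))
        (da (0, e i) (da (0, e i) (WW B F)) (t, (x : E n))) ≤ (0 : ℝ) :=
      Finset.sum_nonpos fun i _ => hsecond i
    have hbd : ∀ i j, inner ℝ (WW B F (t, (x : E n))) (da (0, e i) (LL F) (t, (x : E n)) (e j)) *
        inner ℝ (WW B F (t, (x : E n))) (da (0, e i) (LL F) (t, (x : E n)) (e j)) ≤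
        C ^ 2 * f (t, (x : E n)) := by
      intro i j
      have h1 := real_inner_mul_inner_self_le (WW B F (t, (x : E n)))
        (da (0, e i) (LL F) (t, (x : E n)) (e j))
      have h2 : inner ℝ (da (0, e i) (LL F) (t, (x : E n)) (e j))
          (da (0, e i) (LL F) (t, (x : E n)) (e j)) ≤ C ^ 2 := by
        rw [real_inner_self_eq_norm_sq, h.dL_D2 hq]
        exact pow_le_pow_left₀ (norm_nonneg _) (hC t ⟨ht.1, ht.2.le⟩ x e he i j) 2
      calc _ ≤ _ := h1
        _ ≤ f (t, (x : E n)) * C ^ 2 := mul_le_mul_of_nonneg_left h2 hUpos.le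
        _ = _ := mul_comm _ _
    have hsum2 : ∑ i, ∑ j, inner ℝ (WW B F (t, (x : E n)))
        (da (0, e i) (LL F) (t, (x : E n)) (e j)) *
        inner ℝ (WW B F (t, (x : E n))) (da (0, e i) (LL F) (t, (x : E n)) (e j)) ≤
        n * (n * (C ^ 2 * f (t, (x : E n)))) := by
      have h1 := Finset.sum_le_sum (s := (Finset.univ : Finset (Fin n)))
        fun i _ => Finset.sum_le_sum (s := (Finset.univ : Finset (Fin n))) fun j _ => hbd i j
      simpa using h1
    rw [hder]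
    have hfin : da (1, 0) f (t, (x : E n)) ≤ L * f (t, (x : E n)) := by
      rw [hdf _ _ hq, hL]
      rw [hWB] at hev
      nlinarith
    have h8 : Real.exp (-L * t) * (-L) * f (t, (x : E n)) +
        Real.exp (-L * t) * da (1, 0) f (t, (x : E n)) =
        Real.exp (-L * t) * (da (1, 0) f (t, (x : E n)) - L * f (t, (x : E n))) := by
      ring
    rw [h8]
    exact mul_nonpos_of_nonneg_of_nonpos he0.le (by linarith)

include hB hb in
/-- The rotation field is tangent along the flow. -/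
theorem IsMCF.W_zero {q : ℝ × E n} (hq : q ∈ QT n T) : WW B F q = 0 := by
  obtain ⟨T', hT1, hT2⟩ := exists_between hq.1.2
  have hU := h.W_hom (B := B) (t := q.1) (y := q.2) hq
  have e : ((q.1, q.2) : ℝ × E n) = q := rfl
  rw [e] at hU
  rw [hU]
  have h1 := h.W_le hB b hb hT2 q.1 ⟨hq.1.1, hT1⟩ (proj q.2)
  rw [← inner_self_eq_zero (𝕜 := ℝ)]
  exact le_antisymm h1 real_inner_self_nonneg

end

end Pool.Agent.TH616.MCF
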