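import Mathlib
import Pool.Agent.TH616.MVan

/-! Every solution with a symmetric initial value is symmetric. -/

set_option linter.unusedSectionVars false

open Set Metric Filter Topology
open scoped ContDiff

namespace Pool.Agent.TH616.MCF

variable {n : ℕ} {V : Type*} [NormedAddCommGroup V] [InnerProductSpace ℝ V]
  [FiniteDimensional ℝ V]

section

variable {F₀ : S n → V} {T : ℝ} {F : ℝ → S n → V} (h : IsMCF F₀ (T : EReal) F)
include h

theorem IsMCF.vel_G {q : ℝ × E n} (hq : q ∈ QO n T) :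
    inner ℝ (da (1, 0) (GG F) q) (GG F q) = (0 : ℝ) := by
  have h1 := h.co.da_inner_const h.co (c := 1) (fun p hp => h.G_G (QO_sub T hp)) hq (1, 0)
  rw [real_inner_comm (da (1, 0) (GG F) q) (GG F q)] at h1
  linarith

theorem IsMCF.vel_le {C : ℝ} {t : ℝ} {x : S n} (hq : (t, (x : E n)) ∈ QO n T)
    (hC : ∀ e, IsFrame (F t) x e → ∀ i j, ‖D2 (F t) x (e i) (e j)‖ ≤ C) :
    ‖da (1, 0) (GG F) (t, (x : E n))‖ ≤ n * C := by
  have hq' := QO_sub T hq
  obtain ⟨e, he⟩ := exists_frame (h.im hq') x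
  have hfr := h.fr_of_frame hq' he
  set v := da (1, 0) (GG F) (t, (x : E n)) with hv
  have h1 : inner ℝ v v = inner ℝ v (ZZ F (t, (x : E n))) := by
    conv_lhs => rw [hv, h.vel hq]
    rw [← h.vel hq, ← hv]
    have e1 : inner ℝ v v = inner ℝ v (ZZ F (t, (x : E n)) -
        LL F (t, (x : E n)) (cof F (ZZ F) (t, (x : E n))) + (n : ℝ) • GG F (t, (x : E n))) := by
      rw [← h.vel hq]
    rw [e1, inner_add_right, inner_sub_right, hv, h.vel_L hq, real_inner_smul_right, h.vel_G hq]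
    ring
  have h2 : ‖ZZ F (t, (x : E n))‖ ≤ n * C := by
    rw [h.Z_frame hq hfr]
    refine (norm_sum_le _ _).trans ?_
    have h3 : ∀ i ∈ (Finset.univ : Finset (Fin n)),
        ‖da (0, e i) (LL F) (t, (x : E n)) (e i)‖ ≤ C := by
      intro i _
      rw [h.dL_D2 hq]
      exact hC e he i i
    have h4 := Finset.sum_le_sum h3
    simpa using h4
  have h3 : ‖v‖ * ‖v‖ ≤ ‖v‖ * (n * C) := by
    rw [← real_inner_self_eq_norm_mul_norm, h1]
    exact (real_inner_le_norm _ _).trans (mul_le_mul_of_nonneg_left h2 (norm_nonneg _))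
  rcases (norm_nonneg v).eq_or_lt with h4 | h4
  · rw [← h4]
    exact (norm_nonneg _).trans h2
  · exact le_of_mul_le_mul_left h3 h4

variable {B : V →L[ℝ] V} (hB : ∀ x y, inner ℝ (B x) y = -inner ℝ x (B y))
  (b : E n → E n) (hb : ∀ x : S n, B (F₀ x) = D F₀ x (b x))

include hB hb in
/-- The key estimate for the defect of the equivariance. -/
theorem IsMCF.defect {C : ℝ} (hC0 : 0 ≤ C) {t : ℝ} {x : S n}
    (hq : (t, (x : E n)) ∈ QO n T) {w : E n} (hw : inner ℝ (x : E n) w = 0)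
    (hC : ∀ e, IsFrame (F t) x e → ∀ i j, ‖D2 (F t) x (e i) (e j)‖ ≤ C) :
    inner ℝ (B (da (1, 0) (GG F) (t, (x : E n))) - da (0, w) (da (1, 0) (GG F)) (t, (x : E n)))
      (B (GG F (t, (x : E n))) - LL F (t, (x : E n)) w) ≤
    n * C * (n * (n * C)) * inner ℝ (B (GG F (t, (x : E n))) - LL F (t, (x : E n)) w)
      (B (GG F (t, (x : E n))) - LL F (t, (x : E n)) w) := by
  set q : ℝ × E n := (t, (x : E n)) with hqdef
  have hq' := QO_sub T hq
  obtain ⟨e, he⟩ := exists_frame (h.im hq') (proj q.2)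
  have hpx : proj q.2 = x := proj_coe x
  rw [hpx] at he
  have hfr := h.fr_of_frame hq' he
  set c := cof F (fun p => B (GG F p)) q with hc
  have hcp : inner ℝ q.2 c = 0 := h.cof_perp _ hq'
  have hBL : ∀ p ∈ QO n T, B (GG F p) = LL F p (cof F (fun p => B (GG F p)) p) := by
    intro p hp
    have := h.W_zero hB b hb (QO_sub T hp)
    rw [WW, sub_eq_zero] at this
    exact this
  set Y := c - w with hY
  have hX : B (GG F q) - LL F q w = LL F q Y := by
    rw [hY, map_sub, ← hBL q hq]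
  have hYp : inner ℝ q.2 Y = 0 := by
    rw [hY, inner_sub_right, hcp]
    show 0 - inner ℝ (x : E n) w = 0
    rw [hw, sub_zero]
  -- the first term
  have e1 : inner ℝ (B (da (1, 0) (GG F) q)) (LL F q Y) =
      -inner ℝ (da (1, 0) (GG F) q) (da (0, Y) (LL F) q c) := by
    rw [hB]
    have g1 : B (LL F q Y) = da (0, Y) (LL F) q c +
        LL F q (da (0, Y) (cof F (fun p => B (GG F p))) q) := by
      rw [h.L_da hq, ← h.co.da_clm B hq, da_congr hBL hq, h.co_L.da_app (h.co_c B) hq]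
    rw [g1, inner_add_right, h.vel_L hq, add_zero]
  -- the second term
  have e2 : ∀ v, inner ℝ (da (0, w) (da (1, 0) (GG F)) q) (LL F q v) =
      -inner ℝ (da (1, 0) (GG F) q) (da (0, w) (LL F) q v) := by
    intro v
    have g1 := (h.co.da (1, 0)).da_inner_const (h.co_L.app (Φ := fun _ => v) contDiffOn_const)
      (c := 0) (fun p hp => h.vel_L hp v) hq (0, w)
    rw [h.dL_app hq] at g1
    linarith
  have e3 : inner ℝ (B (da (1, 0) (GG F) q) - da (0, w) (da (1, 0) (GG F)) q) (LL F q Y) =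
      -inner ℝ (da (1, 0) (GG F) q) (da (0, Y) (LL F) q Y) := by
    rw [inner_sub_left, e1, e2, h.dL_symm hq w Y, hY, map_sub (da (0, c - w) (LL F) q),
      inner_sub_right]
    ring
  rw [hX, e3]
  -- the bound
  have hv := h.vel_le hq hC
  set p : Fin n → ℝ := fun i => inner ℝ (LL F q Y) (LL F q (e i)) with hp
  have hperp : ∀ i, inner ℝ q.2 (e i) = 0 := hfr.perp
  have horth : ∀ i j, inner ℝ (LL F q (e i)) (LL F q (e j)) = if i = j then (1 : ℝ) else 0 :=
    hfr.orth
  have hspan : ∀ v : E n, ∃ c : ℝ, ∃ p : Fin n → ℝ, v = c • q.2 + ∑ i, p i • e i := hfr.span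
  have hYe : Y = ∑ i, p i • e i := by
    obtain ⟨c', p', hv'⟩ := hspan Y
    have g1 : c' = 0 := by
      have g2 := congrArg (fun v => inner ℝ q.2 v) hv'
      simp only [hYp, inner_add_right, real_inner_smul_right, inner_sum, hperp, mul_zero,
        Finset.sum_const_zero, add_zero, real_inner_self_eq_norm_sq] at g2
      have g3 : ‖q.2‖ ≠ 0 := norm_ne_zero_iff.2 hq.2
      have g4 : ‖q.2‖ ^ 2 ≠ 0 := pow_ne_zero 2 g3
      exact (mul_eq_zero.1 g2.symm).resolve_right g4
    rw [g1, zero_smul, zero_add] at hv'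
    have g2 : ∀ i, p i = p' i := by
      intro i
      simp only [hp]
      conv_lhs => rw [hv']
      simp only [map_sum, map_smul, sum_inner, real_inner_smul_left, horth]
      simp
    conv_lhs => rw [hv']
    simp only [g2]
  have hpn : ∀ i, |p i| ≤ ‖LL F q Y‖ := by
    intro i
    have g1 := abs_real_inner_le_norm (LL F q Y) (LL F q (e i))
    have g2 : ‖LL F q (e i)‖ = 1 := by
      have g3 := hfr.orth i i
      rw [if_pos rfl, real_inner_self_eq_norm_sq] at g3
      nlinarith [norm_nonneg (LL F q (e i))]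
    rw [g2, mul_one] at g1
    exact g1
  have hYY : ‖da (0, Y) (LL F) q Y‖ ≤ n * (n * C) * (‖LL F q Y‖ * ‖LL F q Y‖) := by
    obtain ⟨β, hβ⟩ := h.dL_bil hq
    rw [← hβ]
    conv_lhs => rw [hYe]
    simp only [map_sum, map_smul, sum_apply, smul_apply, hβ]
    refine (norm_sum_le _ _).trans ?_
    have g1 : ∀ i ∈ (Finset.univ : Finset (Fin n)),
        ‖p i • ∑ j, p j • da (0, e j) (LL F) q (e i)‖ ≤ n * C * (‖LL F q Y‖ * ‖LL F q Y‖) := by
      intro i _
      rw [norm_smul, Real.norm_eq_abs]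
      have g2 : ‖∑ j, p j • da (0, e j) (LL F) q (e i)‖ ≤ n * (‖LL F q Y‖ * C) := by
        refine (norm_sum_le _ _).trans ?_
        have g3 : ∀ j ∈ (Finset.univ : Finset (Fin n)),
            ‖p j • da (0, e j) (LL F) q (e i)‖ ≤ ‖LL F q Y‖ * C := by
          intro j _
          rw [norm_smul, Real.norm_eq_abs, h.dL_D2 hq]
          exact mul_le_mul (hpn j) (hC e he j i) (norm_nonneg _) (norm_nonneg _)
        have g4 := Finset.sum_le_sum g3
        simpa using g4
      calc |p i| * ‖∑ j, p j • da (0, e j) (LL F) q (e i)‖ ≤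
          ‖LL F q Y‖ * (n * (‖LL F q Y‖ * C)) :=
            mul_le_mul (hpn i) g2 (norm_nonneg _) (norm_nonneg _)
        _ = n * C * (‖LL F q Y‖ * ‖LL F q Y‖) := by ring
    have g5 := Finset.sum_le_sum g1
    have g6 : ∑ _i : Fin n, (n : ℝ) * C * (‖LL F q Y‖ * ‖LL F q Y‖) =
        n * (n * C) * (‖LL F q Y‖ * ‖LL F q Y‖) := by
      rw [Finset.sum_const, Finset.card_univ, Fintype.card_fin, nsmul_eq_mul]
      ring
    rw [g6] at g5
    exact g5
  rw [real_inner_self_eq_norm_mul_norm]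
  calc -inner ℝ (da (1, 0) (GG F) q) (da (0, Y) (LL F) q Y) ≤
      |inner ℝ (da (1, 0) (GG F) q) (da (0, Y) (LL F) q Y)| := neg_le_abs _
    _ ≤ ‖da (1, 0) (GG F) q‖ * ‖da (0, Y) (LL F) q Y‖ := abs_real_inner_le_norm _ _
    _ ≤ (n * C) * (n * (n * C) * (‖LL F q Y‖ * ‖LL F q Y‖)) :=
        mul_le_mul hv hYY (norm_nonneg _) (by positivity)
    _ = n * C * (n * (n * C)) * (‖LL F q Y‖ * ‖LL F q Y‖) := by ring

include hB hb in
/-- The infinitesimal equivariance persists. -/
theorem IsMCF.infin (hbp : ∀ x : S n, inner ℝ (x : E n) (b x) = 0) {t : ℝ} (ht : t ∈ Ico 0 T)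
    (x : S n) : B (F t x) = D (F t) x (b x) := by
  obtain ⟨T', hT1, hT2⟩ := exists_between ht.2
  obtain ⟨C, hC0, hC⟩ := h.frame_bound hT2
  have hT'pos : 0 < T' := ht.1.trans_lt hT1
  have hTpos : 0 < T := hT'pos.trans hT2
  set w : E n := b x with hw
  let Xf : ℝ → V := fun s => B (GG F (s, (x : E n))) - LL F (s, (x : E n)) w
  have hmaps : MapsTo (fun s : ℝ => ((s, (x : E n)) : ℝ × E n)) (Icc 0 t) (QT n T) := fun s hs =>
    ⟨⟨hs.1, hs.2.trans_lt ht.2⟩, coe_ne_zero x⟩
  have hXc : ContinuousOn Xf (Icc 0 t) := by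
    have h1 : ContinuousOn (GG F) (QT n T) := ContDiffOn.continuousOn h.cq
    have h3 : ContinuousOn (fun s : ℝ => GG F (s, (x : E n))) (Icc 0 t) :=
      ContinuousOn.comp (g := GG F) h1 (by fun_prop) hmaps
    have h4 : ContinuousOn (fun s : ℝ => LL F (s, (x : E n))) (Icc 0 t) :=
      ContinuousOn.comp (g := LL F) h.cont_L (by fun_prop) hmaps
    exact (B.continuous.comp_continuousOn h3).sub (h4.clm_apply continuousOn_const)
  have hX0 : Xf 0 = 0 := by
    show B (GG F (0, (x : E n))) - LL F (0, (x : E n)) w = 0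
    rw [LL_apply, GG]
    simp only [proj_coe, h.init]
    rw [hb, sub_self]
  let K : ℝ := 2 * (n * C * (n * (n * C)))
  let f : ℝ → ℝ := fun s => Real.exp (-K * s) * inner ℝ (Xf s) (Xf s)
  have hder : ∀ s ∈ Ioo 0 t, ∃ d ≤ 0, HasDerivAt f d s := by
    intro s hs
    have hq : (s, (x : E n)) ∈ QO n T := ⟨⟨hs.1, hs.2.trans ht.2⟩, coe_ne_zero x⟩
    have h1 := h.co.hasDerivAt_time hq
    have h2 := (h.co.da (0, w)).hasDerivAt_time hq
    rw [h.co.comm hq] at h2
    have h3 : HasDerivAt (fun s : ℝ => B (GG F (s, (x : E n))) - da (0, w) (GG F) (s, (x : E n)))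
        (B (da (1, 0) (GG F) (s, (x : E n))) - da (0, w) (da (1, 0) (GG F)) (s, (x : E n))) s :=
      (B.hasFDerivAt.comp_hasDerivAt s h1).sub h2
    have hev : Xf =ᶠ[𝓝 s]
        fun s : ℝ => B (GG F (s, (x : E n))) - da (0, w) (GG F) (s, (x : E n)) := by
      filter_upwards [Ioo_mem_nhds hs.1 hs.2] with r hr
      show B (GG F (r, (x : E n))) - LL F (r, (x : E n)) w = _
      rw [h.L_da (q := (r, (x : E n))) ⟨⟨hr.1, hr.2.trans ht.2⟩, coe_ne_zero x⟩]
    have h4 := h3.congr_of_eventuallyEq hev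
    have h5 := h4.inner ℝ h4
    have h6 : HasDerivAt (fun s : ℝ => Real.exp (-K * s)) (Real.exp (-K * s) * (-K)) s := by
      have := ((hasDerivAt_id s).const_mul (-K)).exp
      simpa using this
    refine ⟨_, ?_, h6.mul h5⟩
    have h7 := h.defect hB b hb hC0 hq (hbp x)
      (fun e he => hC s ⟨hs.1.le, (hs.2.trans hT1).le⟩ x e he)
    rw [← hw] at h7
    have h9 : 0 < Real.exp (-K * s) := Real.exp_pos _
    have e0 : Xf s = B (GG F (s, (x : E n))) - LL F (s, (x : E n)) w := rfl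
    rw [← e0] at h7
    rw [real_inner_comm (Xf s) (B (da (1, 0) (GG F) (s, (x : E n))) -
      da (0, w) (da (1, 0) (GG F)) (s, (x : E n)))] at h7
    rw [real_inner_comm (Xf s) (B (da (1, 0) (GG F) (s, (x : E n))) -
      da (0, w) (da (1, 0) (GG F)) (s, (x : E n)))]
    have e1 : Real.exp (-K * s) * (-K) * inner ℝ (Xf s) (Xf s) + Real.exp (-K * s) *
        (inner ℝ (Xf s) (B (da (1, 0) (GG F) (s, (x : E n))) -
        da (0, w) (da (1, 0) (GG F)) (s, (x : E n))) + inner ℝ (Xf s)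
        (B (da (1, 0) (GG F) (s, (x : E n))) - da (0, w) (da (1, 0) (GG F)) (s, (x : E n)))) =
        Real.exp (-K * s) * (2 * inner ℝ (Xf s) (B (da (1, 0) (GG F) (s, (x : E n))) -
        da (0, w) (da (1, 0) (GG F)) (s, (x : E n))) - K * inner ℝ (Xf s) (Xf s)) := by
      ring
    rw [e1]
    refine mul_nonpos_of_nonneg_of_nonpos h9.le ?_
    simp only [K]
    linarith
  have hanti : AntitoneOn f (Icc 0 t) := by
    apply antitoneOn_of_deriv_nonpos (convex_Icc 0 t)
    · exact ContinuousOn.mul (by fun_prop) (hXc.inner hXc)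
    · intro s hs
      rw [interior_Icc] at hs
      obtain ⟨d, -, hd⟩ := hder s hs
      exact hd.differentiableAt.differentiableWithinAt
    · intro s hs
      rw [interior_Icc] at hs
      obtain ⟨d, hd0, hd⟩ := hder s hs
      rw [hd.deriv]
      exact hd0
  have h1 := hanti ⟨le_rfl, ht.1⟩ ⟨ht.1, le_rfl⟩ ht.1
  have h2 : f 0 = 0 := by
    simp only [f, hX0]
    simp
  rw [h2] at h1
  have h3 : 0 < Real.exp (-K * t) := Real.exp_pos _
  have h4 : 0 ≤ (inner ℝ (Xf t) (Xf t) : ℝ) := real_inner_self_nonneg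
  have h5 : (inner ℝ (Xf t) (Xf t) : ℝ) = 0 := by
    by_contra hne
    have h6 : 0 < (inner ℝ (Xf t) (Xf t) : ℝ) := lt_of_le_of_ne h4 (Ne.symm hne)
    have h7 : 0 < f t := mul_pos h3 h6
    linarith
  have h6 : Xf t = 0 := inner_self_eq_zero.1 h5
  have h7 : B (GG F (t, (x : E n))) = LL F (t, (x : E n)) w := sub_eq_zero.1 h6
  rw [LL_apply, GG] at h7
  simp only [proj_coe] at h7
  exact h7

end

/-- The restriction of a flow to a shorter time interval. -/
theorem IsMCF.restrict {F₀ : S n → V} {T : EReal} {F : ℝ → S n → V} (h : IsMCF F₀ T F)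
    {T' : EReal} (h0 : 0 < T') (hT : T' ≤ T) : IsMCF F₀ T' F := by
  have hsub : Time T' ⊆ Time T := fun t ht => ⟨ht.1, ht.2.trans_le hT⟩
  exact ⟨h0, h.smooth.mono (prod_mono hsub subset_rfl), h.init, fun t ht => h.mem t (hsub ht),
    fun t ht => h.imm t (hsub ht),
    fun t ht x e he => (h.flow t (hsub ht) x e he).mono hsub⟩

/-- The infinitesimal equivariance persists, for all times. -/
theorem IsMCF.infin' {F₀ : S n → V} {T : EReal} {F : ℝ → S n → V} (h : IsMCF F₀ T F)
    {B : V →L[ℝ] V} (hB : ∀ x y, inner ℝ (B x) y = -inner ℝ x (B y)) (b : E n → E n)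
    (hb : ∀ x : S n, B (F₀ x) = D F₀ x (b x)) (hbp : ∀ x : S n, inner ℝ (x : E n) (b x) = 0)
    {t : ℝ} (ht : t ∈ Time T) (x : S n) : B (F t x) = D (F t) x (b x) := by
  obtain ⟨T', hT1, hT2⟩ := EReal.lt_iff_exists_real_btwn.1 ht.2
  have ht' : t < T' := by exact_mod_cast hT1
  have h0 : (0 : EReal) < (T' : EReal) := by exact_mod_cast ht.1.trans_lt ht'
  exact (h.restrict h0 hT2.le).infin hB b hb hbp ⟨ht.1, ht'⟩ x

end Pool.Agent.TH616.MCF
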