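import Mathlib
import Pool.Agent.TH616.MEx3
import Pool.Agent.TH616.MSym
import Pool.Agent.TH616.MConv

/-! Persistence of the double point of the Whitney sphere in `S⁶` under the mean curvature flow. -/

set_option linter.unusedSectionVars false

open Set Metric Filter Topology
open scoped ContDiff

namespace Pool.Agent.TH616.MCF

/-- The rotation generators on `ℝ⁷`. -/
noncomputable def J01 : V7 →L[ℝ] V7 := LinearMap.toContinuousLinearMap
  { toFun := fun v => !₂[-v 1, v 0, 0, -v 4, v 3, 0, 0]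
    map_add' := fun x y => by
      ext i
      fin_cases i <;> simp <;> ring
    map_smul' := fun c x => by
      ext i
      fin_cases i <;> simp }

/-- The rotation generators on `ℝ⁷`. -/
noncomputable def J12 : V7 →L[ℝ] V7 := LinearMap.toContinuousLinearMap
  { toFun := fun v => !₂[0, -v 2, v 1, 0, -v 5, v 4, 0]
    map_add' := fun x y => by
      ext i
      fin_cases i <;> simp <;> ring
    map_smul' := fun c x => by
      ext i
      fin_cases i <;> simp }

theorem J01_apply (v : V7) : J01 v = !₂[-v 1, v 0, 0, -v 4, v 3, 0, 0] := rfl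
theorem J12_apply (v : V7) : J12 v = !₂[0, -v 2, v 1, 0, -v 5, v 4, 0] := rfl

/-- The rotation generators on `ℝ⁴`. -/
noncomputable def b01 (y : E 3) : E 3 := !₂[-y 1, y 0, 0, 0]

/-- The rotation generators on `ℝ⁴`. -/
noncomputable def b12 (y : E 3) : E 3 := !₂[0, -y 2, y 1, 0]

theorem J01_skew (x y : V7) : inner ℝ (J01 x) y = -inner ℝ x (J01 y) := by
  rw [J01_apply, J01_apply, inner_seven, inner_seven]
  simp
  ring

theorem J12_skew (x y : V7) : inner ℝ (J12 x) y = -inner ℝ x (J12 y) := by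
  rw [J12_apply, J12_apply, inner_seven, inner_seven]
  simp
  ring

theorem b01_tan (x : E 3) : inner ℝ x (b01 x) = 0 := by
  rw [b01, inner_four]
  simp
  ring

theorem b12_tan (x : E 3) : inner ℝ x (b12 x) = 0 := by
  rw [b12, inner_four]
  simp
  ring

theorem J01_W0 (x : S 3) : J01 (W0 x) = D W0 x (b01 x) := by
  rw [D_W0' x (b01_tan x), W0_eq', Nx, map_smul, map_add, map_add, map_smul, map_smul, map_smul]
  simp only [J01_apply, A_apply, B_apply, k, b01]
  ext i
  fin_cases i <;> simp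

theorem J12_W0 (x : S 3) : J12 (W0 x) = D W0 x (b12 x) := by
  rw [D_W0' x (b12_tan x), W0_eq', Nx, map_smul, map_add, map_add, map_smul, map_smul, map_smul]
  simp only [J12_apply, A_apply, B_apply, k, b12]
  ext i
  fin_cases i <;> simp

/-- The two poles. -/
noncomputable def Np : S 3 := ⟨!₂[0, 0, 0, 1], by
  rw [mem_sphere_zero_iff_norm, EuclideanSpace.norm_eq, Fin.sum_univ_four]
  simp⟩

/-- The two poles. -/
noncomputable def Sp : S 3 := ⟨!₂[0, 0, 0, -1], by
  rw [mem_sphere_zero_iff_norm, EuclideanSpace.norm_eq, Fin.sum_univ_four]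
  simp⟩

theorem Np_ne_Sp : Np ≠ Sp := by
  intro h
  have h1 := congrArg (fun x : S 3 => (x : E 3) 3) h
  simp [Np, Sp] at h1
  norm_num at h1

theorem b_Np : b01 (Np : E 3) = 0 ∧ b12 (Np : E 3) = 0 := by
  constructor <;> (ext i; fin_cases i <;> simp [b01, b12, Np])

theorem b_Sp : b01 (Sp : E 3) = 0 ∧ b12 (Sp : E 3) = 0 := by
  constructor <;> (ext i; fin_cases i <;> simp [b01, b12, Sp])

theorem W0_Np : W0 Np = k := by
  ext i
  fin_cases i <;> simp [W0, Np, k] <;> norm_num

theorem W0_Sp : W0 Sp = k := by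
  ext i
  fin_cases i <;> simp [W0, Sp, k] <;> norm_num

theorem fixed_points {v : V7} (hn : ‖v‖ = 1) (h1 : J01 v = 0) (h2 : J12 v = 0) :
    v = v 6 • k ∧ v 6 ^ 2 = 1 := by
  have e1 : ∀ i, J01 v i = 0 := fun i => by rw [h1]; rfl
  have e2 : ∀ i, J12 v i = 0 := fun i => by rw [h2]; rfl
  have a0 := e1 1
  have a1 := e1 0
  have a3 := e1 4
  have a4 := e1 3
  have a2 := e2 1
  have a5 := e2 4
  simp [J01_apply] at a0 a1 a3 a4
  simp [J12_apply] at a2 a5
  have h3 : v = v 6 • k := by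
    ext i
    fin_cases i <;> simp [k, a0, a1, a2, a3, a4, a5]
  refine ⟨h3, ?_⟩
  have h4 : inner ℝ v v = (1 : ℝ) := by
    rw [real_inner_self_eq_norm_sq, hn]
    norm_num
  rw [inner_seven, a0, a1, a2, a3, a4, a5] at h4
  linarith

variable {T : EReal} {F : ℝ → S 3 → V7}

theorem IsMCF.zero_mem {n : ℕ} {V : Type*} [NormedAddCommGroup V] [InnerProductSpace ℝ V]
    {F₀ : S n → V} {T : EReal} {F : ℝ → S n → V} (h : IsMCF F₀ T F) : (0 : ℝ) ∈ Time T :=
  ⟨le_rfl, by exact_mod_cast h.pos⟩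

theorem time_sub {t : ℝ} (ht : t ∈ Time T) : Icc 0 t ⊆ Time T := fun s hs =>
  ⟨hs.1, lt_of_le_of_lt (by exact_mod_cast hs.2) ht.2⟩

theorem IsMCF.cont_time {n : ℕ} {V : Type*} [NormedAddCommGroup V] [InnerProductSpace ℝ V]
    {F₀ : S n → V} {T : EReal} {F : ℝ → S n → V} (h : IsMCF F₀ T F) (x : S n) :
    ContinuousOn (fun s => F s x) (Time T) := by
  have h1 : ContinuousOn (fun s : ℝ => ((s, (x : E n)) : ℝ × E n)) (Time T) := by fun_prop
  have h2 := h.smooth.continuousOn.comp h1 (fun s hs => ⟨hs, coe_ne_zero x⟩)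
  refine h2.congr fun s _ => ?_
  simp [proj_coe]

/-- A fixed point of the symmetry group stays at the pole. -/
theorem pole_fixed (h : IsMCF W0 T F) {x : S 3} (hx1 : b01 (x : E 3) = 0)
    (hx2 : b12 (x : E 3) = 0) (h0 : W0 x = k) {t : ℝ} (ht : t ∈ Time T) : F t x = k := by
  have key : ∀ s ∈ Time T, F s x = F s x 6 • k ∧ F s x 6 ^ 2 = 1 := by
    intro s hs
    have e1 := h.infin' J01_skew (fun y => b01 y) J01_W0 (fun y => b01_tan y) hs x
    have e2 := h.infin' J12_skew (fun y => b12 y) J12_W0 (fun y => b12_tan y) hs x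
    simp only [hx1, D_zero] at e1
    simp only [hx2, D_zero] at e2
    exact fixed_points (h.mem s hs x) e1 e2
  have hc : ContinuousOn (fun s => F s x 6) (Icc 0 t) := by
    have h1 := (h.cont_time x).mono (time_sub ht)
    exact (EuclideanSpace.proj (𝕜 := ℝ) (6 : Fin 7)).continuous.comp_continuousOn h1
  have hpos : 0 < F t x 6 := by
    by_contra hneg
    push Not at hneg
    have h1 : (0 : ℝ) ∈ Icc (F t x 6) (F 0 x 6) := by
      refine ⟨hneg, ?_⟩
      rw [h.init, h0]
      simp [k]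
    obtain ⟨s, hs, hs0⟩ := intermediate_value_Icc' ht.1 hc h1
    have h2 := (key s (time_sub ht hs)).2
    simp only at hs0
    rw [hs0] at h2
    norm_num at h2
  obtain ⟨h1, h2⟩ := key t ht
  have h3 : F t x 6 = 1 := by nlinarith
  rw [h1, h3, one_smul]

theorem double_point (h : IsMCF W0 T F) {t : ℝ} (ht : t ∈ Time T) : F t Np = F t Sp := by
  rw [pole_fixed h b_Np.1 b_Np.2 W0_Np ht, pole_fixed h b_Sp.1 b_Sp.2 W0_Sp ht]

theorem smooth_slice {n : ℕ} {V : Type*} [NormedAddCommGroup V] [InnerProductSpace ℝ V]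
    {F₀ : S n → V} {T : EReal} {F : ℝ → S n → V} (h : IsMCF F₀ T F) {t : ℝ} (ht : t ∈ Time T) :
    IsSmooth (F t) := by
  have h1 : ContDiffOn ℝ ∞ (fun y : E n => ((t, y) : ℝ × E n)) {0}ᶜ := by fun_prop
  exact h.smooth.comp h1 (fun y hy => ⟨ht, hy⟩)

theorem smooth_comp {n : ℕ} {V : Type*} [NormedAddCommGroup V] [InnerProductSpace ℝ V]
    {G : S n → V} (hG : IsSmooth G) {φ : S n ≃ S n} (hφ : IsDiffeo φ) :
    IsSmooth (fun x => G (φ x)) := by
  have h1 := hG.comp hφ.smooth (fun y _ => coe_ne_zero _)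
  refine h1.congr fun y _ => ?_
  simp [proj_coe]

/-- If the curves `F t` have a double point for all times, then no rescaling converges to an
injective immersion. -/
theorem no_conv {n : ℕ} {V : Type*} [NormedAddCommGroup V] [InnerProductSpace ℝ V]
    {F₀ : S n → V} {T : EReal} {F : ℝ → S n → V} (h : IsMCF F₀ T F) {x y : S n} (hxy : x ≠ y)
    (hd : ∀ t ∈ Time T, F t x = F t y) {φ : ℝ → S n ≃ S n} (hφ : ∀ t, IsDiffeo (φ t))
    {c : ℝ → ℝ} {o : V} {G' : S n → V} (h1 : IsSmooth G') (h2 : IsImmersion G')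
    (h3 : Function.Injective G') (hG : TendsC1 T (fun t x => c t • (F t (φ t x) - o)) G') :
    False := by
  obtain ⟨t, ht, hinj⟩ := injective_of_tendsC1 (fun t ht => by
    have e1 := smooth_comp (smooth_slice h ht) (hφ t)
    exact (e1.sub contDiffOn_const).const_smul (c t)) h1 h2 h3 hG
  have h4 := @hinj t ht le_rfl ((φ t).symm x) ((φ t).symm y) (by simp [hd t ht])
  exact hxy ((φ t).symm.injective h4)

theorem not_toRoundPoint (h : IsMCF W0 T F) : ¬ToRoundPoint T F := by
  rintro ⟨-, o, -, φ, c, G', a, r, W, hφ, -, hG, h1, h2, h3, -⟩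
  exact no_conv h Np_ne_Sp (fun t ht => double_point h ht) hφ h1 h2 h3 hG

theorem not_toGreatSphere (h : IsMCF W0 T F) : ¬ToGreatSphere T F := by
  rintro ⟨-, φ, G', W, hφ, hG, h1, h2, h3, -⟩
  refine no_conv (c := fun _ => 1) (o := 0) h Np_ne_Sp (fun t ht => double_point h ht) hφ h1 h2 h3 ?_
  simpa using hG

end Pool.Agent.TH616.MCF
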